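import Pool.Agent.R958.PTC.Stmts

/-!
Piece A of the disproof of MP_81329c_pr: elementary properties of the profiles.
-/

namespace PTC

theorem GG_zero (Q : ℕ → ℝ) : GG Q 0 = 0 := by
  simp [GG]

theorem GG_succ (Q : ℕ → ℝ) (k : ℕ) : GG Q (k + 1) = GG Q k + Q k := by
  simp [GG, Finset.sum_range_succ]

namespace Good

variable {Q : ℕ → ℝ} {H : ℕ}

theorem nonneg (h : Good Q H) (k : ℕ) : 0 ≤ Q k := by
  rcases lt_or_ge k H with hk | hk
  · exact (h.pos k hk).le
  · exact (h.zero k hk).ge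

theorem step_le (h : Good Q H) (k : ℕ) : Q (k + 1) ≤ Q k := by
  rcases lt_or_ge (k + 1) H with hk | hk
  · exact (h.anti k hk).le
  · rw [h.zero _ hk]; exact h.nonneg k

theorem le_zero (h : Good Q H) (k : ℕ) : Q k ≤ Q 0 := by
  induction k with
  | zero => exact le_rfl
  | succ k ih => exact (h.step_le k).trans ih

theorem lt_of_pos (h : Good Q H) {k : ℕ} (hk : 0 < Q k) : k < H := by
  by_contra hcon
  rw [h.zero k (not_lt.mp hcon)] at hk
  exact lt_irrefl _ hk

theorem GG_mono (h : Good Q H) {i j : ℕ} (hij : i ≤ j) : GG Q i ≤ GG Q j := by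
  unfold GG
  apply Finset.sum_le_sum_of_subset_of_nonneg
  · intro a ha
    simp only [Finset.mem_range] at ha ⊢
    omega
  · intro i _ _
    exact h.nonneg i

theorem GG_nonneg (h : Good Q H) (i : ℕ) : 0 ≤ GG Q i := by
  unfold GG
  exact Finset.sum_nonneg fun i _ => h.nonneg i

theorem GG_const (h : Good Q H) {k : ℕ} (hk : H ≤ k) : GG Q k = GG Q H := by
  obtain ⟨d, rfl⟩ := Nat.exists_eq_add_of_le hk
  induction d with
  | zero => rfl
  | succ d ih =>
    rw [← add_assoc, GG_succ, ih (by omega), h.zero (H + d) (by omega), add_zero]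

theorem GG_le (h : Good Q H) (k : ℕ) : GG Q k ≤ GG Q H := by
  rcases le_total k H with hk | hk
  · exact h.GG_mono hk
  · exact (h.GG_const hk).le

end Good

theorem frac_lt {n L : ℕ} (h : n < L) : ((n : ℕ) : ℝ) / (L : ℝ) < 1 := by
  have hL : (0 : ℝ) < (L : ℝ) := by
    have : 0 < L := by omega
    exact_mod_cast this
  rw [div_lt_one hL]
  exact_mod_cast h

theorem frac_nonneg (n L : ℕ) : (0 : ℝ) ≤ ((n : ℕ) : ℝ) / (L : ℝ) := by positivity

theorem frac_succ (n L : ℕ) :
    ((n + 1 : ℕ) : ℝ) / (L : ℝ) = (n : ℝ) / (L : ℝ) + 1 / (L : ℝ) := by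
  push_cast
  rw [add_div]

theorem nextP_lt (Q : ℕ → ℝ) (H L n : ℕ) (h : n < L) :
    nextP Q H L n = Q 0 + 2 - (n : ℝ) / (L : ℝ) + GG Q H := by
  unfold nextP
  rw [if_pos h, Nat.sub_eq_zero_of_le h.le, GG_zero]
  ring

theorem nextP_ge (Q : ℕ → ℝ) (H L n : ℕ) (h : L ≤ n) :
    nextP Q H L n = GG Q H - GG Q (n - L) := by
  unfold nextP
  rw [if_neg (not_lt.mpr h)]
  ring

theorem vv_lt_s (Q : ℕ → ℝ) (H L s n k : ℕ) (h : n < s) :
    vv Q H L s n k = nextP Q H L (n + k) := by
  unfold vv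
  rw [if_pos h]

theorem vv_in (Q : ℕ → ℝ) (H L s n k : ℕ) (h : s ≤ n) (h2 : n + k < L) :
    vv Q H L s n k =
      (Q 0 + 2 - ((n + k : ℕ) : ℝ) / (L : ℝ)) + GG Q H - GG Q (n + k - s) + GG Q k := by
  unfold vv
  rw [if_neg (not_lt.mpr h), if_pos h2]

theorem vv_out (Q : ℕ → ℝ) (H L s n k : ℕ) (h : s ≤ n) (h2 : L ≤ n + k) :
    vv Q H L s n k = GG Q k - GG Q (n + k - L) := by
  unfold vv
  rw [if_neg (not_lt.mpr h), if_neg (not_lt.mpr h2)]

theorem A1 (Q : ℕ → ℝ) (H L : ℕ) (h : Good Q H) (hL : 0 < L) :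
    Good (nextP Q H L) (L + H) := by
  constructor
  · intro k hk
    rcases lt_or_ge k L with hkL | hkL
    · rw [nextP_lt _ _ _ _ hkL]
      have h1 := frac_lt hkL
      have h2 := h.nonneg 0
      have h3 := h.GG_nonneg H
      linarith
    · rw [nextP_ge _ _ _ _ hkL]
      have h1 : k - L < H := by omega
      have h2 := h.pos _ h1
      have h3 := h.GG_le (k - L + 1)
      rw [GG_succ] at h3
      linarith
  · intro k hk
    rw [nextP_ge _ _ _ _ (by omega), h.GG_const (k := k - L) (by omega), sub_self]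
  · intro k hk
    rcases lt_trichotomy (k + 1) L with hkL | hkL | hkL
    · rw [nextP_lt _ _ _ _ hkL, nextP_lt _ _ _ _ (by omega), frac_succ]
      have : (0 : ℝ) < 1 / (L : ℝ) := by
        have : (0 : ℝ) < (L : ℝ) := by exact_mod_cast hL
        positivity
      linarith
    · rw [nextP_ge _ _ _ _ hkL.ge, nextP_lt _ _ _ k (by omega), hkL, Nat.sub_self, GG_zero]
      have h1 : (k : ℝ) / (L : ℝ) < 1 := frac_lt (by omega)
      have h2 := h.nonneg 0
      linarith
    · rw [nextP_ge _ _ _ _ hkL.le, nextP_ge _ _ _ k (by omega)]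
      have h1 : k + 1 - L = k - L + 1 := by omega
      rw [h1, GG_succ]
      have h2 := h.pos (k - L) (by omega)
      linarith

theorem A2 (Q : ℕ → ℝ) (H L s n k : ℕ) (_h : Good Q H) (_hs : s + H < L) (hn : n < L)
    (hsn : s ≤ n) :
    vv Q H L s n (k + 1) = (if n + 1 < L then vv Q H L s (n + 1) k else 0) + Q k := by
  have e : n + (k + 1) = n + 1 + k := by omega
  by_cases h1 : n + 1 < L
  · rw [if_pos h1]
    by_cases h2 : n + 1 + k < L
    · rw [vv_in _ _ _ _ _ _ hsn (by omega), vv_in _ _ _ _ _ _ (by omega) h2, e, GG_succ]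
      ring
    · rw [vv_out _ _ _ _ _ _ hsn (by omega), vv_out _ _ _ _ _ _ (by omega) (by omega), e,
        GG_succ]
      ring
  · rw [if_neg h1, vv_out _ _ _ _ _ _ hsn (by omega), GG_succ]
    have : n + (k + 1) - L = k := by omega
    rw [this]
    ring

theorem A3 (Q : ℕ → ℝ) (H L s n k : ℕ) (h : Good Q H) (hs : s + H < L ∨ (H = 0 ∧ L ≤ s))
    (hn : n < L) (hns : n < s) :
    vv Q H L s n (k + 1) = (if n + 1 < L then vv Q H L s (n + 1) k else 0) := by
  have e : n + (k + 1) = n + 1 + k := by omega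
  rw [vv_lt_s _ _ _ _ _ _ hns, e]
  by_cases h1 : n + 1 < L
  · rw [if_pos h1]
    by_cases h2 : n + 1 < s
    · rw [vv_lt_s _ _ _ _ _ _ h2]
    · have hs' : s + H < L := by
        rcases hs with hs | hs
        · exact hs
        · omega
      by_cases h3 : n + 1 + k < L
      · rw [vv_in _ _ _ _ _ _ (by omega) h3, nextP_lt _ _ _ _ h3]
        have : n + 1 + k - s = k := by omega
        rw [this]
        ring
      · rw [vv_out _ _ _ _ _ _ (by omega) (by omega), nextP_ge _ _ _ _ (by omega),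
          h.GG_const (k := k) (by omega)]
  · rw [if_neg h1]
    have hH : H = 0 := by omega
    exact (A1 Q H L h (by omega)).zero _ (by omega)

theorem A4 (Q : ℕ → ℝ) (H L s n k : ℕ) (h : Good Q H) (_hs : s + H < L ∨ (H = 0 ∧ L ≤ s))
    (hn : n < L) : 0 ≤ vv Q H L s n k := by
  rcases lt_or_ge n s with h1 | h1
  · rw [vv_lt_s _ _ _ _ _ _ h1]
    exact (A1 Q H L h (by omega)).nonneg _
  · rcases lt_or_ge (n + k) L with h2 | h2
    · rw [vv_in _ _ _ _ _ _ h1 h2]
      have a := frac_lt h2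
      have b := h.GG_le (n + k - s)
      have c := h.GG_nonneg k
      have d := h.nonneg 0
      linarith
    · rw [vv_out _ _ _ _ _ _ h1 h2]
      have := h.GG_mono (show n + k - L ≤ k by omega)
      linarith

theorem A5 (Q : ℕ → ℝ) (H L s n k : ℕ) (h : Good Q H) (hs : s + H < L ∨ (H = 0 ∧ L ≤ s))
    (hn : n + 1 < L) (hpos : 0 < vv Q H L s (n + 1) k) :
    vv Q H L s (n + 1) k < vv Q H L s n k := by
  rcases lt_or_ge n s with h1 | h1
  · have e := A3 Q H L s n k h hs (by omega) h1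
    rw [if_pos hn, vv_lt_s _ _ _ _ _ _ h1] at e
    rw [← e] at hpos ⊢
    rw [vv_lt_s _ _ _ _ _ _ h1]
    have g := A1 Q H L h (by omega)
    have h3 := g.lt_of_pos hpos
    exact g.anti (n + k) h3
  · have hs' : s + H < L := by
      rcases hs with hs | hs
      · exact hs
      · omega
    rcases lt_trichotomy (n + 1 + k) L with h2 | h2 | h2
    · rw [vv_in _ _ _ _ _ _ (by omega) h2, vv_in _ _ _ _ _ _ h1 (by omega)]
      have e1 : n + 1 + k = n + k + 1 := by omega
      have e2 : n + 1 + k - s = n + k - s + 1 := by omega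
      rw [e2, GG_succ, e1, frac_succ]
      have hL : (0 : ℝ) < 1 / (L : ℝ) := by
        have : (0 : ℝ) < (L : ℝ) := by
          have : 0 < L := by omega
          exact_mod_cast this
        positivity
      have := h.nonneg (n + k - s)
      linarith
    · rw [vv_out _ _ _ _ _ _ (by omega) (by omega), vv_in _ _ _ _ _ _ h1 (by omega)]
      have e1 : n + 1 + k - L = 0 := by omega
      rw [e1, GG_zero]
      have a := frac_lt (show n + k < L by omega)
      have b := h.GG_le (n + k - s)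
      have d := h.nonneg 0
      linarith
    · rw [vv_out _ _ _ _ _ _ (by omega) (by omega)] at hpos ⊢
      rw [vv_out _ _ _ _ _ _ h1 (by omega)]
      have e1 : n + 1 + k - L = n + k - L + 1 := by omega
      rw [e1] at hpos ⊢
      have hlt : n + k - L < H := by
        by_contra hcon
        have c1 := h.GG_const (k := n + k - L + 1) (by omega)
        have c2 := h.GG_le k
        linarith
      rw [GG_succ]
      have := h.pos _ hlt
      linarith

theorem A6 (Q : ℕ → ℝ) (H L s n k : ℕ) (h : Good Q H) (_hs : s + H < L) (hsn : s ≤ n)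
    (hn : n < L) (hk : 0 < Q k) : Q k < vv Q H L s n k := by
  rcases lt_or_ge (n + k) L with h2 | h2
  · rw [vv_in _ _ _ _ _ _ hsn h2]
    have a := frac_lt h2
    have b := h.GG_le (n + k - s)
    have c := h.GG_nonneg k
    have d := h.le_zero k
    linarith
  · rw [vv_out _ _ _ _ _ _ hsn h2]
    have hkH := h.lt_of_pos hk
    cases k with
    | zero => omega
    | succ k =>
      rw [GG_succ]
      have a := h.GG_mono (show n + (k + 1) - L ≤ k by omega)
      have b := h.anti k hkH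
      linarith

theorem A8 (Q : ℕ → ℝ) (H L s n : ℕ) (h : Good Q H) (_hs : s + H < L ∨ (H = 0 ∧ L ≤ s))
    (hn : n < L) : 0 < vv Q H L s n 0 := by
  rcases lt_or_ge n s with h1 | h1
  · rw [vv_lt_s _ _ _ _ _ _ h1]
    exact (A1 Q H L h (by omega)).pos _ (by omega)
  · rw [vv_in _ _ _ _ _ _ h1 (by omega)]
    have a := frac_lt (show n + 0 < L by omega)
    have b := h.GG_le (n + 0 - s)
    have c := h.GG_nonneg 0
    have d := h.nonneg 0
    linarith

theorem A9 (Q : ℕ → ℝ) (H L s n : ℕ) (h : Good Q H) (_hs : s + H < L ∨ (H = 0 ∧ L ≤ s))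
    (hn : n < L) : vv Q H L s n 0 ≤ Q 0 + 2 + GG Q H := by
  rcases lt_or_ge n s with h1 | h1
  · rw [vv_lt_s _ _ _ _ _ _ h1, nextP_lt _ _ _ _ (by omega)]
    have a := frac_nonneg (n + 0) L
    linarith
  · rw [vv_in _ _ _ _ _ _ h1 (by omega), GG_zero]
    have a := frac_nonneg (n + 0) L
    have b := h.GG_nonneg (n + 0 - s)
    linarith

theorem A10 (Q : ℕ → ℝ) (H L s n : ℕ) (h : Good Q H) (hs : s + H ≤ n)
    (hn : n < L) : vv Q H L s n 0 ≤ Q 0 + 2 := by
  rw [vv_in _ _ _ _ _ _ (by omega) (by omega), GG_zero,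
    h.GG_const (k := n + 0 - s) (by omega)]
  have a := frac_nonneg (n + 0) L
  linarith

theorem proofA : StmtA := by
  refine ⟨A1, A2, A3, A4, A5, A6, ?_, A8, A9, A10⟩
  intro Q H L s k hs
  rw [vv_lt_s _ _ _ _ _ _ hs, zero_add]

end PTC
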