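import Pool.Agent.R958.PTC.Stmts

/-!
Piece C of the disproof of MP_81329c_pr: the values on an abstract tree system and the dynamics.
-/

open MeasureTheory
open scoped ENNReal

namespace PTC

namespace PC

section

variable {V : Type} {adj : V → V → Prop} {L H : ℕ → ℕ} {s : ℕ → ℕ → ℕ} {Q : ℕ → ℕ → ℝ}
    {R : ℕ → ℕ → ℕ → V → Prop} {p : V → V}

theorem cval_eq (T : TreeSys adj L H s R p) (j m n k : ℕ) (x : V) (hx : R j m n x) :
    cval L H s Q R k x = ENNReal.ofReal (vv (Q j) (H j) (L j) (s j m) n k) := by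
  classical
  unfold cval
  rw [tsum_eq_single (j, m, n)]
  · simp only
    rw [if_pos hx]
  · rintro ⟨j', m', n'⟩ hne
    rw [if_neg]
    intro hR
    obtain ⟨h1, h2, h3⟩ := T.uniq _ _ _ _ _ _ _ hR hx
    apply hne
    simp only at h1 h2 h3
    rw [h1, h2, h3]

theorem cval_zero (k : ℕ) (x : V) (hx : ∀ j m n, ¬ R j m n x) :
    cval L H s Q R k x = 0 := by
  classical
  unfold cval
  rw [ENNReal.tsum_eq_zero]
  rintro ⟨j', m', n'⟩
  rw [if_neg (hx _ _ _)]

theorem vertex_of_ne (k : ℕ) (x : V) (hx : cval L H s Q R k x ≠ 0) :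
    ∃ j m n, R j m n x := by
  by_contra hcon
  push Not at hcon
  exact hx (cval_zero k x hcon)

theorem cond (T : TreeSys adj L H s R p) (hH0 : H 0 = 0) (j m n : ℕ) (x : V)
    (hx : R j m n x) : s j m + H j < L j ∨ (H j = 0 ∧ L j ≤ s j m) := by
  cases j with
  | zero => exact Or.inr ⟨hH0, T.s_zero m⟩
  | succ j => exact Or.inl (T.s_bound j m n x hx)

theorem cond_s (T : TreeSys adj L H s R p) (hH0 : H 0 = 0) (j m n : ℕ) (x : V)
    (hx : R j m n x) (hs : s j m ≤ n) : s j m + H j < L j := by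
  rcases cond T hH0 j m n x hx with h | h
  · exact h
  · have := T.lt _ _ _ _ hx
    omega

theorem par_vertex (T : TreeSys adj L H s R p) (j m n : ℕ) (x : V) (hx : R j m n x) :
    ∃ j' m' n', R j' m' n' (p x) := by
  cases n with
  | zero =>
    obtain ⟨m', n', h, _⟩ := T.par_zero _ _ _ hx
    exact ⟨_, _, _, h⟩
  | succ n => exact ⟨_, _, _, T.par_succ _ _ _ _ hx⟩

theorem val_lt (hA : StmtA) (T : TreeSys adj L H s R p) (hG : ∀ j, Good (Q j) (H j))
    (hH0 : H 0 = 0) (hQ : ∀ j, Q (j + 1) = nextP (Q j) (H j) (L j))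
    (j m n k : ℕ) (x : V) (hx : R j m n x) (hpos : 0 < cval L H s Q R k x) :
    cval L H s Q R k x < cval L H s Q R k (p x) := by
  obtain ⟨_, _, _, _, a5, a6, a7, _, _, _⟩ := hA
  rw [cval_eq T j m n k x hx] at hpos ⊢
  cases n with
  | zero =>
    obtain ⟨m', n', h1, h2⟩ := T.par_zero _ _ _ hx
    rw [cval_eq T _ _ _ k _ h1]
    rw [a7 _ _ _ _ _ (T.s_pos j m), ← hQ] at hpos ⊢
    rw [ENNReal.ofReal_pos] at hpos
    have h3 := a6 (Q (j + 1)) (H (j + 1)) (L (j + 1)) (s (j + 1) m') n' k (hG _)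
      (T.s_bound _ _ _ _ h1) h2 (T.lt _ _ _ _ h1) hpos
    exact (ENNReal.ofReal_lt_ofReal_iff (hpos.trans h3)).mpr h3
  | succ n =>
    have h1 := T.par_succ _ _ _ _ hx
    rw [cval_eq T _ _ _ k _ h1]
    rw [ENNReal.ofReal_pos] at hpos
    have h3 := a5 (Q j) (H j) (L j) (s j m) n k (hG _) (cond T hH0 _ _ _ _ hx)
      (T.lt _ _ _ _ hx) hpos
    exact (ENNReal.ofReal_lt_ofReal_iff (hpos.trans h3)).mpr h3

theorem max_prop (hA : StmtA) (T : TreeSys adj L H s R p) (hG : ∀ j, Good (Q j) (H j))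
    (hH0 : H 0 = 0) (hQ : ∀ j, Q (j + 1) = nextP (Q j) (H j) (L j))
    (k : ℕ) (x y : V) (hpos : 0 < cval L H s Q R k x) (hy : y = x ∨ adj x y)
    (hne : y ≠ p x) : cval L H s Q R k y < cval L H s Q R k (p x) := by
  obtain ⟨j, m, n, hx⟩ := vertex_of_ne k x hpos.ne'
  have hlt := val_lt hA T hG hH0 hQ j m n k x hx hpos
  rcases hy with rfl | hadj
  · exact hlt
  · by_cases hv : cval L H s Q R k y = 0
    · rw [hv]
      exact hpos.trans hlt
    · obtain ⟨j', m', n', hy⟩ := vertex_of_ne k y hv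
      rcases T.classify _ _ _ _ _ _ _ _ hx hy hadj with h | h | ⟨h1, h2, h3, h4⟩
      · exact absurd h hne
      · have h5 := val_lt hA T hG hH0 hQ j' m' n' k y hy (pos_iff_ne_zero.mpr hv)
        rw [← h] at h5
        exact h5.trans hlt
      · subst h1 h2
        have h6 : cval L H s Q R k y = cval L H s Q R k x := by
          rw [cval_eq T _ _ _ k _ hy, cval_eq T _ _ _ k _ hx]
          unfold vv
          rw [if_pos h3, if_pos h4]
        rw [h6]
        exact hlt

theorem sum_path (T : TreeSys adj L H s R p) (j m n k : ℕ) (x : V) (hx : R j m n x) :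
    open scoped Classical in
    (∑' y, if R j m (n + 1) y ∧ p y = x then cval L H s Q R k y else 0)
      = ENNReal.ofReal (if n + 1 < L j then vv (Q j) (H j) (L j) (s j m) (n + 1) k else 0) := by
  classical
  by_cases h : n + 1 < L j
  · rw [if_pos h]
    obtain ⟨y0, h0, h0'⟩ := T.child_exists _ _ _ _ hx h
    rw [tsum_eq_single y0]
    · rw [if_pos ⟨h0, h0'⟩, cval_eq T _ _ _ k _ h0]
    · intro y hy
      rw [if_neg]
      rintro ⟨h1, h2⟩
      exact hy (T.child_unique _ _ _ _ _ _ hx h1 h0 h2 h0')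
  · rw [if_neg h, ENNReal.ofReal_zero, ENNReal.tsum_eq_zero]
    intro y
    rw [if_neg]
    rintro ⟨h1, h2⟩
    exact h (T.lt _ _ _ _ h1)

theorem sum_side (hA : StmtA) (T : TreeSys adj L H s R p)
    (hQ : ∀ j, Q (j + 1) = nextP (Q j) (H j) (L j))
    (j m n k : ℕ) (x : V) (hx : R j m n x) :
    open scoped Classical in
    (∑' y, if (∃ j' m', j = j' + 1 ∧ R j' m' 0 y) ∧ p y = x then cval L H s Q R k y else 0)
      = ENNReal.ofReal (if s j m ≤ n then Q j k else 0) := by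
  classical
  obtain ⟨_, _, _, _, _, _, a7, _, _, _⟩ := hA
  by_cases h : s j m ≤ n
  · rw [if_pos h]
    cases j with
    | zero =>
      have h1 := T.s_zero m
      have h2 := T.lt _ _ _ _ hx
      omega
    | succ j =>
      obtain ⟨m', y0, h0, h0'⟩ := T.side_exists _ _ _ _ hx h
      rw [tsum_eq_single y0]
      · rw [if_pos ⟨⟨j, m', rfl, h0⟩, h0'⟩, cval_eq T _ _ _ k _ h0,
          a7 _ _ _ _ _ (T.s_pos j m'), ← hQ]
      · intro y hy
        rw [if_neg]
        rintro ⟨⟨j', m'', h1, h2⟩, h3⟩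
        obtain rfl : j' = j := by omega
        exact hy (T.side_unique _ _ _ _ _ _ h2 h0 h3 h0')
  · rw [if_neg h, ENNReal.ofReal_zero, ENNReal.tsum_eq_zero]
    intro y
    rw [if_neg]
    rintro ⟨⟨j', m'', h1, h2⟩, h3⟩
    subst h1
    obtain ⟨m3, n3, h4, h5⟩ := T.par_zero _ _ _ h2
    rw [h3] at h4
    obtain ⟨_, h6, h7⟩ := T.uniq _ _ _ _ _ _ _ h4 hx
    subst h6 h7
    exact h h5

theorem step_vertex (hA : StmtA) (T : TreeSys adj L H s R p) (hG : ∀ j, Good (Q j) (H j))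
    (hH0 : H 0 = 0) (hQ : ∀ j, Q (j + 1) = nextP (Q j) (H j) (L j))
    (j m n k : ℕ) (x : V) (hx : R j m n x) :
    cval L H s Q R (k + 1) x =
      open scoped Classical in
      ∑' y, if cval L H s Q R k y ≠ 0 ∧ p y = x then cval L H s Q R k y else 0 := by
  classical
  have hsplit : ∀ y, (if cval L H s Q R k y ≠ 0 ∧ p y = x then cval L H s Q R k y else 0)
      = (if R j m (n + 1) y ∧ p y = x then cval L H s Q R k y else 0)
        + (if (∃ j' m', j = j' + 1 ∧ R j' m' 0 y) ∧ p y = x then cval L H s Q R k y else 0) := by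
    intro y
    by_cases hp : p y = x
    · by_cases hc : cval L H s Q R k y = 0
      · simp [hc]
      · obtain ⟨j', m', n', hy⟩ := vertex_of_ne k y hc
        rw [if_pos ⟨hc, hp⟩]
        cases n' with
        | zero =>
          obtain ⟨m3, n3, h4, h5⟩ := T.par_zero _ _ _ hy
          rw [hp] at h4
          obtain ⟨h6, _, _⟩ := T.uniq _ _ _ _ _ _ _ h4 hx
          rw [if_neg, if_pos ⟨⟨j', m', h6.symm, hy⟩, hp⟩, zero_add]
          rintro ⟨h7, _⟩
          obtain ⟨_, _, h8⟩ := T.uniq _ _ _ _ _ _ _ h7 hy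
          omega
        | succ n' =>
          have h4 := T.par_succ _ _ _ _ hy
          rw [hp] at h4
          obtain ⟨h6, h7, h8⟩ := T.uniq _ _ _ _ _ _ _ h4 hx
          subst h6 h7 h8
          rw [if_pos ⟨hy, hp⟩, if_neg, add_zero]
          rintro ⟨⟨j3, m3, _, h7⟩, _⟩
          obtain ⟨_, _, h8⟩ := T.uniq _ _ _ _ _ _ _ h7 hy
          omega
    · simp [hp]
  rw [tsum_congr hsplit, ENNReal.tsum_add, sum_path T j m n k x hx, sum_side hA T hQ j m n k x hx,
    cval_eq T _ _ _ _ _ hx]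
  obtain ⟨_, a2, a3, a4, _, _, _, _, _, _⟩ := hA
  have hc := cond T hH0 _ _ _ _ hx
  have hn := T.lt _ _ _ _ hx
  by_cases h : s j m ≤ n
  · rw [a2 _ _ _ _ _ _ (hG j) (cond_s T hH0 _ _ _ _ hx h) hn h, if_pos h]
    apply ENNReal.ofReal_add
    · split_ifs with h1
      · exact a4 _ _ _ _ _ _ (hG j) hc h1
      · exact le_rfl
    · rcases lt_or_ge k (H j) with hk | hk
      · exact ((hG j).pos k hk).le
      · exact ((hG j).zero k hk).ge
  · rw [a3 _ _ _ _ _ _ (hG j) hc hn (not_le.mp h), if_neg h, ENNReal.ofReal_zero, add_zero]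

end

end PC

theorem proofC : StmtC := by
  intro hA V adj L H s Q R p T hG hH0 hQ _
  refine ⟨?_, ?_, ?_, ?_, ?_⟩
  · intro j m n k x hx
    exact PC.cval_eq T j m n k x hx
  · intro k x hx
    exact PC.cval_zero k x hx
  · intro x
    constructor
    · intro h
      exact PC.vertex_of_ne 0 x h.ne'
    · rintro ⟨j, m, n, hx⟩
      rw [PC.cval_eq T j m n 0 x hx, ENNReal.ofReal_pos]
      obtain ⟨_, _, _, _, _, _, _, a8, _, _⟩ := hA
      exact a8 _ _ _ _ _ (hG j) (PC.cond T hH0 _ _ _ _ hx) (T.lt _ _ _ _ hx)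
  · intro k x y h1 h2 h3
    exact PC.max_prop hA T hG hH0 hQ k x y h1 h2 h3
  · intro k x
    by_cases hv : ∃ j m n, R j m n x
    · obtain ⟨j, m, n, hx⟩ := hv
      exact PC.step_vertex hA T hG hH0 hQ j m n k x hx
    · push Not at hv
      rw [PC.cval_zero (k + 1) x hv]
      symm
      rw [ENNReal.tsum_eq_zero]
      intro y
      rw [if_neg]
      rintro ⟨h1, h2⟩
      obtain ⟨j', m', n', hy⟩ := PC.vertex_of_ne k y h1
      obtain ⟨j3, m3, n3, h4⟩ := PC.par_vertex T _ _ _ _ hy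
      rw [h2] at h4
      exact hv _ _ _ h4

end PTC
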