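import Pool.Agent.R958.PTC.Dyn
import Pool.Agent.R958.PTC.PieceA
import Pool.Agent.R958.PTC.PieceC

open MeasureTheory
open scoped ENNReal unitInterval

namespace PTC

/-- the properties of the odometer of `StmtD`, bundled -/
structure Odo (d : ℕ) (Ω : Type) [MeasurableSpace Ω] (μ : Measure Ω)
    (T : (Fin d → ℤ) → Ω → Ω) (res : ℕ → Fin d → Ω → ℤ) : Prop where
  mp : ∀ x, MeasurePreserving (T x) μ μ
  T_add : ∀ x y ω, T (x + y) ω = T x (T y ω)
  T_zero : ∀ ω, T 0 ω = ω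
  res_meas : ∀ m c, Measurable (res m c)
  res_range : ∀ m c ω, 0 < m → 0 ≤ res m c ω ∧ res m c ω < (m : ℤ)
  res_T : ∀ m c x ω, 0 < m → res m c (T x ω) = (res m c ω + x c) % (m : ℤ)
  res_dvd : ∀ m m' c ω, 0 < m → 0 < m' → m ∣ m' → res m' c ω % (m : ℤ) = res m c ω
  res_unif : ∀ (m : ℕ) (c : Fin d) (a : ℤ), 0 < m → 0 ≤ a → a < (m : ℤ) →
      μ {ω | res m c ω = a} = (m : ℝ≥0∞)⁻¹

section

variable {d : ℕ} (hd : 3 ≤ d) {Ω : Type} (res : ℕ → Fin d → Ω → ℤ) (A : ℕ → ℕ)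

def gd (ω : Ω) (j : ℕ) : ℤ := res (A j) (Fin.castLE hd (dir j)) ω
def wd (ω : Ω) (j : ℕ) : ℤ := res (bb A j) (Fin.castLE hd 2) ω

/-- the base point `ω` carries a vertex -/
def RO (ω : Ω) (j m n : ℕ) : Prop :=
  IsV (fun j => (A j : ℤ)) (fun j => (bb A j : ℤ)) (gd hd res A ω) (wd hd res A ω) j m n ∧
    ∀ i : Fin d, 3 ≤ i.val → res 2 i ω = 0

/-- value at the base point at time `k` -/
noncomputable def gfun (k : ℕ) (ω : Ω) : ℝ≥0∞ :=
  open scoped Classical in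
  ∑' a : ℕ × ℕ × ℕ, if RO hd res A ω a.1 a.2.1 a.2.2 then
    ENNReal.ofReal (vv (QQ A a.1) (HH A a.1) (LL A a.1) (ss A a.1 a.2.1) a.2.2 k) else 0

/-- digit sequences of the sites of the first three coordinates -/
def GG3 (ω : Ω) (u : Fin 3 → ℤ) (j : ℕ) : ℤ :=
  (res (A j) (Fin.castLE hd (dir j)) ω + u (dir j)) % (A j : ℤ)
def WW3 (ω : Ω) (u : Fin 3 → ℤ) (j : ℕ) : ℤ :=
  (res (bb A j) (Fin.castLE hd 2) ω + u 2) % (bb A j : ℤ)

/-- relation on sites of `ℤ^d` -/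
def RS (ω : Ω) (j m n : ℕ) (x : Fin d → ℤ) : Prop :=
  IsV (fun j => (A j : ℤ)) (fun j => (bb A j : ℤ)) (GG3 hd res A ω (prj hd x))
    (WW3 hd res A ω (prj hd x)) j m n ∧ EvenRest (fun i => res 2 i ω) x

/-- parent map on sites -/
noncomputable def pS (ω : Ω) (x : Fin d → ℤ) : Fin d → ℤ :=
  rep x (pmap (fun j => (A j : ℤ)) (fun j => (bb A j : ℤ)) (GG3 hd res A ω) (WW3 hd res A ω)
    (prj hd x))

end

section

variable {d : ℕ} (hd : 3 ≤ d) {Ω : Type} [MeasurableSpace Ω] {μ : Measure Ω}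
  {T : (Fin d → ℤ) → Ω → Ω} {res : ℕ → Fin d → Ω → ℤ} {A : ℕ → ℕ}
  (ho : Odo d Ω μ T res) (hA : GoodPar A)

omit [MeasurableSpace Ω] in
lemma bb_dvd (A : ℕ → ℕ) (j : ℕ) : bb A j ∣ bb A (j + 1) := ⟨A j + 1, by show (A j + 1) * bb A j = _; ring⟩

include ho hA in
lemma addr (ω : Ω) : Addr (fun j => (A j : ℤ)) (fun j => (bb A j : ℤ)) (GG3 hd res A ω)
    (WW3 hd res A ω) := by
  have hA0 : ∀ j, 0 < A j := fun j => by have := hA.e1 j; omega
  have hb0 : ∀ j, 0 < bb A j := fun j => by have := bb_two A j; omega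
  have hA0' : ∀ j, (0 : ℤ) < A j := fun j => by exact_mod_cast hA0 j
  have hb0' : ∀ j, (0 : ℤ) < bb A j := fun j => by exact_mod_cast hb0 j
  constructor
  · intro j; have := hA.e1 j; show (5 : ℤ) ≤ (A j : ℤ); omega
  · intro j; exact_mod_cast hA.e2 j
  · rfl
  · intro j; show ((((A j + 1) * bb A j : ℕ)) : ℤ) = _; push_cast; ring
  · intro x j; exact Int.emod_nonneg _ (hA0' j).ne'
  · intro x j; exact Int.emod_lt_of_pos _ (hA0' j)
  · intro x j; exact Int.emod_nonneg _ (hb0' j).ne'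
  · intro x j; exact Int.emod_lt_of_pos _ (hb0' j)
  · intro x j
    show ((res (A (j + 2)) (Fin.castLE hd (dir (j + 2))) ω + x (dir (j + 2))) % (A (j + 2) : ℤ))
      % (A j : ℤ) = (res (A j) (Fin.castLE hd (dir j)) ω + x (dir j)) % (A j : ℤ)
    rw [Int.emod_emod_of_dvd _ (by exact_mod_cast hA.e2 j), dir_two, Int.add_emod,
      ho.res_dvd (A j) (A (j + 2)) _ ω (hA0 _) (hA0 _) (hA.e2 j)]
    rw [Int.add_emod (res (A j) (Fin.castLE hd (dir j)) ω),
      Int.emod_eq_of_lt (ho.res_range _ _ _ (hA0 j)).1 (ho.res_range _ _ _ (hA0 j)).2]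
    simp
  · intro x j
    show ((res (bb A (j + 1)) (Fin.castLE hd 2) ω + x 2) % (bb A (j + 1) : ℤ))
      % (bb A j : ℤ) = (res (bb A j) (Fin.castLE hd 2) ω + x 2) % (bb A j : ℤ)
    rw [Int.emod_emod_of_dvd _ (by exact_mod_cast bb_dvd A j), Int.add_emod,
      ho.res_dvd (bb A j) (bb A (j + 1)) _ ω (hb0 _) (hb0 _) (bb_dvd A j)]
    rw [Int.add_emod (res (bb A j) (Fin.castLE hd 2) ω),
      Int.emod_eq_of_lt (ho.res_range _ _ _ (hb0 j)).1 (ho.res_range _ _ _ (hb0 j)).2]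
    simp
  · intro x z j
    show (res (A j) (Fin.castLE hd (dir j)) ω + (x + z) (dir j)) % (A j : ℤ) =
      ((res (A j) (Fin.castLE hd (dir j)) ω + x (dir j)) % (A j : ℤ) + z (dir j)) % (A j : ℤ)
    rw [Int.emod_add_emod, Pi.add_apply, add_assoc]
  · intro x z j
    show (res (bb A j) (Fin.castLE hd 2) ω + (x + z) 2) % (bb A j : ℤ) =
      ((res (bb A j) (Fin.castLE hd 2) ω + x 2) % (bb A j : ℤ) + z 2) % (bb A j : ℤ)
    rw [Int.emod_add_emod, Pi.add_apply, add_assoc]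

include ho hA in
lemma treeSys (ω : Ω) : TreeSys (latticeGraph d).Adj (LL A) (HH A) (ss A)
    (RS hd res A ω) (pS hd res A ω) :=
  lift_treeSys hd (proofB A _ _ (addr hd ho hA ω) hA.e3) (fun i => res 2 i ω)

include ho hA in
lemma RO_iff (ω : Ω) (x : Fin d → ℤ) (j m n : ℕ) :
    RO hd res A (T x ω) j m n ↔ RS hd res A ω j m n x := by
  have hA0 : ∀ j, 0 < A j := fun j => by have := hA.e1 j; omega
  have hb0 : ∀ j, 0 < bb A j := fun j => by have := bb_two A j; omega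
  have h1 : gd hd res A (T x ω) = GG3 hd res A ω (prj hd x) := by
    funext l; exact ho.res_T _ _ _ _ (hA0 l)
  have h2 : wd hd res A (T x ω) = WW3 hd res A ω (prj hd x) := by
    funext l; exact ho.res_T _ _ _ _ (hb0 l)
  unfold RO RS
  rw [h1, h2]
  have h3 : (∀ i : Fin d, 3 ≤ i.val → res 2 i (T x ω) = 0) ↔ EvenRest (fun i => res 2 i ω) x := by
    unfold EvenRest
    refine forall_congr' fun i => forall_congr' fun _ => ?_
    rw [ho.res_T 2 i x ω (by norm_num)]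
    norm_num
  rw [h3]

include ho hA in
lemma gfun_eq (k : ℕ) (ω : Ω) (x : Fin d → ℤ) :
    gfun hd res A k (T x ω) = cval (LL A) (HH A) (ss A) (QQ A) (RS hd res A ω) k x := by
  unfold gfun cval
  refine tsum_congr fun a => ?_
  have := RO_iff hd ho hA ω x a.1 a.2.1 a.2.2
  by_cases h : RO hd res A (T x ω) a.1 a.2.1 a.2.2
  · rw [if_pos h, if_pos (this.1 h)]
  · rw [if_neg h, if_neg (fun h' => h (this.2 h'))]

include hA in
lemma good_all (j : ℕ) : Good (QQ A j) (HH A j) := by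
  induction j with
  | zero => exact ⟨fun k hk => absurd hk (Nat.not_lt_zero k), fun k _ => rfl,
      fun k hk => absurd hk (Nat.not_lt_zero _)⟩
  | succ j ih =>
      have : 0 < LL A j := by have := hA.e1 (j + 1); unfold LL; omega
      exact proofA.1 (QQ A j) (HH A j) (LL A j) ih this

/-- everything from piece C -/
theorem fromC (ω : Ω) (ho : Odo d Ω μ T res) (hA : GoodPar A) :
    (∀ j m n k x, RS hd res A ω j m n x →
      cval (LL A) (HH A) (ss A) (QQ A) (RS hd res A ω) k x =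
        ENNReal.ofReal (vv (QQ A j) (HH A j) (LL A j) (ss A j m) n k)) ∧
    (∀ k x, (∀ j m n, ¬ RS hd res A ω j m n x) →
      cval (LL A) (HH A) (ss A) (QQ A) (RS hd res A ω) k x = 0) ∧
    (∀ x, 0 < cval (LL A) (HH A) (ss A) (QQ A) (RS hd res A ω) 0 x ↔
      ∃ j m n, RS hd res A ω j m n x) ∧
    (∀ k x y, 0 < cval (LL A) (HH A) (ss A) (QQ A) (RS hd res A ω) k x →
      (y = x ∨ (latticeGraph d).Adj x y) → y ≠ pS hd res A ω x →
      cval (LL A) (HH A) (ss A) (QQ A) (RS hd res A ω) k y <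
        cval (LL A) (HH A) (ss A) (QQ A) (RS hd res A ω) k (pS hd res A ω x)) ∧
    (∀ k x, cval (LL A) (HH A) (ss A) (QQ A) (RS hd res A ω) (k + 1) x =
      open scoped Classical in
      ∑' y, if cval (LL A) (HH A) (ss A) (QQ A) (RS hd res A ω) k y ≠ 0 ∧
          pS hd res A ω y = x then
        cval (LL A) (HH A) (ss A) (QQ A) (RS hd res A ω) k y else 0) := by
  obtain ⟨c1, c2, c3, c4, c5⟩ :=
    proofC proofA (Fin d → ℤ) (latticeGraph d).Adj (LL A) (HH A) (ss A) (QQ A)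
      (RS hd res A ω) (pS hd res A ω) (treeSys hd ho hA ω) (good_all hA) rfl (fun _ => rfl)
      (fun _ => rfl)
  refine ⟨c1, c2, c3, c4, fun k x => ?_⟩
  refine (c5 k x).trans (tsum_congr fun y => ?_)
  by_cases h : cval (LL A) (HH A) (ss A) (QQ A) (RS hd res A ω) k y ≠ 0 ∧ pS hd res A ω y = x
  · rw [if_pos h, if_pos h]
  · rw [if_neg h, if_neg h]

/-- the run -/
theorem run_main (ω : Ω) (ho : Odo d Ω μ T res) (hA : GoodPar A) (u : ℕ × (Fin d → ℤ) → I) (n : ℕ) :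
    run (fun x => gfun hd res A 0 (T x ω)) u n = fun x => gfun hd res A n (T x ω) := by
  obtain ⟨c1, c2, c3, c4, c5⟩ := fromC hd ω ho hA
  have hS := treeSys hd ho hA ω
  have hv : ∀ k x, 0 < cval (LL A) (HH A) (ss A) (QQ A) (RS hd res A ω) k x →
      ∃ j m n, RS hd res A ω j m n x := by
    intro k x hx
    by_contra hcon
    push Not at hcon
    rw [c2 k x hcon] at hx
    exact lt_irrefl _ hx
  have := run_eq (fun k x => cval (LL A) (HH A) (ss A) (QQ A) (RS hd res A ω) k x)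
    (pS hd res A ω)
    (fun k x hx => by
      obtain ⟨j, m, n, hR⟩ := hv k x hx
      exact mem_nbhd.mpr (Or.inr (hS.par_adj _ _ _ _ hR).1))
    (fun k x hx y hy hne => c4 k x y hx (mem_nbhd.mp hy) hne)
    c5 u n
  simp only [gfun_eq hd ho hA]
  exact this

lemma max_main (ω : Ω) (ho : Odo d Ω μ T res) (hA : GoodPar A) (k : ℕ) (x : Fin d → ℤ)
    (hx : 0 < gfun hd res A k (T x ω)) (y : Fin d → ℤ) (hy : y ∈ nbhd x)
    (hne : y ≠ pS hd res A ω x) :
    gfun hd res A k (T y ω) < gfun hd res A k (T (pS hd res A ω x) ω) := by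
  obtain ⟨c1, c2, c3, c4, c5⟩ := fromC hd ω ho hA
  simp only [gfun_eq hd ho hA] at hx ⊢
  exact c4 k x y hx (mem_nbhd.mp hy) hne

lemma vert_main (ω : Ω) (ho : Odo d Ω μ T res) (hA : GoodPar A) (k : ℕ) (x : Fin d → ℤ)
    (hx : 0 < gfun hd res A k (T x ω)) : ∃ j m n, RS hd res A ω j m n x := by
  obtain ⟨c1, c2, c3, c4, c5⟩ := fromC hd ω ho hA
  rw [gfun_eq hd ho hA] at hx
  by_contra hcon
  push Not at hcon
  rw [c2 k x hcon] at hx
  exact lt_irrefl _ hx

lemma pos_iff_main (ω : Ω) (ho : Odo d Ω μ T res) (hA : GoodPar A) (x : Fin d → ℤ) :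
    0 < gfun hd res A 0 (T x ω) ↔ ∃ j m n, RS hd res A ω j m n x := by
  obtain ⟨c1, c2, c3, c4, c5⟩ := fromC hd ω ho hA
  rw [gfun_eq hd ho hA]
  exact c3 x

/-- the forest and the dynamics, for every `ω` and every choice of the random numbers -/
theorem det_main (ω : Ω) (ho : Odo d Ω μ T res) (hA : GoodPar A) :
    OneEndedForest (forestOf (fun x => gfun hd res A 0 (T x ω))) ∧
    ∀ (u : ℕ × (Fin d → ℤ) → I) n x, 0 < run (fun x => gfun hd res A 0 (T x ω)) u n x →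
      IsParent (forestOf (fun x => gfun hd res A 0 (T x ω))) x
        (act (run (fun x => gfun hd res A 0 (T x ω)) u n) (fun z => u (n, z)) x) := by
  have hS := treeSys hd ho hA ω
  obtain ⟨f1, f2⟩ := forest_main hS (fun x => gfun hd res A 0 (T x ω))
    (fun x => pos_iff_main hd ω ho hA x)
    (fun x hx y hy hne => max_main hd ω ho hA 0 x hx y hy hne)
  refine ⟨f1, ?_⟩
  intro u n x hx
  rw [run_main hd ω ho hA] at hx ⊢
  obtain ⟨j, m, i, hR⟩ := vert_main hd ω ho hA n x hx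
  rw [act_eq (fun z => u (n, z)) hx.ne' (mem_nbhd.mpr (Or.inr (hS.par_adj _ _ _ _ hR).1))
    (fun y hy hne => max_main hd ω ho hA n x hx y hy hne)]
  exact f2 x ((pos_iff_main hd ω ho hA x).2 ⟨j, m, i, hR⟩)

end

end PTC
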