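import Mathlib

/-!
Common definitions for the disproof of MP_81329c_pr (parent-transfer clustering dynamics on
forests with finite mean).  All statements of the pieces are in `Stmts.lean`.
-/

open MeasureTheory
open scoped ENNReal

namespace PTC

/-! ## Profiles (piece A) -/

/-- partial sums `G(k) = ∑_{u<k} Q u` -/
noncomputable def GG (Q : ℕ → ℝ) (k : ℕ) : ℝ := ∑ u ∈ Finset.range k, Q u

/-- the next profile: `L` is the number of indices of the level, `H` the number of positive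
entries of `Q` -/
noncomputable def nextP (Q : ℕ → ℝ) (H L : ℕ) (n : ℕ) : ℝ :=
  (if n < L then Q 0 + 2 - (n : ℝ) / (L : ℝ) else 0) + GG Q H - GG Q (n - L)

/-- value at time `k` of a vertex of index `n < L`, whose side children start at index `s` -/
noncomputable def vv (Q : ℕ → ℝ) (H L s n k : ℕ) : ℝ :=
  if n < s then nextP Q H L (n + k)
  else if n + k < L then
    (Q 0 + 2 - ((n + k : ℕ) : ℝ) / (L : ℝ)) + GG Q H - GG Q (n + k - s) + GG Q k
  else GG Q k - GG Q (n + k - L)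

/-- `Q` is positive exactly on `[0,H)` and strictly decreasing there -/
structure Good (Q : ℕ → ℝ) (H : ℕ) : Prop where
  pos : ∀ k, k < H → 0 < Q k
  zero : ∀ k, H ≤ k → Q k = 0
  anti : ∀ k, k + 1 < H → Q (k + 1) < Q k

/-! ## Abstract tree system (pieces C and F) -/

/-- `R j m n x` reads: x is a vertex of level j, with anchor m and index n; `p` is the parent
map; `L j` the number of indices on level `j`; `s j m` the index from which side children exist. -/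
structure TreeSys {V : Type} (adj : V → V → Prop) (L : ℕ → ℕ) (H : ℕ → ℕ) (s : ℕ → ℕ → ℕ)
    (R : ℕ → ℕ → ℕ → V → Prop) (p : V → V) : Prop where
  uniq : ∀ j m n j' m' n' x, R j m n x → R j' m' n' x → j = j' ∧ m = m' ∧ n = n'
  lt : ∀ j m n x, R j m n x → n < L j
  par_adj : ∀ j m n x, R j m n x → adj x (p x) ∧ p x ≠ x
  par_succ : ∀ j m n x, R j m (n + 1) x → R j m n (p x)
  par_zero : ∀ j m x, R j m 0 x → ∃ m' n', R (j + 1) m' n' (p x) ∧ s (j + 1) m' ≤ n'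
  classify : ∀ j m n j' m' n' x y, R j m n x → R j' m' n' y → adj x y →
    y = p x ∨ x = p y ∨ (j = j' ∧ n = n' ∧ n < s j m ∧ n < s j m')
  child_exists : ∀ j m n x, R j m n x → n + 1 < L j → ∃ y, R j m (n + 1) y ∧ p y = x
  child_unique : ∀ j m n x y z, R j m n x → R j m (n + 1) y → R j m (n + 1) z →
    p y = x → p z = x → y = z
  side_exists : ∀ j m n x, R (j + 1) m n x → s (j + 1) m ≤ n → ∃ m' y, R j m' 0 y ∧ p y = x
  side_unique : ∀ j m m' x y z, R j m 0 y → R j m' 0 z → p y = x → p z = x → y = z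
  s_pos : ∀ j m, 0 < s j m
  s_bound : ∀ j m n x, R (j + 1) m n x → s (j + 1) m + H (j + 1) < L (j + 1)
  s_zero : ∀ m, L 0 ≤ s 0 m

/-- The value at time `k` at the site `x`. -/
noncomputable def cval {V : Type} (L : ℕ → ℕ) (H : ℕ → ℕ) (s : ℕ → ℕ → ℕ) (Q : ℕ → ℕ → ℝ)
    (R : ℕ → ℕ → ℕ → V → Prop) (k : ℕ) (x : V) : ℝ≥0∞ :=
  open scoped Classical in
  ∑' a : ℕ × ℕ × ℕ, if R a.1 a.2.1 a.2.2 x then
    ENNReal.ofReal (vv (Q a.1) (H a.1) (L a.1) (s a.1 a.2.1) a.2.2 k) else 0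

/-! ## Parameters -/

/-- `b_0 = 2`, `b_{j+1} = (A_j + 1) b_j`. -/
def bb (A : ℕ → ℕ) : ℕ → ℕ
  | 0 => 2
  | j + 1 => (A j + 1) * bb A j

/-- number of indices on level `j` (indices are `0, …, A_{j+1} - 2`) -/
def LL (A : ℕ → ℕ) (j : ℕ) : ℕ := A (j + 1) - 1

def HH (A : ℕ → ℕ) : ℕ → ℕ
  | 0 => 0
  | j + 1 => LL A j + HH A j

/-- `QQ A j` is the profile of level `j - 1` (zero for `j = 0`). -/
noncomputable def QQ (A : ℕ → ℕ) : ℕ → ℕ → ℝ
  | 0 => fun _ => 0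
  | j + 1 => nextP (QQ A j) (HH A j) (LL A j)

/-- `|m - 1|` for naturals -/
def ab1 (m : ℕ) : ℕ := (m - 1) + (1 - m)

/-- the index from which side children exist: `A_{j-1} + (m+1) b_j - 2 + |m-1|` on level `j ≥ 1` -/
def ss (A : ℕ → ℕ) : ℕ → ℕ → ℕ
  | 0, _ => LL A 0 + 1
  | j + 1, m => A j + ((m + 1) * bb A (j + 1) - 2) + ab1 m

/-! ## Geometry (piece B)

A site `x : Fin 3 → ℤ` has digit sequences `g = G x : ℕ → ℤ`, `w = W x : ℕ → ℤ`, where
`G x j` is the `A_j`-residue of the coordinate `dir j` and `W x j` the `b_j`-residue of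
coordinate `2`. -/

/-- horizontal direction used by level `j` -/
def dir (j : ℕ) : Fin 3 := if j % 2 = 0 then 0 else 1

/-- `σ_k(m) = (m+1) b_k - 2 + |m-1|` -/
def sg (b : ℕ → ℤ) (k : ℕ) (m : ℤ) : ℤ := (m + 1) * b k - 2 + max (m - 1) (1 - m)

/-- level `l` digits are admissible and the attachment of the level `l` path to level `l+1` fits. -/
def upOK (A b g w : ℕ → ℤ) (l : ℕ) : Prop :=
  1 ≤ w (l + 1) / b l ∧ 1 ≤ g (l + 2) / A l ∧
    A l * (g (l + 2) / A l) + (w (l + 1) / b l - 1)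
      + sg b (l + 1) (w (l + 2) / b (l + 1) - 1) ≤ A (l + 2) - 2

/-- the level `j` pattern: anchor `m`, index `n` -/
def pat (A b g w : ℕ → ℤ) (j : ℕ) (m n : ℤ) : Prop :=
  (g (j + 1) = 1 ∧ 1 ≤ w (j + 1) ∧ w (j + 1) ≤ (m + 1) * b j ∧ m = g j ∧ n = w (j + 1) - 1) ∨
  (g (j + 1) = 2 ∧ w (j + 1) = (m + 1) * b j ∧ m = g j ∧ n = w (j + 1)) ∨
  (g (j + 1) = 3 ∧ w (j + 1) = (m + 1) * b j ∧ ((1 ≤ g j ∧ g j ≤ m) ∨ (m ≤ g j ∧ g j ≤ 1)) ∧
    n = w (j + 1) + 1 + max (m - g j) (g j - m)) ∨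
  (4 ≤ g (j + 1) ∧ w (j + 1) = (m + 1) * b j ∧ g j = 1 ∧
    n = w (j + 1) + 1 + max (m - 1) (1 - m) + (g (j + 1) - 3))

/-- alive vertex of level `j`, anchor `m`, index `n`, in terms of the digit sequences `g, w`. -/
def IsV (A b g w : ℕ → ℤ) (j m n : ℕ) : Prop :=
  1 ≤ g (j + 2) / A j ∧ pat A b g w j m n ∧ (n : ℤ) ≤ A (j + 1) - 2 ∧
  A j * (g (j + 2) / A j) + m + sg b (j + 1) (w (j + 2) / b (j + 1) - 1) ≤ A (j + 2) - 2 ∧
  ∀ l, j + 1 ≤ l → upOK A b g w l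

/-- parent of a level `j` vertex with anchor `m` -/
def parV (g : ℕ → ℤ) (j : ℕ) (m : ℤ) (x : Fin 3 → ℤ) : Fin 3 → ℤ :=
  if g (j + 1) = 1 then x - Pi.single 2 1
  else if g (j + 1) = 3 ∧ g j < m then x + Pi.single (dir j) 1
  else if g (j + 1) = 3 ∧ m < g j then x - Pi.single (dir j) 1
  else x - Pi.single (dir (j + 1)) 1

/-- the address system -/
structure Addr (A b : ℕ → ℤ) (G W : (Fin 3 → ℤ) → ℕ → ℤ) : Prop where
  hA : ∀ j, 5 ≤ A j
  hdvd : ∀ j, A j ∣ A (j + 2)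
  hb0 : b 0 = 2
  hb : ∀ j, b (j + 1) = (A j + 1) * b j
  G_nonneg : ∀ x j, 0 ≤ G x j
  G_lt : ∀ x j, G x j < A j
  W_nonneg : ∀ x j, 0 ≤ W x j
  W_lt : ∀ x j, W x j < b j
  G_mod : ∀ x j, G x (j + 2) % A j = G x j
  W_mod : ∀ x j, W x (j + 1) % b j = W x j
  G_add : ∀ x z j, G (x + z) j = (G x j + z (dir j)) % A j
  W_add : ∀ x z j, W (x + z) j = (W x j + z 2) % b j

/-- lattice adjacency in `ℤ^3` -/
def adj3 (x y : Fin 3 → ℤ) : Prop := ∑ i, |x i - y i| = 1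

/-- global parent map -/
noncomputable def pmap (A b : ℕ → ℤ) (G W : (Fin 3 → ℤ) → ℕ → ℤ) (x : Fin 3 → ℤ) : Fin 3 → ℤ :=
  open scoped Classical in
  if h : ∃ a : ℕ × ℕ × ℕ, IsV A b (G x) (W x) a.1 a.2.1 a.2.2 then
    parV (G x) h.choose.1 h.choose.2.1 x else x

end PTC
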