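import Pool.Agent.R958.PTC.Stmts

/-!
Piece F of the project PTC (MP_81329c_pr): forests from rank functions (helper608).
-/

set_option autoImplicit false

namespace PTC

namespace PieceF

lemma exists_min_rank {ι : Type*} (f : ι → ℕ ×ₗ ℕ) (s : Set ι) (hs : s.Nonempty) :
    ∃ i ∈ s, ∀ j ∈ s, ¬ f j < f i := by
  have hwf : WellFounded ((· < ·) : (ℕ ×ₗ ℕ) → (ℕ ×ₗ ℕ) → Prop) := wellFounded_lt
  obtain ⟨a, ⟨i, hi, rfl⟩, ha⟩ := hwf.has_min (f '' s) (hs.image f)
  exact ⟨i, hi, fun j hj => ha (f j) ⟨j, hj, rfl⟩⟩

end PieceF

open PieceF in
theorem proofF : StmtF := by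
  intro V S p r hp F hF
  have hrank : ∀ x y, F.Adj x y → ¬ r y < r x → y = p x := by
    intro x y hxy hr
    obtain ⟨hx, hy, h | h⟩ := (hF x y).1 hxy
    · exact h
    · exfalso
      apply hr
      rw [h]
      exact (hp y hy).2
  refine ⟨?_, ?_⟩
  · intro v c hc
    classical
    obtain ⟨u, hu, hmin⟩ := exists_min_rank r {w | w ∈ c.support} ⟨v, c.start_mem_support⟩
    replace hu : u ∈ c.support := hu
    have hc' := hc.rotate hu
    have hsup : ∀ w, w ∈ (c.rotate u hu).support → w ∈ c.support := by
      intro w hw
      rwa [SimpleGraph.Walk.mem_support_rotate_iff] at hw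
    have hnn : ¬ (c.rotate u hu).Nil := hc'.not_nil
    have h1 : F.Adj u (c.rotate u hu).snd := SimpleGraph.Walk.adj_snd hnn
    have h2 : F.Adj (c.rotate u hu).penultimate u := SimpleGraph.Walk.adj_penultimate hnn
    have h3 := hrank _ _ h1 (hmin _ (hsup _ (SimpleGraph.Walk.getVert_mem_support _ _)))
    have h4 := hrank _ _ h2.symm (hmin _ (hsup _ (SimpleGraph.Walk.getVert_mem_support _ _)))
    exact hc'.snd_ne_penultimate (h3.trans h4.symm)
  · intro x hx
    have hS : ∀ n, p^[n] x ∈ S := by
      intro n
      induction n with
      | zero => exact hx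
      | succ n ih =>
        rw [Function.iterate_succ_apply']
        exact (hp _ ih).1
    have hmono : StrictMono fun n => r (p^[n] x) := by
      refine strictMono_nat_of_lt_succ fun n => ?_
      rw [Function.iterate_succ_apply']
      exact (hp _ (hS n)).2
    refine ⟨fun n => p^[n] x, ⟨rfl, ?_, ?_⟩, rfl, ?_⟩
    · intro a b hab
      exact hmono.injective (congrArg r hab)
    · intro n
      rw [hF]
      exact ⟨hS n, hS (n + 1), Or.inl (Function.iterate_succ_apply' p n x)⟩
    · intro γ h0 hinj hadj
      have hstep : ∀ n, γ (n + 1) = p (γ n) := by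
        intro n
        by_contra hne
        have hdown : ∀ k, γ (n + k) = p (γ (n + k + 1)) := by
          intro k
          induction k with
          | zero =>
            rcases ((hF _ _).1 (hadj n)).2.2 with h | h
            · exact absurd h hne
            · exact h
          | succ k ih =>
            rcases ((hF _ _).1 (hadj (n + k + 1))).2.2 with h | h
            · exfalso
              rw [← ih] at h
              have := hinj h
              omega
            · exact h
        obtain ⟨k, -, hk⟩ := exists_min_rank (fun k => r (γ (n + k))) Set.univ ⟨0, trivial⟩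
        apply hk (k + 1) trivial
        have hmem : γ (n + k + 1) ∈ S := ((hF _ _).1 (hadj (n + k))).2.1
        have := (hp _ hmem).2
        rw [← hdown k] at this
        exact this
      funext n
      induction n with
      | zero => exact h0
      | succ n ih =>
        rw [hstep n, ih]
        exact (Function.iterate_succ_apply' p n x).symm

end PTC
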