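import Pool.Agent.R958.PTC.Lift
import Pool.Agent.R958.PTC.PieceF

open MeasureTheory
open scoped ENNReal unitInterval

namespace PTC

variable {d : ℕ}

lemma mem_nbhd {x y : Fin d → ℤ} : y ∈ nbhd x ↔ y = x ∨ (latticeGraph d).Adj x y := by
  have hsum0 : 0 ≤ ∑ i, |x i - y i| := Finset.sum_nonneg (fun i _ => abs_nonneg _)
  have hle : ∀ i, |x i - y i| ≤ ∑ i, |x i - y i| := fun i =>
    Finset.single_le_sum (f := fun i => |x i - y i|) (fun i _ => abs_nonneg _) (Finset.mem_univ i)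
  unfold nbhd
  rw [Finset.mem_filter]
  show _ ↔ _ ∨ ∑ i, |x i - y i| = 1
  constructor
  · rintro ⟨-, h⟩
    rcases (by omega : ∑ i, |x i - y i| = 0 ∨ ∑ i, |x i - y i| = 1) with h0 | h1
    · left
      funext i
      have := hle i
      rw [h0] at this
      have h2 := abs_nonneg (x i - y i)
      have h3 : |x i - y i| = 0 := le_antisymm this h2
      have := abs_eq_zero.mp h3
      omega
    · exact Or.inr h1
  · intro h
    have hs : ∑ i, |x i - y i| ≤ 1 := by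
      rcases h with rfl | h
      · simp
      · omega
    refine ⟨?_, hs⟩
    rw [Finset.mem_Icc]
    constructor
    · intro i
      have := hle i
      simp only [Pi.sub_apply, Pi.one_apply]
      rcases abs_cases (x i - y i) with h | h <;> omega
    · intro i
      have := hle i
      simp only [Pi.add_apply, Pi.one_apply]
      rcases abs_cases (x i - y i) with h | h <;> omega

lemma maxSet_eq {C : (Fin d → ℤ) → ℝ≥0∞} {x z : Fin d → ℤ} (hz : z ∈ nbhd x)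
    (h : ∀ y ∈ nbhd x, y ≠ z → C y < C z) : maxSet C x = {z} := by
  classical
  unfold maxSet
  ext y
  rw [Finset.mem_filter, Finset.mem_singleton]
  constructor
  · rintro ⟨h1, h2⟩
    by_contra hne
    exact absurd (h2 z hz) (not_le.mpr (h y h1 hne))
  · rintro rfl
    refine ⟨hz, fun w hw => ?_⟩
    by_cases hwy : w = y
    · rw [hwy]
    · exact (h w hw hwy).le

lemma pick_singleton {V : Type} (z x : V) (u : I) : pick {z} u x = z := by
  unfold pick
  simp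

lemma act_eq {C : (Fin d → ℤ) → ℝ≥0∞} {x z : Fin d → ℤ} (u : (Fin d → ℤ) → I) (hx : C x ≠ 0)
    (hz : z ∈ nbhd x) (h : ∀ y ∈ nbhd x, y ≠ z → C y < C z) : act C u x = z := by
  unfold act
  rw [if_neg hx, maxSet_eq hz h, pick_singleton]

/-- the dynamics follows the parent map, for every choice of the random numbers -/
theorem run_eq (C : ℕ → (Fin d → ℤ) → ℝ≥0∞) (p : (Fin d → ℤ) → (Fin d → ℤ))
    (hmem : ∀ k x, 0 < C k x → p x ∈ nbhd x)
    (hmax : ∀ k x, 0 < C k x → ∀ y ∈ nbhd x, y ≠ p x → C k y < C k (p x))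
    (hstep : ∀ k x, C (k + 1) x =
      open scoped Classical in ∑' y, if C k y ≠ 0 ∧ p y = x then C k y else 0)
    (u : ℕ × (Fin d → ℤ) → I) : ∀ n, run (C 0) u n = C n := by
  intro n
  induction n with
  | zero => rfl
  | succ n ih =>
      funext x
      show (∑' y, open scoped Classical in
        if act (run (C 0) u n) (fun z => u (n, z)) y = x then run (C 0) u n y else 0) = _
      rw [ih, hstep]
      congr 1
      funext y
      by_cases hy : C n y = 0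
      · simp [hy]
      · have hpos : 0 < C n y := pos_iff_ne_zero.mpr hy
        rw [act_eq (fun z => u (n, z)) hy (hmem n y hpos) (hmax n y hpos)]
        simp [hy]

/-- the forest of a configuration: join `x` to the unique strict maximiser of its neighbourhood -/
def forestOf (C : (Fin d → ℤ) → ℝ≥0∞) : (latticeGraph d).Subgraph where
  verts := {x | 0 < C x}
  Adj x y := 0 < C x ∧ 0 < C y ∧ (latticeGraph d).Adj x y ∧
    ((∀ z ∈ nbhd x, z ≠ y → C z < C y) ∨ (∀ z ∈ nbhd y, z ≠ x → C z < C x))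
  adj_sub := fun h => h.2.2.1
  edge_vert := fun h => h.1
  symm := ⟨fun _ _ h => ⟨h.2.1, h.1, h.2.2.1.symm, h.2.2.2.symm⟩⟩

lemma forestOf_adj {C : (Fin d → ℤ) → ℝ≥0∞} {p : (Fin d → ℤ) → (Fin d → ℤ)}
    (hp : ∀ x, 0 < C x → (latticeGraph d).Adj x (p x))
    (hmax : ∀ x, 0 < C x → ∀ y ∈ nbhd x, y ≠ p x → C y < C (p x)) (x y : Fin d → ℤ) :
    (forestOf C).Adj x y ↔ 0 < C x ∧ 0 < C y ∧ (y = p x ∨ x = p y) := by
  have key : ∀ x y, 0 < C x → (latticeGraph d).Adj x y → (∀ z ∈ nbhd x, z ≠ y → C z < C y) →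
      y = p x := by
    intro x y hx hxy hz
    by_contra hne
    have h1 := hz (p x) (mem_nbhd.mpr (Or.inr (hp x hx))) (Ne.symm hne)
    have h2 := hmax x hx y (mem_nbhd.mpr (Or.inr hxy)) hne
    exact absurd h1 (not_lt.mpr h2.le)
  constructor
  · rintro ⟨hx, hy, hxy, h | h⟩
    · exact ⟨hx, hy, Or.inl (key x y hx hxy h)⟩
    · exact ⟨hx, hy, Or.inr (key y x hy hxy.symm h)⟩
  · rintro ⟨hx, hy, rfl | rfl⟩
    · exact ⟨hx, hy, hp x hx, Or.inl (hmax x hx)⟩
    · exact ⟨hx, hy, (hp y hy).symm, Or.inr (hmax y hy)⟩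

theorem forest_main {L H : ℕ → ℕ} {s : ℕ → ℕ → ℕ} {R : ℕ → ℕ → ℕ → (Fin d → ℤ) → Prop}
    {p : (Fin d → ℤ) → (Fin d → ℤ)} (h : TreeSys (latticeGraph d).Adj L H s R p)
    (C : (Fin d → ℤ) → ℝ≥0∞) (hC : ∀ x, 0 < C x ↔ ∃ j m n, R j m n x)
    (hmax : ∀ x, 0 < C x → ∀ y ∈ nbhd x, y ≠ p x → C y < C (p x)) :
    OneEndedForest (forestOf C) ∧ ∀ x, 0 < C x → IsParent (forestOf C) x (p x) := by
  classical
  have hpadj : ∀ x, 0 < C x → (latticeGraph d).Adj x (p x) := by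
    intro x hx
    obtain ⟨j, m, n, hR⟩ := (hC x).1 hx
    exact (h.par_adj _ _ _ _ hR).1
  have hex : ∀ x, 0 < C x → ∃ a : ℕ × ℕ × ℕ, R a.1 a.2.1 a.2.2 x := by
    intro x hx
    obtain ⟨j, m, n, hR⟩ := (hC x).1 hx
    exact ⟨(j, m, n), hR⟩
  let r : (Fin d → ℤ) → ℕ ×ₗ ℕ := fun x =>
    if hx : ∃ a : ℕ × ℕ × ℕ, R a.1 a.2.1 a.2.2 x then
      toLex (hx.choose.1, L hx.choose.1 - hx.choose.2.2) else toLex (0, 0)
  have hr : ∀ j m n x, R j m n x → r x = toLex (j, L j - n) := by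
    intro j m n x hR
    have hx : ∃ a : ℕ × ℕ × ℕ, R a.1 a.2.1 a.2.2 x := ⟨(j, m, n), hR⟩
    have e := h.uniq _ _ _ _ _ _ _ hR hx.choose_spec
    show (if hx : ∃ a : ℕ × ℕ × ℕ, R a.1 a.2.1 a.2.2 x then
      toLex (hx.choose.1, L hx.choose.1 - hx.choose.2.2) else toLex (0, 0)) = _
    rw [dif_pos hx, ← e.1, ← e.2.2]
  have hrank : ∀ x ∈ {x | 0 < C x}, p x ∈ {x | 0 < C x} ∧ r x < r (p x) := by
    intro x hx
    obtain ⟨j, m, n, hR⟩ := (hC x).1 hx
    cases n with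
    | zero =>
        obtain ⟨m', n', h1, -⟩ := h.par_zero _ _ _ hR
        refine ⟨(hC _).2 ⟨_, _, _, h1⟩, ?_⟩
        rw [hr _ _ _ _ hR, hr _ _ _ _ h1, Prod.Lex.toLex_lt_toLex]
        left; exact Nat.lt_succ_self j
    | succ n =>
        have h1 := h.par_succ _ _ _ _ hR
        refine ⟨(hC _).2 ⟨_, _, _, h1⟩, ?_⟩
        have hlt := h.lt _ _ _ _ hR
        rw [hr _ _ _ _ hR, hr _ _ _ _ h1, Prod.Lex.toLex_lt_toLex]
        right; exact ⟨rfl, by simp only; omega⟩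
  have hadj := forestOf_adj hpadj hmax
  obtain ⟨hac, hray⟩ := proofF (Fin d → ℤ) {x | 0 < C x} p r hrank (forestOf C).spanningCoe
    (fun x y => by rw [SimpleGraph.Subgraph.spanningCoe_adj, hadj]; rfl)
  refine ⟨⟨hac, ?_⟩, ?_⟩
  · intro x hx
    obtain ⟨γ, ⟨g1, g2, g3⟩, -, g4⟩ := hray x hx
    refine ⟨γ, ⟨g1, g2, g3⟩, ?_⟩
    rintro γ' ⟨e1, e2, e3⟩
    exact g4 γ' e1 e2 e3
  · intro x hx
    obtain ⟨γ, ⟨g1, g2, g3⟩, g5, -⟩ := hray x hx
    exact ⟨γ, ⟨g1, g2, g3⟩, g5⟩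

end PTC
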