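import Pool.Agent.R958.PTC.Pos

open MeasureTheory Filter
open scoped ENNReal unitInterval

namespace PTC

lemma vv_eventually_zero {Q : ℕ → ℝ} {H L s n k : ℕ} (hg : Good Q H) (hk : L + H ≤ k) :
    vv Q H L s n k = 0 := by
  have hc : ∀ k, H ≤ k → GG Q k = GG Q H := by
    intro k hk
    induction k, hk using Nat.le_induction with
    | base => rfl
    | succ k hk ih =>
        have : GG Q (k + 1) = GG Q k + Q k := Finset.sum_range_succ _ _
        rw [this, ih, hg.zero k hk, add_zero]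
  unfold vv nextP
  rw [hc k (by omega), hc (n + k - L) (by omega)]
  split_ifs
  · exfalso; omega
  · ring
  · exfalso; omega
  · ring

/-- In every dimension `d ≥ 3` all the resource escapes to infinity, with finite positive mean. -/
theorem escape_main (d : ℕ) (hd : 3 ≤ d) :
    ∃ (Ω : Type) (_ : MeasurableSpace Ω) (μ : Measure Ω) (_ : IsProbabilityMeasure μ)
      (C0 : Ω → (Fin d → ℤ) → ℝ≥0∞),
      Measurable C0 ∧ TranslationInvariant μ C0 ∧
      (∀ᵐ p ∂(μ.prod (choiceLaw d)), ∀ x, ∀ᶠ n in atTop, run (C0 p.1) p.2 n x = 0) ∧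
      ∀ x, 0 < ∫⁻ ω, C0 ω x ∂μ ∧ ∫⁻ ω, C0 ω x ∂μ < ⊤ := by
  obtain ⟨A, hA⟩ := proofE
  obtain ⟨Ω, mΩ, μ, hμ, T, res, h1, h2, h3, h4, h5, h6, h7, h8⟩ := proofD d
  have ho : Odo d Ω μ T res := ⟨h1, h2, h3, h4, h5, h6, h7, h8⟩
  refine ⟨Ω, mΩ, μ, hμ, fun ω x => gfun hd res A 0 (T x ω), meas_C0 hd ho, transInv hd ho, ?_, ?_⟩
  · refine Filter.Eventually.of_forall fun p x => ?_
    have hrun := fun n => congrFun (run_main hd p.1 ho hA p.2 n) x
    by_cases hv : ∃ j m i, RS hd res A p.1 j m i x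
    · obtain ⟨j, m, i, hR⟩ := hv
      refine Filter.eventually_atTop.mpr ⟨LL A j + HH A j, fun n hn => ?_⟩
      show run (fun x => gfun hd res A 0 (T x p.1)) p.2 n x = 0
      rw [hrun n]
      show gfun hd res A n (T x p.1) = 0
      rw [gfun_eq hd ho hA, (fromC hd p.1 ho hA).1 j m i n x hR,
        vv_eventually_zero (good_all hA j) hn]
      simp
    · push Not at hv
      refine Filter.Eventually.of_forall fun n => ?_
      show run (fun x => gfun hd res A 0 (T x p.1)) p.2 n x = 0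
      rw [hrun n]
      show gfun hd res A n (T x p.1) = 0
      rw [gfun_eq hd ho hA]
      exact (fromC hd p.1 ho hA).2.1 n x hv
  · intro x
    have hx := (ho.mp x).lintegral_comp (meas_gfun (A := A) hd ho 0)
    refine ⟨?_, ?_⟩
    · show 0 < ∫⁻ ω, gfun hd res A 0 (T x ω) ∂μ
      rw [hx, lintegral_pos_iff_support (meas_gfun (A := A) hd ho 0)]
      have := pos_main hd ho hA
      refine lt_of_lt_of_le this (measure_mono ?_)
      intro ω hω
      have h0 : T 0 ω = ω := ho.T_zero ω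
      simp only [Set.mem_ofPred_eq, h0] at hω
      exact hω.ne'
    · show ∫⁻ ω, gfun hd res A 0 (T x ω) ∂μ < ⊤
      rw [hx]
      exact mean_lt_top hd ho hA

end PTC
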