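import Pool.Agent.R958.PTC.Stmts

namespace PTC

variable {A b : ℕ → ℤ} {G W : (Fin 3 → ℤ) → ℕ → ℤ}

lemma dir_two (j : ℕ) : dir (j + 2) = dir j := by
  unfold dir; congr 1; simp

lemma dir_ne_two (j : ℕ) : dir j ≠ 2 := by
  unfold dir; split_ifs <;> decide

lemma dir_ne_succ (j : ℕ) : dir j ≠ dir (j + 1) := by
  unfold dir; split_ifs <;> first | decide | (exfalso; omega)

lemma dir_cases (j : ℕ) (c : Fin 3) : c = 2 ∨ c = dir j ∨ c = dir (j + 1) := by
  unfold dir; split_ifs <;> first | (fin_cases c <;> decide) | (exfalso; omega)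

lemma dir_parity (j l : ℕ) : dir (j + 2 * l) = dir j := by
  unfold dir; congr 1; simp

namespace Addr

variable (h : Addr A b G W)
include h

lemma b_two : ∀ j, 2 ≤ b j
  | 0 => by rw [h.hb0]
  | j + 1 => by
      have := b_two j
      have hA := h.hA j
      rw [h.hb j]; nlinarith

lemma bsucc (j : ℕ) : b (j + 1) = A j * b j + b j := by rw [h.hb j]; ring

lemma G_dec (x : Fin 3 → ℤ) (j : ℕ) : G x (j + 2) = A j * (G x (j + 2) / A j) + G x j := by
  have := Int.mul_ediv_add_emod (G x (j + 2)) (A j)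
  rw [h.G_mod] at this; omega

lemma W_dec (x : Fin 3 → ℤ) (j : ℕ) : W x (j + 1) = b j * (W x (j + 1) / b j) + W x j := by
  have := Int.mul_ediv_add_emod (W x (j + 1)) (b j)
  rw [h.W_mod] at this; omega

lemma i_le (x : Fin 3 → ℤ) (j : ℕ) : W x (j + 1) / b j ≤ A j := by
  have h1 := h.W_lt x (j + 1)
  have h2 := h.b_two j
  rw [h.hb j] at h1
  have : W x (j + 1) / b j < A j + 1 := Int.ediv_lt_of_lt_mul (by omega) h1
  omega

lemma i_nonneg (x : Fin 3 → ℤ) (j : ℕ) : 0 ≤ W x (j + 1) / b j :=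
  Int.ediv_nonneg (h.W_nonneg x _) (by have := h.b_two j; omega)

lemma q_nonneg (x : Fin 3 → ℤ) (j : ℕ) : 0 ≤ G x (j + 2) / A j :=
  Int.ediv_nonneg (h.G_nonneg x _) (by have := h.hA j; omega)

/-- residues under a step, no wrap -/
lemma G_step {x z : Fin 3 → ℤ} {j : ℕ} (h0 : 0 ≤ G x j + z (dir j))
    (h1 : G x j + z (dir j) < A j) : G (x + z) j = G x j + z (dir j) := by
  rw [h.G_add, Int.emod_eq_of_lt h0 h1]

lemma W_step {x z : Fin 3 → ℤ} {j : ℕ} (h0 : 0 ≤ W x j + z 2)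
    (h1 : W x j + z 2 < b j) : W (x + z) j = W x j + z 2 := by
  rw [h.W_add, Int.emod_eq_of_lt h0 h1]

lemma G_step_up {x z : Fin 3 → ℤ} {j : ℕ} (h0 : 0 ≤ G x j + z (dir j))
    (h1 : G x j + z (dir j) < A j) :
    0 ≤ G x (j + 2) + z (dir (j + 2)) ∧ G x (j + 2) + z (dir (j + 2)) < A (j + 2) ∧
      G (x + z) (j + 2) / A j = G x (j + 2) / A j := by
  have hd := h.G_dec x j
  have hA := h.hA j
  have hq := h.q_nonneg x j
  have hlt := h.G_lt x (j + 2)
  obtain ⟨r, hr⟩ := h.hdvd j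
  rw [dir_two]
  set q := G x (j + 2) / A j with hqdef
  have hG0 := h.G_nonneg x j
  have hqr : q < r := by
    by_contra hcon
    push_neg at hcon
    have : A j * r ≤ A j * q := by nlinarith
    omega
  have hqr' : A j * q + A j ≤ A (j + 2) := by rw [hr]; nlinarith
  have ha : 0 ≤ G x (j + 2) + z (dir j) := by
    have : 0 ≤ A j * q := by positivity
    omega
  have hb : G x (j + 2) + z (dir j) < A (j + 2) := by omega
  refine ⟨ha, hb, ?_⟩
  have hs : G (x + z) (j + 2) = G x (j + 2) + z (dir (j + 2)) := by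
    apply h.G_step <;> rw [dir_two] <;> assumption
  rw [hs, dir_two, hd, add_assoc, Int.mul_add_ediv_left _ _ (by omega : A j ≠ 0),
    Int.ediv_eq_zero_of_lt h0 h1]
  omega

lemma W_step_up {x z : Fin 3 → ℤ} {j : ℕ} (h0 : 0 ≤ W x j + z 2)
    (h1 : W x j + z 2 < b j) :
    0 ≤ W x (j + 1) + z 2 ∧ W x (j + 1) + z 2 < b (j + 1) ∧
      W (x + z) (j + 1) / b j = W x (j + 1) / b j := by
  have hd := h.W_dec x j
  have hb2 := h.b_two j
  have hq := h.i_nonneg x j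
  have hle := h.i_le x j
  have hbs := h.bsucc j
  set q := W x (j + 1) / b j with hqdef
  have hqr' : b j * q ≤ A j * b j := by nlinarith
  have hqr0 : 0 ≤ b j * q := by positivity
  have ha : 0 ≤ W x (j + 1) + z 2 := by omega
  have hb : W x (j + 1) + z 2 < b (j + 1) := by omega
  refine ⟨ha, hb, ?_⟩
  have hs : W (x + z) (j + 1) = W x (j + 1) + z 2 := h.W_step ha hb
  rw [hs, hd, add_assoc, Int.mul_add_ediv_left _ _ (by omega : b j ≠ 0),
    Int.ediv_eq_zero_of_lt h0 h1]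
  omega

/-- no wrap propagates upwards -/
lemma G_nowrap_all {x z : Fin 3 → ℤ} {j : ℕ} (h0 : 0 ≤ G x j + z (dir j))
    (h1 : G x j + z (dir j) < A j) (t : ℕ) :
    0 ≤ G x (j + 2 * t) + z (dir (j + 2 * t)) ∧
    G x (j + 2 * t) + z (dir (j + 2 * t)) < A (j + 2 * t) := by
  induction t with
  | zero => exact ⟨h0, h1⟩
  | succ t ih =>
      have := h.G_step_up ih.1 ih.2
      exact ⟨this.1, this.2.1⟩

lemma W_nowrap_all {x z : Fin 3 → ℤ} {j : ℕ} (h0 : 0 ≤ W x j + z 2)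
    (h1 : W x j + z 2 < b j) (t : ℕ) :
    0 ≤ W x (j + t) + z 2 ∧ W x (j + t) + z 2 < b (j + t) := by
  induction t with
  | zero => exact ⟨h0, h1⟩
  | succ t ih =>
      have := h.W_step_up ih.1 ih.2
      exact ⟨this.1, this.2.1⟩

/-- upper digits agree -/
def _root_.PTC.Sim (A b : ℕ → ℤ) (G W : (Fin 3 → ℤ) → ℕ → ℤ) (j : ℕ) (x y : Fin 3 → ℤ) : Prop :=
  (∀ l, j ≤ l → G y (l + 2) / A l = G x (l + 2) / A l) ∧
  (∀ l, j + 1 ≤ l → W y (l + 1) / b l = W x (l + 1) / b l)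

lemma sim_of_step {x z : Fin 3 → ℤ} {j : ℕ}
    (h0 : 0 ≤ G x j + z (dir j)) (h1 : G x j + z (dir j) < A j)
    (h2 : 0 ≤ G x (j + 1) + z (dir (j + 1))) (h3 : G x (j + 1) + z (dir (j + 1)) < A (j + 1))
    (h4 : 0 ≤ W x (j + 1) + z 2) (h5 : W x (j + 1) + z 2 < b (j + 1)) :
    Sim A b G W j x (x + z) := by
  constructor
  · intro l hl
    obtain ⟨t, ht | ht⟩ : ∃ t, l = j + 2 * t ∨ l = j + 1 + 2 * t := by
      refine ⟨(l - j) / 2, ?_⟩; omega
    · have := h.G_nowrap_all h0 h1 t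
      rw [ht]; exact (h.G_step_up this.1 this.2).2.2
    · have := h.G_nowrap_all h2 h3 t
      rw [ht]; exact (h.G_step_up this.1 this.2).2.2
  · intro l hl
    obtain ⟨t, rfl⟩ : ∃ t, l = j + 1 + t := ⟨l - (j + 1), by omega⟩
    have := h.W_nowrap_all h4 h5 t
    exact (h.W_step_up this.1 this.2).2.2

end Addr

lemma upOK_congr {g w g' w' : ℕ → ℤ} {l : ℕ} (h1 : w' (l + 1) / b l = w (l + 1) / b l)
    (h2 : g' (l + 2) / A l = g (l + 2) / A l)
    (h3 : w' (l + 2) / b (l + 1) = w (l + 2) / b (l + 1)) (hu : upOK A b g w l) :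
    upOK A b g' w' l := by
  unfold upOK at *
  rw [h1, h2, h3]; exact hu

lemma IsV_transfer {x y : Fin 3 → ℤ} {j m n n' : ℕ} (hx : IsV A b (G x) (W x) j m n)
    (hs : Sim A b G W j x y) (hp : pat A b (G y) (W y) j m n') (hn : (n' : ℤ) ≤ A (j + 1) - 2) :
    IsV A b (G y) (W y) j m n' := by
  obtain ⟨h1, -, -, h4, h5⟩ := hx
  refine ⟨?_, hp, hn, ?_, ?_⟩
  · rw [hs.1 j le_rfl]; exact h1
  · rw [hs.1 j le_rfl, hs.2 (j + 1) le_rfl]; exact h4
  · intro l hl
    exact upOK_congr (hs.2 l hl) (hs.1 l (by omega)) (hs.2 (l + 1) (by omega)) (h5 l hl)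

end PTC
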