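import Pool.Agent.R958.PTC.GeoLow

namespace PTC

variable {A b : ℕ → ℤ} {G W : (Fin 3 → ℤ) → ℕ → ℤ}

namespace Addr

variable (h : Addr A b G W)
include h

lemma child_exists {x : Fin 3 → ℤ} {j m n : ℕ} (hx : IsV A b (G x) (W x) j m n)
    (hn1 : (n : ℤ) + 1 ≤ A (j + 1) - 2) :
    ∃ y, IsV A b (G y) (W y) j m (n + 1) ∧ parV (G y) j m y = x := by
  have hp := hx.2.1
  obtain ⟨hb1, hb2, hb3⟩ := h.pat_bounds hp
  have hbb := h.b_two j
  have hAj := h.hA j
  have hAj1 := h.hA (j + 1)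
  have g0 := h.G_nonneg x j
  have g1 := h.G_lt x j
  have f0 := h.G_nonneg x (j + 1)
  have f1 := h.G_lt x (j + 1)
  have w0 := h.W_nonneg x (j + 1)
  have w1 := h.W_lt x (j + 1)
  rcases hp with ⟨p1, p2, p3, p4, p5⟩ | ⟨p1, p2, p3, p4⟩ | ⟨p1, p2, p3, p4⟩ | ⟨p1, p2, p3, p4⟩
  · rcases lt_or_eq_of_le p3 with hlt | heq
    · obtain ⟨s1, s2, s3, s4⟩ := h.stepTwo x j 1 (by omega) (by omega)
      refine ⟨x + Pi.single 2 (1 : ℤ), IsV_transfer hx s4
        (Or.inl ⟨by omega, by omega, ?_, by omega, ?_⟩) (by push_cast; omega), ?_⟩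
      · rw [s3]; omega
      · rw [s3]; push_cast; omega
      · unfold parV; rw [if_pos (by omega)]; abel
    · obtain ⟨s1, s2, s3, s4⟩ := h.stepDir1 x j 1 (by omega) (by omega)
      refine ⟨x + Pi.single (dir (j + 1)) (1 : ℤ), IsV_transfer hx s4
        (Or.inr (Or.inl ⟨by omega, ?_, by omega, ?_⟩)) (by push_cast; omega), ?_⟩
      · rw [s3]; exact heq
      · rw [s3]; push_cast; omega
      · unfold parV; rw [if_neg (by omega), if_neg (by omega), if_neg (by omega)]; abel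
  · obtain ⟨s1, s2, s3, s4⟩ := h.stepDir1 x j 1 (by omega) (by omega)
    refine ⟨x + Pi.single (dir (j + 1)) (1 : ℤ), IsV_transfer hx s4
      (Or.inr (Or.inr (Or.inl ⟨by omega, ?_, by omega, ?_⟩))) (by push_cast; omega), ?_⟩
    · rw [s3]; exact p2
    · rw [s3, s1]; push_cast; omega
    · unfold parV; rw [if_neg (by omega), if_neg (by omega), if_neg (by omega)]; abel
  · rcases lt_trichotomy (G x j) 1 with hlt | heq | hgt
    · obtain ⟨s1, s2, s3, s4⟩ := h.stepDir x j 1 (by omega) (by omega)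
      refine ⟨x + Pi.single (dir j) (1 : ℤ), IsV_transfer hx s4
        (Or.inr (Or.inr (Or.inl ⟨by omega, ?_, by omega, ?_⟩))) (by push_cast; omega), ?_⟩
      · rw [s3]; exact p2
      · rw [s3, s1]; push_cast; omega
      · unfold parV; rw [if_neg (by omega), if_neg (by omega), if_pos ⟨by omega, by omega⟩]; abel
    · obtain ⟨s1, s2, s3, s4⟩ := h.stepDir1 x j 1 (by omega) (by omega)
      refine ⟨x + Pi.single (dir (j + 1)) (1 : ℤ), IsV_transfer hx s4
        (Or.inr (Or.inr (Or.inr ⟨by omega, ?_, by omega, ?_⟩))) (by push_cast; omega), ?_⟩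
      · rw [s3]; exact p2
      · rw [s3, s2]; push_cast; omega
      · unfold parV; rw [if_neg (by omega), if_neg (by omega), if_neg (by omega)]; abel
    · obtain ⟨s1, s2, s3, s4⟩ := h.stepDir x j (-1) (by omega) (by omega)
      refine ⟨x + Pi.single (dir j) (-1 : ℤ), IsV_transfer hx s4
        (Or.inr (Or.inr (Or.inl ⟨by omega, ?_, by omega, ?_⟩))) (by push_cast; omega), ?_⟩
      · rw [s3]; exact p2
      · rw [s3, s1]; push_cast; omega
      · unfold parV; rw [if_neg (by omega), if_pos ⟨by omega, by omega⟩, Pi.single_neg]; abel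
  · obtain ⟨s1, s2, s3, s4⟩ := h.stepDir1 x j 1 (by omega) (by omega)
    refine ⟨x + Pi.single (dir (j + 1)) (1 : ℤ), IsV_transfer hx s4
      (Or.inr (Or.inr (Or.inr ⟨by omega, ?_, by omega, ?_⟩))) (by push_cast; omega), ?_⟩
    · rw [s3]; exact p2
    · rw [s3, s2]; push_cast; omega
    · unfold parV; rw [if_neg (by omega), if_neg (by omega), if_neg (by omega)]; abel

/-- explicit description of the displacement from the parent -/
lemma child_disp {x y : Fin 3 → ℤ} {j m n : ℕ} (hy : IsV A b (G y) (W y) j m (n + 1))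
    (hxy : parV (G y) j m y = x) :
    (y = x + Pi.single 2 1 ∧ G x (j + 1) = 1 ∧ W x (j + 1) < ((m : ℤ) + 1) * b j) ∨
    (y = x + Pi.single (dir (j + 1)) 1 ∧ G x (j + 1) = 1 ∧ W x (j + 1) = ((m : ℤ) + 1) * b j) ∨
    (y = x + Pi.single (dir (j + 1)) 1 ∧ G x (j + 1) = 2) ∨
    (y = x + Pi.single (dir j) (-1) ∧ G x (j + 1) = 3 ∧ 2 ≤ G x j) ∨
    (y = x + Pi.single (dir j) 1 ∧ G x (j + 1) = 3 ∧ G x j = 0) ∨
    (y = x + Pi.single (dir (j + 1)) 1 ∧ 3 ≤ G x (j + 1) ∧ G x j = 1) := by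
  have hp := hy.2.1
  obtain ⟨hb1, hb2, hb3⟩ := h.pat_bounds hp
  have hbb := h.b_two j
  have hAj := h.hA j
  have hAj1 := h.hA (j + 1)
  have g0 := h.G_nonneg y j
  have g1 := h.G_lt y j
  have f0 := h.G_nonneg y (j + 1)
  have f1 := h.G_lt y (j + 1)
  have w0 := h.W_nonneg y (j + 1)
  have w1 := h.W_lt y (j + 1)
  rcases hp with ⟨p1, p2, p3, p4, p5⟩ | ⟨p1, p2, p3, p4⟩ | ⟨p1, p2, p3, p4⟩ | ⟨p1, p2, p3, p4⟩
  · left
    have e : x = y + Pi.single 2 (-1 : ℤ) := by
      rw [← hxy]; unfold parV; rw [if_pos p1, sub_single]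
    obtain ⟨s1, s2, s3, s4⟩ := h.stepTwo y j (-1) (by omega) (by push_cast at p5; omega)
    rw [← e] at s1 s2 s3
    refine ⟨?_, by omega, by omega⟩
    rw [e, Pi.single_neg]; abel
  · right; left
    have e : x = y + Pi.single (dir (j + 1)) (-1 : ℤ) := by
      rw [← hxy]; unfold parV
      rw [if_neg (by omega), if_neg (by omega), if_neg (by omega), sub_single]
    obtain ⟨s1, s2, s3, s4⟩ := h.stepDir1 y j (-1) (by omega) (by omega)
    rw [← e] at s1 s2 s3
    refine ⟨?_, by omega, by omega⟩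
    rw [e, Pi.single_neg]; abel
  · rcases lt_trichotomy (G y j) m with hlt | heq | hgt
    · right; right; right; left
      have e : x = y + Pi.single (dir j) (1 : ℤ) := by
        rw [← hxy]; unfold parV; rw [if_neg (by omega), if_pos ⟨p1, hlt⟩]
      obtain ⟨s1, s2, s3, s4⟩ := h.stepDir y j 1 (by omega) (by omega)
      rw [← e] at s1 s2 s3
      refine ⟨?_, by omega, by omega⟩
      rw [e, Pi.single_neg]; abel
    · right; right; left
      have e : x = y + Pi.single (dir (j + 1)) (-1 : ℤ) := by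
        rw [← hxy]; unfold parV
        rw [if_neg (by omega), if_neg (by omega), if_neg (by omega), sub_single]
      obtain ⟨s1, s2, s3, s4⟩ := h.stepDir1 y j (-1) (by omega) (by omega)
      rw [← e] at s1 s2 s3
      refine ⟨?_, by omega⟩
      rw [e, Pi.single_neg]; abel
    · right; right; right; right; left
      have e : x = y + Pi.single (dir j) (-1 : ℤ) := by
        rw [← hxy]; unfold parV
        rw [if_neg (by omega), if_neg (by omega), if_pos ⟨p1, hgt⟩, sub_single]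
      obtain ⟨s1, s2, s3, s4⟩ := h.stepDir y j (-1) (by omega) (by omega)
      rw [← e] at s1 s2 s3
      refine ⟨?_, by omega, by omega⟩
      rw [e, Pi.single_neg]; abel
  · right; right; right; right; right
    have e : x = y + Pi.single (dir (j + 1)) (-1 : ℤ) := by
      rw [← hxy]; unfold parV
      rw [if_neg (by omega), if_neg (by omega), if_neg (by omega), sub_single]
    obtain ⟨s1, s2, s3, s4⟩ := h.stepDir1 y j (-1) (by omega) (by omega)
    rw [← e] at s1 s2 s3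
    refine ⟨?_, by omega, by omega⟩
    rw [e, Pi.single_neg]; abel

lemma child_unique {x y z : Fin 3 → ℤ} {j m n : ℕ} (hy : IsV A b (G y) (W y) j m (n + 1))
    (hz : IsV A b (G z) (W z) j m (n + 1))
    (hxy : parV (G y) j m y = x) (hxz : parV (G z) j m z = x) : y = z := by
  have h1 := h.child_disp hy hxy
  have h2 := h.child_disp hz hxz
  rcases h1 with ⟨a, a1, a2⟩ | ⟨a, a1, a2⟩ | ⟨a, a1⟩ | ⟨a, a1, a2⟩ | ⟨a, a1, a2⟩ | ⟨a, a1, a2⟩
    <;> rcases h2 with ⟨c, c1, c2⟩ | ⟨c, c1, c2⟩ | ⟨c, c1⟩ | ⟨c, c1, c2⟩ | ⟨c, c1, c2⟩ | ⟨c, c1, c2⟩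
    <;> first
      | (exfalso; omega)
      | (rw [a, c])

lemma side_exists {x : Fin 3 → ℤ} {j m n : ℕ} (hx : IsV A b (G x) (W x) (j + 1) m n)
    (hs : A j + ((m : ℤ) + 1) * b (j + 1) - 2 + max ((m : ℤ) - 1) (1 - m) ≤ n) :
    ∃ (m' : ℕ) (y : Fin 3 → ℤ), IsV A b (G y) (W y) j m' 0 ∧ parV (G y) j m' y = x := by
  have hp := hx.2.1
  obtain ⟨hb1, hb2, hb3⟩ := h.pat_bounds hp
  have hbb := h.b_two (j + 1)
  have hbbj := h.b_two j
  have hAj := h.hA j
  have hAj1 := h.hA (j + 1)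
  have g0 := h.G_nonneg x j
  have g1 := h.G_lt x j
  have w0 := h.W_nonneg x (j + 1 + 1)
  have w1 := h.W_lt x (j + 1 + 1)
  have hd := h.G_dec x j
  obtain ⟨hq, -, hn, ht, hu⟩ := hx
  rcases hp with ⟨p1, p2, p3, p4, p5⟩ | ⟨p1, p2, p3, p4⟩ | ⟨p1, p2, p3, p4⟩ | ⟨p1, p2, p3, p4⟩
  · exfalso; omega
  · exfalso; omega
  · exfalso; omega
  · have hz := h.W_zero_of_mul p2
    obtain ⟨s1, s2, s3, s4⟩ := h.stepTwo x (j + 1) 1 (by omega) (by omega)
    obtain ⟨t1, t2, t3, t4⟩ := h.stepTwo x j 1 (by omega) (by omega)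
    have hq' : 1 ≤ G x (j + 2) / A j := by
      rw [Int.le_ediv_iff_mul_le (by omega)]
      show 1 * A j ≤ G x (j + 1 + 1)
      omega
    obtain ⟨m', hm'⟩ : ∃ m' : ℕ, (m' : ℤ) = G x j := ⟨(G x j).toNat, by omega⟩
    have hi : W x (j + 1 + 1) / b (j + 1) = (m : ℤ) + 1 := by
      rw [p2]; exact Int.mul_ediv_cancel _ (by omega)
    have hi' : W (x + Pi.single 2 1) (j + 1 + 1) / b (j + 1) = (m : ℤ) + 1 := by
      rw [s3, p2, add_comm, Int.add_mul_ediv_right _ _ (by omega), Int.ediv_eq_zero_of_lt (by omega)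
        (by omega)]
      ring
    have hW1 : W (x + Pi.single 2 1) (j + 1) = 1 := by omega
    have hG2 : G (x + Pi.single 2 1) (j + 2) = G x (j + 2) := s2
    have hmul : ((m' : ℤ) + 1) * b j ≥ 1 := by nlinarith
    refine ⟨m', x + Pi.single 2 1, ⟨?_, ?_, ?_, ?_, ?_⟩, ?_⟩
    · rw [hG2]; exact hq'
    · exact Or.inl ⟨by omega, by omega, by rw [hW1]; omega, by omega, by rw [hW1]; simp⟩
    · push_cast; omega
    · rw [hG2]
      show A j * (G x (j + 2) / A j) + ↑m' +
        sg b (j + 1) (W (x + Pi.single 2 1) (j + 1 + 1) / b (j + 1) - 1) ≤ A (j + 2) - 2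
      rw [hi', hm', ← hd]
      unfold sg
      have e2 : ((m : ℤ) + 1 - 1 + 1) * b (j + 1) = ((m : ℤ) + 1) * b (j + 1) := by ring
      rw [e2]
      have hn' : (n : ℤ) ≤ A (j + 2) - 2 := hn
      have p4' : (n : ℤ) = W x (j + 1 + 1) + 1 + max ((m : ℤ) - 1) (1 - m) + (G x (j + 2) - 3) := p4
      omega
    · intro l hl
      rcases Nat.eq_or_lt_of_le hl with heq | hlt
      · subst heq
        refine ⟨?_, ?_, ?_⟩
        · rw [hi']; omega
        · rw [s4.1 (j + 1) le_rfl]; exact hq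
        · rw [hi', s4.1 (j + 1) le_rfl]
          have := s4.2 (j + 1 + 1) le_rfl
          show _ + _ + sg b (j + 1 + 1) (W (x + Pi.single 2 1) (j + 1 + 1 + 1) / b (j + 1 + 1) - 1) ≤ _
          rw [this]
          have e3 : (m : ℤ) + 1 - 1 = m := by ring
          rw [e3]
          exact ht
      · exact upOK_congr (s4.2 l (by omega)) (s4.1 l (by omega)) (s4.2 (l + 1) (by omega))
          (hu l (by omega))
    · unfold parV; rw [if_pos (by omega)]; abel

end Addr

end PTC
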