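import Pool.Agent.R958.PTC.GeoPar

namespace PTC

variable {A b : ℕ → ℤ} {G W : (Fin 3 → ℤ) → ℕ → ℤ}

lemma adj3_cases {x y : Fin 3 → ℤ} (hxy : adj3 x y) :
    ∃ (c : Fin 3) (s : ℤ), (s = 1 ∨ s = -1) ∧ y = x + Pi.single c s := by
  unfold adj3 at hxy
  rw [Fin.sum_univ_three] at hxy
  have a0 := abs_nonneg (x 0 - y 0)
  have a1 := abs_nonneg (x 1 - y 1)
  have a2 := abs_nonneg (x 2 - y 2)
  by_cases h0 : x 0 - y 0 = 0
  · by_cases h1 : x 1 - y 1 = 0
    · rw [h0, h1] at hxy
      simp only [abs_zero, zero_add] at hxy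
      refine ⟨2, y 2 - x 2, ?_, ?_⟩
      · rcases abs_cases (x 2 - y 2) with h | h <;> omega
      · funext i; fin_cases i <;> simp <;> omega
    · have hp : 1 ≤ |x 1 - y 1| := Int.one_le_abs h1
      refine ⟨1, y 1 - x 1, ?_, ?_⟩
      · rcases abs_cases (x 1 - y 1) with h | h <;> omega
      · have h2 : x 2 - y 2 = 0 := by
          have : |x 2 - y 2| = 0 := by omega
          exact abs_eq_zero.mp this
        funext i; fin_cases i <;> simp <;> omega
  · have hp : 1 ≤ |x 0 - y 0| := Int.one_le_abs h0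
    refine ⟨0, y 0 - x 0, ?_, ?_⟩
    · rcases abs_cases (x 0 - y 0) with h | h <;> omega
    · have h1 : x 1 - y 1 = 0 := by
        have : |x 1 - y 1| = 0 := by omega
        exact abs_eq_zero.mp this
      have h2 : x 2 - y 2 = 0 := by
        have : |x 2 - y 2| = 0 := by omega
        exact abs_eq_zero.mp this
      funext i; fin_cases i <;> simp <;> omega

lemma adj3_single (x : Fin 3 → ℤ) (c : Fin 3) (s : ℤ) (hs : s = 1 ∨ s = -1) :
    adj3 x (x + Pi.single c s) := by
  unfold adj3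
  rw [Fin.sum_univ_three]
  fin_cases c <;> rcases hs with rfl | rfl <;> simp

lemma emod_step {a M s : ℤ} (h0 : 0 ≤ a) (h1 : a < M) (hM : 2 ≤ M) (hs : s = 1 ∨ s = -1) :
    ((a + s) % M = a + s ∧ 0 ≤ a + s ∧ a + s < M) ∨ (s = 1 ∧ a = M - 1 ∧ (a + s) % M = 0) ∨
      (s = -1 ∧ a = 0 ∧ (a + s) % M = M - 1) := by
  by_cases h2 : 0 ≤ a + s ∧ a + s < M
  · left; exact ⟨Int.emod_eq_of_lt h2.1 h2.2, h2⟩
  · rcases hs with rfl | rfl
    · right; left
      have : a = M - 1 := by omega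
      refine ⟨rfl, this, ?_⟩
      rw [this]; simp
    · right; right
      have : a = 0 := by omega
      refine ⟨rfl, this, ?_⟩
      rw [this, zero_add, ← Int.add_emod_right, Int.emod_eq_of_lt] <;> omega

namespace Addr

variable (h : Addr A b G W)
include h

lemma G_same (x : Fin 3 → ℤ) {c : Fin 3} (s : ℤ) {l : ℕ} (hc : dir l ≠ c) :
    G (x + Pi.single c s) l = G x l := by
  rw [h.G_add, Pi.single_eq_of_ne hc, add_zero, Int.emod_eq_of_lt (h.G_nonneg _ _) (h.G_lt _ _)]

lemma W_same (x : Fin 3 → ℤ) {c : Fin 3} (s : ℤ) (l : ℕ) (hc : 2 ≠ c) :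
    W (x + Pi.single c s) l = W x l := by
  rw [h.W_add, Pi.single_eq_of_ne hc, add_zero, Int.emod_eq_of_lt (h.W_nonneg _ _) (h.W_lt _ _)]

lemma G_pm (x : Fin 3 → ℤ) (s : ℤ) (l : ℕ) (hs : s = 1 ∨ s = -1) :
    (G (x + Pi.single (dir l) s) l = G x l + s ∧ 0 ≤ G x l + s ∧ G x l + s < A l) ∨
    (s = 1 ∧ G x l = A l - 1 ∧ G (x + Pi.single (dir l) s) l = 0) ∨
    (s = -1 ∧ G x l = 0 ∧ G (x + Pi.single (dir l) s) l = A l - 1) := by
  rw [h.G_add, Pi.single_eq_same]
  exact emod_step (h.G_nonneg _ _) (h.G_lt _ _) (by have := h.hA l; omega) hs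

lemma W_pm (x : Fin 3 → ℤ) (s : ℤ) (l : ℕ) (hs : s = 1 ∨ s = -1) :
    (W (x + Pi.single 2 s) l = W x l + s ∧ 0 ≤ W x l + s ∧ W x l + s < b l) ∨
    (s = 1 ∧ W x l = b l - 1 ∧ W (x + Pi.single 2 s) l = 0) ∨
    (s = -1 ∧ W x l = 0 ∧ W (x + Pi.single 2 s) l = b l - 1) := by
  rw [h.W_add, Pi.single_eq_same]
  exact emod_step (h.W_nonneg _ _) (h.W_lt _ _) (h.b_two l) hs

lemma W_zero_of_mul {x : Fin 3 → ℤ} {j : ℕ} {m : ℤ} (hw : W x (j + 1) = (m + 1) * b j) :
    W x j = 0 := by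
  rw [← h.W_mod, hw, Int.mul_emod_left]

lemma mul_cancel {j : ℕ} {m m' : ℕ} (hw : ((m : ℤ) + 1) * b j = ((m' : ℤ) + 1) * b j) : m = m' := by
  have := mul_right_cancel₀ (by have := h.b_two j; omega : b j ≠ 0) hw
  omega

lemma low_facts {x : Fin 3 → ℤ} {j m n : ℕ} (hx : IsV A b (G x) (W x) j m n) :
    ∀ k, j ≤ k → 1 ≤ W x (k + 1) ∧ W x (k + 1) ≤ b (k + 1) - 2 ∧ A k ≤ G x (k + 2) ∧
      (j < k → b k ≤ W x (k + 1)) := by
  intro k hk
  induction k, hk using Nat.le_induction with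
  | base =>
      obtain ⟨hq, hp, -, -, -⟩ := hx
      obtain ⟨hb1, hb2, hb3⟩ := h.pat_bounds hp
      have hbb := h.b_two j
      have hd := h.G_dec x j
      have hA := h.hA j
      have hg := h.G_nonneg x j
      have hAq : A j * 1 ≤ A j * (G x (j + 2) / A j) := mul_le_mul_of_nonneg_left hq (by omega)
      refine ⟨?_, ?_, by omega, fun hc => absurd hc (lt_irrefl _)⟩
      · rcases hp with ⟨p1, p2, p3, p4, p5⟩ | ⟨p1, p2, p3, p4⟩ | ⟨p1, p2, p3, p4⟩ | ⟨p1, p2, p3, p4⟩
          <;> omega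
      · rcases hp with ⟨p1, p2, p3, p4, p5⟩ | ⟨p1, p2, p3, p4⟩ | ⟨p1, p2, p3, p4⟩ | ⟨p1, p2, p3, p4⟩
          <;> omega
  | succ k hk ih =>
      obtain ⟨i1, i2, i3, -⟩ := ih
      obtain ⟨u1, u2, -⟩ := hx.2.2.2.2 (k + 1) (by omega)
      have hwd := h.W_dec x (k + 1)
      have hile := h.i_le x (k + 1)
      have hbs := h.bsucc (k + 1)
      have hbb := h.b_two (k + 1)
      have hd := h.G_dec x (k + 1)
      have hA := h.hA (k + 1)
      have hg := h.G_nonneg x (k + 1)
      have hAq : A (k + 1) * 1 ≤ A (k + 1) * (G x (k + 1 + 2) / A (k + 1)) :=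
        mul_le_mul_of_nonneg_left u2 (by omega)
      have hbi : b (k + 1) * 1 ≤ b (k + 1) * (W x (k + 1 + 1) / b (k + 1)) :=
        mul_le_mul_of_nonneg_left u1 (by omega)
      have hbi2 : (W x (k + 1 + 1) / b (k + 1)) * b (k + 1) ≤ A (k + 1) * b (k + 1) :=
        mul_le_mul_of_nonneg_right hile (by omega)
      have hcomm : (W x (k + 1 + 1) / b (k + 1)) * b (k + 1)
        = b (k + 1) * (W x (k + 1 + 1) / b (k + 1)) := mul_comm _ _
      refine ⟨by omega, by omega, by omega, fun _ => by omega⟩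

/-- at a vertex of a lower level, the level `k+1` pattern fails -/
lemma no_two_levels {x : Fin 3 → ℤ} {j m n k m' n' : ℕ} (hx : IsV A b (G x) (W x) j m n)
    (hk : j ≤ k) (hy : IsV A b (G x) (W x) (k + 1) m' n') : False := by
  obtain ⟨l1, l2, l3, -⟩ := h.low_facts hx k hk
  have hA := h.hA k
  have l3' : A k ≤ G x (k + 1 + 1) := l3
  rcases hy.2.1 with ⟨p1, p2, p3, p4, p5⟩ | ⟨p1, p2, p3, p4⟩ | ⟨p1, p2, p3, p4⟩ | ⟨p1, p2, p3, p4⟩
  · omega
  · omega
  · omega
  · have := h.W_zero_of_mul p2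
    omega

lemma uniq {x : Fin 3 → ℤ} {j m n j' m' n' : ℕ} (hx : IsV A b (G x) (W x) j m n)
    (hy : IsV A b (G x) (W x) j' m' n') : j = j' ∧ m = m' ∧ n = n' := by
  rcases lt_trichotomy j j' with hlt | heq | hgt
  · obtain ⟨k, rfl⟩ : ∃ k, j' = k + 1 := ⟨j' - 1, by omega⟩
    exact (h.no_two_levels hx (by omega) hy).elim
  · subst heq
    refine ⟨rfl, ?_⟩
    rcases hx.2.1 with ⟨p1, p2, p3, p4, p5⟩ | ⟨p1, p2, p3, p4⟩ | ⟨p1, p2, p3, p4⟩ | ⟨p1, p2, p3, p4⟩
      <;> rcases hy.2.1 with ⟨q1, q2, q3, q4, q5⟩ | ⟨q1, q2, q3, q4⟩ | ⟨q1, q2, q3, q4⟩ | ⟨q1, q2, q3, q4⟩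
      <;> try (exfalso; omega)
    · constructor <;> omega
    · constructor <;> omega
    · have := h.mul_cancel (p2.symm.trans q2)
      subst this
      constructor <;> omega
    · have := h.mul_cancel (p2.symm.trans q2)
      subst this
      constructor <;> omega
  · obtain ⟨k, rfl⟩ : ∃ k, j = k + 1 := ⟨j - 1, by omega⟩
    exact (h.no_two_levels hy (by omega) hx).elim

lemma pmap_eq {x : Fin 3 → ℤ} {j m n : ℕ} (hx : IsV A b (G x) (W x) j m n) :
    pmap A b G W x = parV (G x) j m x := by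
  unfold pmap
  have hex : ∃ a : ℕ × ℕ × ℕ, IsV A b (G x) (W x) a.1 a.2.1 a.2.2 := ⟨(j, m, n), hx⟩
  rw [dif_pos hex]
  obtain ⟨e1, e2, -⟩ := h.uniq hx hex.choose_spec
  rw [← e1, ← e2]

/-- cross-level classification: `y` on a lower level than `x` -/
lemma classify_low {x y : Fin 3 → ℤ} {k m n j' m' n' : ℕ} (hx : IsV A b (G x) (W x) (k + 1) m n)
    (hy : IsV A b (G y) (W y) j' m' n') (hk : j' ≤ k) {c : Fin 3} {s : ℤ} (hs : s = 1 ∨ s = -1)
    (hxy : y = x + Pi.single c s) : x = parV (G y) j' m' y := by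
  obtain ⟨l1, l2, l3, l4⟩ := h.low_facts hy k hk
  have hA := h.hA k
  have hA2 := h.hA (k + 1 + 1)
  have l3' : A k ≤ G y (k + 1 + 1) := l3
  have hbk := h.b_two k
  have hbk1 := h.b_two (k + 1)
  rcases dir_cases (k + 1) c with rfl | rfl | rfl
  · have hG : G y (k + 1 + 1) = G x (k + 1 + 1) := by
      rw [hxy]; exact h.G_same x s (dir_ne_two _)
    have hW := h.W_pm x s (k + 1) hs
    rw [← hxy] at hW
    rcases hx.2.1 with ⟨p1, p2, p3, p4, p5⟩ | ⟨p1, p2, p3, p4⟩ | ⟨p1, p2, p3, p4⟩ | ⟨p1, p2, p3, p4⟩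
    · omega
    · omega
    · omega
    · have hz := h.W_zero_of_mul p2
      have hs1 : s = 1 := by omega
      have hWy : W y (k + 1) = 1 := by omega
      have hjk : j' = k := by
        by_contra hne
        have := l4 (by omega)
        omega
      subst hjk
      obtain ⟨hb1, hb2, hb3⟩ := h.pat_bounds hy.2.1
      have hG1 : G y (j' + 1) = 1 := by
        rcases hy.2.1 with ⟨q1, q2, q3, q4, q5⟩ | ⟨q1, q2, q3, q4⟩ | ⟨q1, q2, q3, q4⟩ | ⟨q1, q2, q3, q4⟩
          <;> omega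
      unfold parV
      rw [if_pos hG1, hxy, hs1]
      abel
  · exfalso
    have hG : G y (k + 1 + 1) = G x (k + 1 + 1) := by
      rw [hxy]; exact h.G_same x s (dir_ne_succ (k + 1)).symm
    have hW : W y (k + 1) = W x (k + 1) := by
      rw [hxy]; exact h.W_same x s _ (dir_ne_two _).symm
    rcases hx.2.1 with ⟨p1, p2, p3, p4, p5⟩ | ⟨p1, p2, p3, p4⟩ | ⟨p1, p2, p3, p4⟩ | ⟨p1, p2, p3, p4⟩
    · omega
    · have hz := h.W_zero_of_mul p2; omega
    · have hz := h.W_zero_of_mul p2; omega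
    · have hz := h.W_zero_of_mul p2; omega
  · exfalso
    have hG := h.G_pm x s (k + 1 + 1) hs
    rw [← hxy] at hG
    have hW : W y (k + 1) = W x (k + 1) := by
      rw [hxy]; exact h.W_same x s _ (dir_ne_two _).symm
    rcases hx.2.1 with ⟨p1, p2, p3, p4, p5⟩ | ⟨p1, p2, p3, p4⟩ | ⟨p1, p2, p3, p4⟩ | ⟨p1, p2, p3, p4⟩
    · omega
    · have hz := h.W_zero_of_mul p2; omega
    · have hz := h.W_zero_of_mul p2; omega
    · have hz := h.W_zero_of_mul p2; omega

/-- same level classification -/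
lemma classify_same {x y : Fin 3 → ℤ} {j m n m' n' : ℕ} (hx : IsV A b (G x) (W x) j m n)
    (hy : IsV A b (G y) (W y) j m' n') {c : Fin 3} {s : ℤ} (hs : s = 1 ∨ s = -1)
    (hxy : y = x + Pi.single c s) :
    y = parV (G x) j m x ∨ x = parV (G y) j m' y ∨
      (n = n' ∧ (n : ℤ) < ((m : ℤ) + 1) * b j ∧ (n : ℤ) < ((m' : ℤ) + 1) * b j) := by
  have hA := h.hA j
  have hA1 := h.hA (j + 1)
  have hbj := h.b_two j
  have hbj1 := h.b_two (j + 1)
  obtain ⟨hbx1, hbx2, hbx3⟩ := h.pat_bounds hx.2.1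
  obtain ⟨hby1, hby2, hby3⟩ := h.pat_bounds hy.2.1
  have hyx : x = y - Pi.single c s := by rw [hxy]; abel
  rcases dir_cases j c with rfl | rfl | rfl
  · -- vertical direction
    have hG : G y j = G x j := by rw [hxy]; exact h.G_same x s (dir_ne_two _)
    have hG1 : G y (j + 1) = G x (j + 1) := by rw [hxy]; exact h.G_same x s (dir_ne_two _)
    have hW := h.W_pm x s j hs
    rw [← hxy] at hW
    have hW1 := h.W_pm x s (j + 1) hs
    rw [← hxy] at hW1
    rcases hx.2.1 with ⟨p1, p2, p3, p4, p5⟩ | ⟨p1, p2, p3, p4⟩ | ⟨p1, p2, p3, p4⟩ | ⟨p1, p2, p3, p4⟩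
      <;> rcases hy.2.1 with ⟨q1, q2, q3, q4, q5⟩ | ⟨q1, q2, q3, q4⟩ | ⟨q1, q2, q3, q4⟩ | ⟨q1, q2, q3, q4⟩
      <;> try (exfalso; omega)
    · rcases hs with rfl | rfl
      · right; left
        unfold parV; rw [if_pos q1]; exact hyx
      · left
        unfold parV; rw [if_pos p1, sub_single]; exact hxy
    · exfalso
      have hz := h.W_zero_of_mul p2
      have hz' := h.W_zero_of_mul q2
      omega
    · exfalso
      have hz := h.W_zero_of_mul p2
      have hz' := h.W_zero_of_mul q2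
      omega
    · exfalso
      have hz := h.W_zero_of_mul p2
      have hz' := h.W_zero_of_mul q2
      omega
  · -- direction dir j
    have hG1 : G y (j + 1) = G x (j + 1) := by
      rw [hxy]; exact h.G_same x s (dir_ne_succ j).symm
    have hW1 : W y (j + 1) = W x (j + 1) := by
      rw [hxy]; exact h.W_same x s _ (dir_ne_two _).symm
    have hG := h.G_pm x s j hs
    rw [← hxy] at hG
    rcases hx.2.1 with ⟨p1, p2, p3, p4, p5⟩ | ⟨p1, p2, p3, p4⟩ | ⟨p1, p2, p3, p4⟩ | ⟨p1, p2, p3, p4⟩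
      <;> rcases hy.2.1 with ⟨q1, q2, q3, q4, q5⟩ | ⟨q1, q2, q3, q4⟩ | ⟨q1, q2, q3, q4⟩ | ⟨q1, q2, q3, q4⟩
      <;> try (exfalso; omega)
    · right; right
      refine ⟨by omega, by omega, ?_⟩
      rw [hW1] at q3; omega
    · exfalso
      have := h.mul_cancel (p2.symm.trans (hW1.symm.trans q2))
      omega
    · have hmm := h.mul_cancel (p2.symm.trans (hW1.symm.trans q2))
      subst hmm
      rcases hs with rfl | rfl
      · by_cases hlt : G x j < m
        · left
          unfold parV; rw [if_neg (by omega), if_pos ⟨p1, hlt⟩]; exact hxy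
        · right; left
          unfold parV; rw [if_neg (by omega), if_neg (by omega), if_pos ⟨q1, by omega⟩]; exact hyx
      · by_cases hlt : (m : ℤ) < G x j
        · left
          unfold parV; rw [if_neg (by omega), if_neg (by omega), if_pos ⟨p1, hlt⟩, sub_single]
          exact hxy
        · right; left
          unfold parV; rw [if_neg (by omega), if_pos ⟨q1, by omega⟩]
          rw [hyx, Pi.single_neg]; abel
  · -- direction dir (j+1)
    have hG0 : G y j = G x j := by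
      rw [hxy]; exact h.G_same x s (dir_ne_succ j)
    have hW1 : W y (j + 1) = W x (j + 1) := by
      rw [hxy]; exact h.W_same x s _ (dir_ne_two _).symm
    have hG := h.G_pm x s (j + 1) hs
    rw [← hxy] at hG
    rcases hx.2.1 with ⟨p1, p2, p3, p4, p5⟩ | ⟨p1, p2, p3, p4⟩ | ⟨p1, p2, p3, p4⟩ | ⟨p1, p2, p3, p4⟩
      <;> rcases hy.2.1 with ⟨q1, q2, q3, q4, q5⟩ | ⟨q1, q2, q3, q4⟩ | ⟨q1, q2, q3, q4⟩ | ⟨q1, q2, q3, q4⟩
      <;> try (exfalso; omega)
    · -- x W, y F
      right; left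
      have : s = 1 := by omega
      unfold parV; rw [if_neg (by omega), if_neg (by omega), if_neg (by omega), hyx, this]
    · -- x F, y W
      left
      have : s = -1 := by omega
      unfold parV; rw [if_neg (by omega), if_neg (by omega), if_neg (by omega), hxy, this, sub_single]
    · -- x F, y U
      have hmm := h.mul_cancel (p2.symm.trans (hW1.symm.trans q2))
      subst hmm
      right; left
      have : s = 1 := by omega
      unfold parV; rw [if_neg (by omega), if_neg (by omega), if_neg (by omega), hyx, this]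
    · -- x U, y F
      have hmm := h.mul_cancel (p2.symm.trans (hW1.symm.trans q2))
      subst hmm
      left
      have : s = -1 := by omega
      unfold parV; rw [if_neg (by omega), if_neg (by omega), if_neg (by omega), hxy, this, sub_single]
    · -- x U, y S
      right; left
      have : s = 1 := by omega
      unfold parV; rw [if_neg (by omega), if_neg (by omega), if_neg (by omega), hyx, this]
    · -- x S, y U
      left
      have : s = -1 := by omega
      unfold parV; rw [if_neg (by omega), if_neg (by omega), if_neg (by omega), hxy, this, sub_single]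
    · -- x S, y S
      rcases hs with rfl | rfl
      · right; left
        unfold parV; rw [if_neg (by omega), if_neg (by omega), if_neg (by omega), hyx]
      · left
        unfold parV; rw [if_neg (by omega), if_neg (by omega), if_neg (by omega), hxy, sub_single]

end Addr

end PTC
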