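import Pool.Agent.R958.PTC.GeoChild

namespace PTC

lemma bb_two (A : ℕ → ℕ) : ∀ j, 2 ≤ bb A j
  | 0 => le_rfl
  | j + 1 => by
      have := bb_two A j
      show 2 ≤ (A j + 1) * bb A j
      nlinarith [Nat.zero_le (A j * bb A j)]

lemma ss_cast (A : ℕ → ℕ) (j m : ℕ) :
    (ss A (j + 1) m : ℤ) = A j + ((m : ℤ) + 1) * bb A (j + 1) - 2 + max ((m : ℤ) - 1) (1 - m) := by
  have h2 := bb_two A (j + 1)
  have h3 : 2 ≤ (m + 1) * bb A (j + 1) := by nlinarith [Nat.zero_le (m * bb A (j + 1))]
  have h4 : (((m + 1) * bb A (j + 1) : ℕ) : ℤ) = ((m : ℤ) + 1) * bb A (j + 1) := by push_cast; ring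
  have h5 : (ab1 m : ℤ) = max ((m : ℤ) - 1) (1 - m) := by
    unfold ab1; omega
  show ((A j + ((m + 1) * bb A (j + 1) - 2) + ab1 m : ℕ) : ℤ) = _
  rw [← h4, ← h5]
  omega

theorem proofB : StmtB := by
  intro A G W h hE
  have hA5 : ∀ j, 5 ≤ A j := fun j => by have := h.hA j; simpa using this
  have key : ∀ {x : Fin 3 → ℤ} {j m n : ℕ},
      IsV (fun j => (A j : ℤ)) (fun j => (bb A j : ℤ)) (G x) (W x) j m n → n < LL A j := by
    intro x j m n hx
    have := hx.2.2.1
    have h5 := hA5 (j + 1)
    unfold LL
    try simp only at this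
    omega
  constructor
  · -- uniq
    intro j m n j' m' n' x hx hy
    exact h.uniq hx hy
  · intro j m n x hx
    exact key hx
  · -- par_adj
    intro j m n x hx
    rw [h.pmap_eq hx]
    have hne : ∀ (c : Fin 3) (s : ℤ), (s = 1 ∨ s = -1) → x + Pi.single c s ≠ x := by
      intro c s hs hc
      have := congrFun hc c
      simp at this
      omega
    unfold parV
    split_ifs
    · rw [sub_single]; exact ⟨adj3_single _ _ _ (Or.inr rfl), hne _ _ (Or.inr rfl)⟩
    · exact ⟨adj3_single _ _ _ (Or.inl rfl), hne _ _ (Or.inl rfl)⟩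
    · rw [sub_single]; exact ⟨adj3_single _ _ _ (Or.inr rfl), hne _ _ (Or.inr rfl)⟩
    · rw [sub_single]; exact ⟨adj3_single _ _ _ (Or.inr rfl), hne _ _ (Or.inr rfl)⟩
  · -- par_succ
    intro j m n x hx
    rw [h.pmap_eq hx]
    exact h.parent_succ hx
  · -- par_zero
    intro j m x hx
    rw [h.pmap_eq hx]
    obtain ⟨-, m', n', hy, hn⟩ := h.parent_zero hx
    refine ⟨m', n', hy, ?_⟩
    have := ss_cast A j m'
    try simp only at hn
    omega
  · -- classify
    intro j m n j' m' n' x y hx hy hxy
    obtain ⟨c, s, hs, hyx⟩ := adj3_cases hxy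
    have hxy' : x = y + Pi.single c (-s) := by rw [hyx, Pi.single_neg]; abel
    rcases lt_trichotomy j j' with hlt | heq | hgt
    · obtain ⟨k, rfl⟩ : ∃ k, j' = k + 1 := ⟨j' - 1, by omega⟩
      left
      rw [h.pmap_eq hx]
      exact h.classify_low hy hx (by omega) (by omega : -s = 1 ∨ -s = -1) hxy'
    · subst heq
      rw [h.pmap_eq hx, h.pmap_eq hy]
      rcases h.classify_same hx hy hs hyx with h1 | h1 | ⟨h1, h2, h3⟩
      · exact Or.inl h1
      · exact Or.inr (Or.inl h1)
      · right; right
        refine ⟨rfl, h1, ?_, ?_⟩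
        · cases j with
          | zero =>
              have := key hx
              show n < LL A 0 + 1
              omega
          | succ j =>
              have := ss_cast A j m
              have h5 := hA5 j
              try simp only at h2
              omega
        · cases j with
          | zero =>
              have := key hx
              show n < LL A 0 + 1
              omega
          | succ j =>
              have := ss_cast A j m'
              have h5 := hA5 j
              try simp only at h3
              omega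
    · obtain ⟨k, rfl⟩ : ∃ k, j = k + 1 := ⟨j - 1, by omega⟩
      right; left
      rw [h.pmap_eq hy]
      exact h.classify_low hx hy (by omega) hs hyx
  · -- child_exists
    intro j m n x hx hn
    have h5 := hA5 (j + 1)
    unfold LL at hn
    obtain ⟨y, hy, hyp⟩ := h.child_exists hx (by omega)
    refine ⟨y, hy, ?_⟩
    rw [h.pmap_eq hy]; exact hyp
  · -- child_unique
    intro j m n x y z hx hy hz hyp hzp
    rw [h.pmap_eq hy] at hyp
    rw [h.pmap_eq hz] at hzp
    exact h.child_unique hy hz hyp hzp
  · -- side_exists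
    intro j m n x hx hs
    have := ss_cast A j m
    obtain ⟨m', y, hy, hyp⟩ := h.side_exists hx (by omega)
    refine ⟨m', y, hy, ?_⟩
    rw [h.pmap_eq hy]; exact hyp
  · -- side_unique
    intro j m m' x y z hy hz hyp hzp
    rw [h.pmap_eq hy, (h.parent_zero hy).1] at hyp
    rw [h.pmap_eq hz, (h.parent_zero hz).1] at hzp
    exact add_right_cancel (hyp.trans hzp.symm)
  · -- s_pos
    intro j m
    cases j with
    | zero => exact Nat.succ_pos _
    | succ j =>
        have h5 := hA5 j
        show 0 < A j + ((m + 1) * bb A (j + 1) - 2) + ab1 m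
        omega
  · -- s_bound
    intro j m n x hx
    obtain ⟨hb1, hb2, hb3⟩ := h.pat_bounds hx.2.1
    have h2 := ss_cast A j m
    have h3 := hE j
    have h5 := hA5 (j + 1)
    have hb := h.bsucc (j + 1)
    try simp only at hb1 hb2 hb3 hb
    have h4 : ((A (j + 1) * bb A (j + 1) : ℕ) : ℤ) = (A (j + 1) : ℤ) * bb A (j + 1) := by push_cast; ring
    unfold LL
    show ss A (j + 1) m + HH A (j + 1) < A (j + 2) - 1
    omega
  · -- s_zero
    intro m
    show LL A 0 ≤ LL A 0 + 1
    omega

end PTC
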