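import Pool.Agent.R958.PTC.GeoBase

namespace PTC

variable {A b : ℕ → ℤ} {G W : (Fin 3 → ℤ) → ℕ → ℤ}

lemma sub_single (x : Fin 3 → ℤ) (c : Fin 3) :
    x - Pi.single c (1 : ℤ) = x + Pi.single c (-1 : ℤ) := by
  rw [sub_eq_add_neg, ← Pi.single_neg]

namespace Addr

variable (h : Addr A b G W)
include h

lemma stepDir (x : Fin 3 → ℤ) (j : ℕ) (s : ℤ) (h0 : 0 ≤ G x j + s) (h1 : G x j + s < A j) :
    G (x + Pi.single (dir j) s) j = G x j + s ∧
    G (x + Pi.single (dir j) s) (j + 1) = G x (j + 1) ∧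
    W (x + Pi.single (dir j) s) (j + 1) = W x (j + 1) ∧
    Sim A b G W j x (x + Pi.single (dir j) s) := by
  have e1 : (Pi.single (dir j) s : Fin 3 → ℤ) (dir j) = s := by simp
  have e2 : (Pi.single (dir j) s : Fin 3 → ℤ) (dir (j + 1)) = 0 := by
    rw [Pi.single_eq_of_ne]; exact (dir_ne_succ j).symm
  have e3 : (Pi.single (dir j) s : Fin 3 → ℤ) 2 = 0 := by
    rw [Pi.single_eq_of_ne]; exact (dir_ne_two j).symm
  have a1 := h.G_nonneg x (j + 1)
  have a2 := h.G_lt x (j + 1)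
  have a3 := h.W_nonneg x (j + 1)
  have a4 := h.W_lt x (j + 1)
  refine ⟨?_, ?_, ?_, ?_⟩
  · rw [h.G_step (by rw [e1]; exact h0) (by rw [e1]; exact h1), e1]
  · rw [h.G_step (by rw [e2]; omega) (by rw [e2]; omega), e2, add_zero]
  · rw [h.W_step (by rw [e3]; omega) (by rw [e3]; omega), e3, add_zero]
  · apply h.sim_of_step <;> first | rw [e1]; omega | rw [e2]; omega | rw [e3]; omega

lemma stepDir1 (x : Fin 3 → ℤ) (j : ℕ) (s : ℤ) (h0 : 0 ≤ G x (j + 1) + s)
    (h1 : G x (j + 1) + s < A (j + 1)) :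
    G (x + Pi.single (dir (j + 1)) s) j = G x j ∧
    G (x + Pi.single (dir (j + 1)) s) (j + 1) = G x (j + 1) + s ∧
    W (x + Pi.single (dir (j + 1)) s) (j + 1) = W x (j + 1) ∧
    Sim A b G W j x (x + Pi.single (dir (j + 1)) s) := by
  have e1 : (Pi.single (dir (j + 1)) s : Fin 3 → ℤ) (dir j) = 0 := by
    rw [Pi.single_eq_of_ne]; exact (dir_ne_succ j)
  have e2 : (Pi.single (dir (j + 1)) s : Fin 3 → ℤ) (dir (j + 1)) = s := by simp
  have e3 : (Pi.single (dir (j + 1)) s : Fin 3 → ℤ) 2 = 0 := by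
    rw [Pi.single_eq_of_ne]; exact (dir_ne_two (j + 1)).symm
  have a1 := h.G_nonneg x j
  have a2 := h.G_lt x j
  have a3 := h.W_nonneg x (j + 1)
  have a4 := h.W_lt x (j + 1)
  refine ⟨?_, ?_, ?_, ?_⟩
  · rw [h.G_step (by rw [e1]; omega) (by rw [e1]; omega), e1, add_zero]
  · rw [h.G_step (by rw [e2]; exact h0) (by rw [e2]; exact h1), e2]
  · rw [h.W_step (by rw [e3]; omega) (by rw [e3]; omega), e3, add_zero]
  · apply h.sim_of_step <;> first | rw [e1]; omega | rw [e2]; omega | rw [e3]; omega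

lemma stepTwo (x : Fin 3 → ℤ) (j : ℕ) (s : ℤ) (h0 : 0 ≤ W x (j + 1) + s)
    (h1 : W x (j + 1) + s < b (j + 1)) :
    G (x + Pi.single 2 s) j = G x j ∧
    G (x + Pi.single 2 s) (j + 1) = G x (j + 1) ∧
    W (x + Pi.single 2 s) (j + 1) = W x (j + 1) + s ∧
    Sim A b G W j x (x + Pi.single 2 s) := by
  have e1 : (Pi.single 2 s : Fin 3 → ℤ) (dir j) = 0 := by
    rw [Pi.single_eq_of_ne]; exact (dir_ne_two j)
  have e2 : (Pi.single 2 s : Fin 3 → ℤ) (dir (j + 1)) = 0 := by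
    rw [Pi.single_eq_of_ne]; exact (dir_ne_two (j + 1))
  have e3 : (Pi.single 2 s : Fin 3 → ℤ) 2 = s := by simp
  have a1 := h.G_nonneg x j
  have a2 := h.G_lt x j
  have a3 := h.G_nonneg x (j + 1)
  have a4 := h.G_lt x (j + 1)
  refine ⟨?_, ?_, ?_, ?_⟩
  · rw [h.G_step (by rw [e1]; omega) (by rw [e1]; omega), e1, add_zero]
  · rw [h.G_step (by rw [e2]; omega) (by rw [e2]; omega), e2, add_zero]
  · rw [h.W_step (by rw [e3]; omega) (by rw [e3]; omega), e3]
  · apply h.sim_of_step <;> first | rw [e1]; omega | rw [e2]; omega | rw [e3]; omega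

/-- bounds on `(m+1) b_j` in terms of a pattern -/
lemma pat_bounds {x : Fin 3 → ℤ} {j m n : ℕ} (hp : pat A b (G x) (W x) j m n) :
    (m : ℤ) + 1 ≤ A j ∧ ((m : ℤ) + 1) * b j ≤ b (j + 1) - b j ∧ b j ≤ ((m : ℤ) + 1) * b j := by
  have hb2 := h.b_two j
  have hbs := h.bsucc j
  have hA := h.hA j
  have hm : (m : ℤ) + 1 ≤ A j := by
    have hG := h.G_lt x j
    have hW := h.W_lt x (j + 1)
    rw [hbs] at hW
    rcases hp with ⟨-, -, -, h4, -⟩ | ⟨-, -, h4, -⟩ | ⟨-, h4, -⟩ | ⟨-, h4, -⟩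
    · omega
    · omega
    · rw [h4] at hW
      nlinarith
    · rw [h4] at hW
      nlinarith
  refine ⟨hm, ?_, ?_⟩
  · rw [hbs]; nlinarith
  · nlinarith [(by positivity : (0:ℤ) ≤ (m:ℤ))]

/-- the parent of a vertex of index `n + 1` -/
lemma parent_succ {x : Fin 3 → ℤ} {j m n : ℕ} (hx : IsV A b (G x) (W x) j m (n + 1)) :
    IsV A b (G (parV (G x) j m x)) (W (parV (G x) j m x)) j m n := by
  have hp := hx.2.1
  have hn := hx.2.2.1
  obtain ⟨hb1, hb2, hb3⟩ := h.pat_bounds hp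
  have hbb := h.b_two j
  have hAj := h.hA j
  have hAj1 := h.hA (j + 1)
  have g0 := h.G_nonneg x j
  have g1 := h.G_lt x j
  have f0 := h.G_nonneg x (j + 1)
  have f1 := h.G_lt x (j + 1)
  have w0 := h.W_nonneg x (j + 1)
  have w1 := h.W_lt x (j + 1)
  push_cast at hn
  rcases hp with ⟨p1, p2, p3, p4, p5⟩ | ⟨p1, p2, p3, p4⟩ | ⟨p1, p2, p3, p4⟩ | ⟨p1, p2, p3, p4⟩
  · have e : parV (G x) j m x = x + Pi.single 2 (-1 : ℤ) := by
      unfold parV; rw [if_pos p1, sub_single]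
    push_cast at p5
    obtain ⟨s1, s2, s3, s4⟩ := h.stepTwo x j (-1) (by omega) (by omega)
    rw [e]
    refine IsV_transfer hx s4 (Or.inl ⟨by omega, by omega, ?_, by omega, by omega⟩) (by omega)
    rw [s3]; omega
  · have e : parV (G x) j m x = x + Pi.single (dir (j + 1)) (-1 : ℤ) := by
      unfold parV; rw [if_neg (by omega), if_neg (by omega), if_neg (by omega), sub_single]
    push_cast at p4
    obtain ⟨s1, s2, s3, s4⟩ := h.stepDir1 x j (-1) (by omega) (by omega)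
    rw [e]
    refine IsV_transfer hx s4 (Or.inl ⟨by omega, by omega, ?_, by omega, by omega⟩) (by omega)
    rw [s3]; omega
  · push_cast at p4
    rcases lt_trichotomy (G x j) m with hlt | heq | hgt
    · have e : parV (G x) j m x = x + Pi.single (dir j) (1 : ℤ) := by
        unfold parV; rw [if_neg (by omega), if_pos ⟨p1, hlt⟩]
      obtain ⟨s1, s2, s3, s4⟩ := h.stepDir x j 1 (by omega) (by omega)
      rw [e]
      refine IsV_transfer hx s4 (Or.inr (Or.inr (Or.inl ⟨by omega, ?_, by omega, ?_⟩))) (by omega)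
      · rw [s3]; exact p2
      · rw [s3, s1]; omega
    · have e : parV (G x) j m x = x + Pi.single (dir (j + 1)) (-1 : ℤ) := by
        unfold parV; rw [if_neg (by omega), if_neg (by omega), if_neg (by omega), sub_single]
      obtain ⟨s1, s2, s3, s4⟩ := h.stepDir1 x j (-1) (by omega) (by omega)
      rw [e]
      refine IsV_transfer hx s4 (Or.inr (Or.inl ⟨by omega, ?_, by omega, ?_⟩)) (by omega)
      · rw [s3]; exact p2
      · rw [s3]; omega
    · have e : parV (G x) j m x = x + Pi.single (dir j) (-1 : ℤ) := by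
        unfold parV; rw [if_neg (by omega), if_neg (by omega), if_pos ⟨p1, hgt⟩, sub_single]
      obtain ⟨s1, s2, s3, s4⟩ := h.stepDir x j (-1) (by omega) (by omega)
      rw [e]
      refine IsV_transfer hx s4 (Or.inr (Or.inr (Or.inl ⟨by omega, ?_, by omega, ?_⟩))) (by omega)
      · rw [s3]; exact p2
      · rw [s3, s1]; omega
  · have e : parV (G x) j m x = x + Pi.single (dir (j + 1)) (-1 : ℤ) := by
      unfold parV; rw [if_neg (by omega), if_neg (by omega), if_neg (by omega), sub_single]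
    push_cast at p4
    obtain ⟨s1, s2, s3, s4⟩ := h.stepDir1 x j (-1) (by omega) (by omega)
    rw [e]
    rcases eq_or_lt_of_le p1 with h4 | h5
    · refine IsV_transfer hx s4 (Or.inr (Or.inr (Or.inl ⟨by omega, ?_, by omega, ?_⟩))) (by omega)
      · rw [s3]; exact p2
      · rw [s3, s1]; omega
    · refine IsV_transfer hx s4 (Or.inr (Or.inr (Or.inr ⟨by omega, ?_, by omega, ?_⟩))) (by omega)
      · rw [s3]; exact p2
      · rw [s3, s2]; omega

/-- index `0` forces the `W` part with `w = 1`. -/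
lemma pat_zero {x : Fin 3 → ℤ} {j m : ℕ} (hp : pat A b (G x) (W x) j m (0 : ℕ)) :
    G x (j + 1) = 1 ∧ W x (j + 1) = 1 ∧ (m : ℤ) = G x j := by
  obtain ⟨hb1, hb2, hb3⟩ := h.pat_bounds hp
  have hbb := h.b_two j
  rcases hp with ⟨p1, p2, p3, p4, p5⟩ | ⟨p1, p2, p3, p4⟩ | ⟨p1, p2, p3, p4⟩ | ⟨p1, p2, p3, p4⟩
  · refine ⟨p1, ?_, p4⟩
    push_cast at p5; omega
  · push_cast at p4; omega
  · push_cast at p4; omega
  · push_cast at p4; omega

lemma parent_zero {x : Fin 3 → ℤ} {j m : ℕ} (hx : IsV A b (G x) (W x) j m 0) :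
    parV (G x) j m x = x + Pi.single 2 (-1 : ℤ) ∧
    ∃ m' n' : ℕ, IsV A b (G (parV (G x) j m x)) (W (parV (G x) j m x)) (j + 1) m' n' ∧
      A j + ((m' : ℤ) + 1) * b (j + 1) - 2 + max ((m' : ℤ) - 1) (1 - m') ≤ n' := by
  obtain ⟨z1, z2, z3⟩ := h.pat_zero hx.2.1
  have e : parV (G x) j m x = x + Pi.single 2 (-1 : ℤ) := by
    unfold parV; rw [if_pos z1, sub_single]
  refine ⟨e, ?_⟩
  rw [e]
  obtain ⟨hq, hp, hn, ht, hu⟩ := hx
  have hu1 := hu (j + 1) le_rfl
  obtain ⟨u1, u2, u3⟩ := hu1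
  have hd := h.G_dec x j
  have hwd := h.W_dec x (j + 1)
  have hA := h.hA j
  have hb2 := h.b_two (j + 1)
  have hile := h.i_le x (j + 1)
  have hbs := h.bsucc (j + 1)
  have hWlt := h.W_lt x (j + 1 + 1)
  set i := W x (j + 1 + 1) / b (j + 1) with hi
  have hbi : b (j + 1) * 1 ≤ b (j + 1) * i := by
    apply mul_le_mul_of_nonneg_left u1 (by omega)
  obtain ⟨s1, s2, s3, s4⟩ := h.stepTwo x (j + 1) (-1) (by omega) (by omega)
  have hAq : A j * 1 ≤ A j * (G x (j + 2) / A j) := mul_le_mul_of_nonneg_left hq (by omega)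
  have hg := h.G_nonneg x j
  obtain ⟨m', hm'⟩ : ∃ m' : ℕ, (m' : ℤ) = i - 1 := ⟨(i - 1).toNat, by omega⟩
  have hmul : ((m' : ℤ) + 1) * b (j + 1) = b (j + 1) * i := by rw [hm']; ring
  obtain ⟨n', hn'⟩ : ∃ n' : ℕ, (n' : ℤ) = b (j + 1) * i - 2 + max ((m' : ℤ) - 1) (1 - m')
      + G x (j + 2) := ⟨(b (j + 1) * i - 2 + max ((m' : ℤ) - 1) (1 - m') + G x (j + 2)).toNat, by omega⟩
  refine ⟨m', n', ⟨?_, ?_, ?_, ?_, ?_⟩, ?_⟩
  · rw [s4.1 (j + 1) le_rfl]; exact u2
  · refine Or.inr (Or.inr (Or.inr ⟨?_, ?_, ?_, ?_⟩))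
    · rw [s2]
      show 4 ≤ G x (j + 2)
      omega
    · rw [s3, hmul]; omega
    · rw [s1]; exact z1
    · rw [s3, s2]
      show (n' : ℤ) = W x (j + 1 + 1) + -1 + 1 + max ((m' : ℤ) - 1) (1 - m') + (G x (j + 2) - 3)
      omega
  · show (n' : ℤ) ≤ A (j + 2) - 2
    have ht' := ht
    unfold sg at ht'
    have e2 : (i - 1 + 1) * b (j + 1) = b (j + 1) * i := by ring
    rw [e2] at ht'
    omega
  · rw [s4.1 (j + 1) le_rfl, s4.2 (j + 2) (by omega), hm']
    exact u3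
  · intro l hl
    exact upOK_congr (s4.2 l (by omega)) (s4.1 l (by omega)) (s4.2 (l + 1) (by omega))
      (hu l (by omega))
  · rw [hmul]; omega

end Addr

end PTC
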