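import Mathlib

/-!
The clustering dynamics of MP_81329c_pr / MP_37d2f2_pr on `ℤ^d = (Fin d → ℤ)`.
-/

open MeasureTheory
open scoped ENNReal unitInterval

namespace PTC

/-- The graph `ℤ^d`: `x, y` are adjacent when `|x - y|₁ = 1`. -/
def latticeGraph (d : ℕ) : SimpleGraph (Fin d → ℤ) where
  Adj x y := ∑ i, |x i - y i| = 1
  symm := ⟨fun x y h => by simpa [abs_sub_comm] using h⟩
  loopless := ⟨fun x h => by simp at h⟩

/-- The closed neighbourhood `N(x) = {y : |x - y|₁ ≤ 1}`, as a finite set. -/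
noncomputable def nbhd {d : ℕ} (x : Fin d → ℤ) : Finset (Fin d → ℤ) :=
  (Finset.Icc (x - 1) (x + 1)).filter (fun y => ∑ i, |x i - y i| ≤ 1)

/-- `M(x)`: the set of `y ∈ N(x)` at which `C` attains its maximum over `N(x)`. -/
noncomputable def maxSet {d : ℕ} (C : (Fin d → ℤ) → ℝ≥0∞) (x : Fin d → ℤ) :
    Finset (Fin d → ℤ) :=
  open scoped Classical in
  (nbhd x).filter (fun y => ∀ z ∈ nbhd x, C z ≤ C y)

/-- The element number `⌊u |M|⌋` of the nonempty finite set `M` (in a fixed enumeration): if `u` is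
uniform on `[0,1]` this is a uniform element of `M`. -/
noncomputable def pick {V : Type} (M : Finset V) (u : I) (x : V) : V :=
  M.toList.getD (min ⌊(u : ℝ) * M.card⌋₊ (M.card - 1)) x

/-- `a(x)`: `x` itself if `C x = 0`, and the (uniformly chosen) element `v(x)` of `M(x)`
otherwise; `u x` is the random number used at `x`. -/
noncomputable def act {d : ℕ} (C : (Fin d → ℤ) → ℝ≥0∞) (u : (Fin d → ℤ) → I)
    (x : Fin d → ℤ) : Fin d → ℤ :=
  open scoped Classical in
  if C x = 0 then x else pick (maxSet C x) (u x) x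

/-- The configurations `C_0, C_1, C_2, …` of the clustering dynamics;
`u (n, x)` is the random number used at the site `x` at time `n`. -/
noncomputable def run {d : ℕ} (C0 : (Fin d → ℤ) → ℝ≥0∞) (u : ℕ × (Fin d → ℤ) → I) :
    ℕ → (Fin d → ℤ) → ℝ≥0∞
  | 0 => C0
  | n + 1 => fun x => ∑' y, open scoped Classical in
      if act (run C0 u n) (fun z => u (n, z)) y = x then run C0 u n y else 0

/-- The law of the i.i.d. uniform random numbers used for the choices. -/
noncomputable def choiceLaw (d : ℕ) : Measure (ℕ × (Fin d → ℤ) → I) :=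
  Measure.infinitePi (fun _ => volume)

/-- `γ` is an infinite self-avoiding path of `F` starting at `x`. -/
def IsRay {d : ℕ} (F : (latticeGraph d).Subgraph) (x : Fin d → ℤ) (γ : ℕ → Fin d → ℤ) : Prop :=
  γ 0 = x ∧ Function.Injective γ ∧ ∀ n, F.Adj (γ n) (γ (n + 1))

/-- `F` has no cycles and all its components are one-ended: each vertex starts exactly one infinite
self-avoiding path. -/
def OneEndedForest {d : ℕ} (F : (latticeGraph d).Subgraph) : Prop :=
  F.spanningCoe.IsAcyclic ∧ ∀ x ∈ F.verts, ∃! γ, IsRay F x γ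

/-- `y` is the parent of `x`: the first step of an infinite self-avoiding path from `x`. -/
def IsParent {d : ℕ} (F : (latticeGraph d).Subgraph) (x y : Fin d → ℤ) : Prop :=
  ∃ γ, IsRay F x γ ∧ γ 1 = y

/-- The law of the random configuration `C0` is invariant under all translations. -/
def TranslationInvariant {d : ℕ} {Ω : Type} [MeasurableSpace Ω] (μ : Measure Ω)
    (C0 : Ω → (Fin d → ℤ) → ℝ≥0∞) : Prop :=
  ∀ z : Fin d → ℤ, μ.map (fun ω x => C0 ω (x + z)) = μ.map C0

/-- Hypothesis (H). -/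
def HypH {d : ℕ} {Ω : Type} [MeasurableSpace Ω] (μ : Measure Ω)
    (C0 : Ω → (Fin d → ℤ) → ℝ≥0∞) : Prop :=
  0 < μ {ω | 0 < C0 ω 0} ∧
  ∃ F : Ω → (latticeGraph d).Subgraph,
    (∀ x, MeasurableSet {ω | x ∈ (F ω).verts}) ∧
    (∀ x y, MeasurableSet {ω | (F ω).Adj x y}) ∧
    (∀ᵐ ω ∂μ, OneEndedForest (F ω)) ∧
    (∀ᵐ ω ∂μ, {x | 0 < C0 ω x} = (F ω).verts) ∧
    (∀ᵐ p ∂(μ.prod (choiceLaw d)), ∀ n x, 0 < run (C0 p.1) p.2 n x →
      IsParent (F p.1) x (act (run (C0 p.1) p.2 n) (fun z => p.2 (n, z)) x))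

end PTC
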