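import Pool.Agent.R958.PTC.GeoMain
import Pool.Agent.R958.PTC.Model

namespace PTC

variable {d : ℕ} (hd : 3 ≤ d)

/-- first three coordinates -/
def prj (x : Fin d → ℤ) : Fin 3 → ℤ := fun c => x (Fin.castLE hd c)

/-- replace the first three coordinates of `x` by `u` -/
def rep (x : Fin d → ℤ) (u : Fin 3 → ℤ) : Fin d → ℤ :=
  fun i => if h : i.val < 3 then u ⟨i.val, h⟩ else x i

lemma prj_rep (x : Fin d → ℤ) (u : Fin 3 → ℤ) : prj hd (rep x u) = u := by
  funext c
  simp [prj, rep]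

lemma rep_of_ge (x : Fin d → ℤ) (u : Fin 3 → ℤ) {i : Fin d} (hi : 3 ≤ i.val) : rep x u i = x i := by
  unfold rep; rw [dif_neg (by omega)]

lemma eq_of_prj {x y : Fin d → ℤ} (h1 : prj hd x = prj hd y)
    (h2 : ∀ i : Fin d, 3 ≤ i.val → x i = y i) : x = y := by
  funext i
  by_cases hi : i.val < 3
  · have := congrFun h1 ⟨i.val, hi⟩
    simpa [prj] using this
  · exact h2 i (by omega)

lemma sum_split (f : Fin d → ℤ) :
    ∑ i, f i = ∑ c : Fin 3, f (Fin.castLE hd c) + ∑ i with ¬ (i.val < 3), f i := by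
  rw [← Finset.sum_filter_add_sum_filter_not Finset.univ (fun i : Fin d => i.val < 3)]
  congr 1
  symm
  apply Finset.sum_nbij (fun c => Fin.castLE hd c)
  · intro c _
    simp
  · intro a _ b _ hab
    exact Fin.castLE_injective hd hab
  · intro i hi
    simp only [Finset.coe_filter, Finset.mem_univ, true_and, Set.mem_setOf_eq] at hi
    exact ⟨⟨i.val, hi⟩, by simp, by ext; simp⟩
  · intro c _; rfl

lemma adj_split {x y : Fin d → ℤ} (h2 : ∀ i : Fin d, 3 ≤ i.val → x i = y i) :
    (latticeGraph d).Adj x y ↔ adj3 (prj hd x) (prj hd y) := by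
  show ∑ i, |x i - y i| = 1 ↔ ∑ i, |prj hd x i - prj hd y i| = 1
  rw [sum_split hd]
  have : ∑ i with ¬ (i.val < 3), |x i - y i| = 0 := by
    apply Finset.sum_eq_zero
    intro i hi
    simp only [Finset.mem_filter, Finset.mem_univ, true_and] at hi
    rw [h2 i (by omega)]; simp
  rw [this, add_zero]
  rfl

/-- parity condition on the coordinates `≥ 3` -/
def EvenRest (r x : Fin d → ℤ) : Prop := ∀ i : Fin d, 3 ≤ i.val → (r i + x i) % 2 = 0

lemma rest_eq {r x y : Fin d → ℤ} (hx : EvenRest r x) (hy : EvenRest r y)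
    (hxy : (latticeGraph d).Adj x y) : ∀ i : Fin d, 3 ≤ i.val → x i = y i := by
  intro i hi
  have h1 := hx i hi
  have h2 := hy i hi
  have hs : ∑ i, |x i - y i| = 1 := hxy
  have h3 : |x i - y i| ≤ ∑ i, |x i - y i| :=
    Finset.single_le_sum (f := fun i => |x i - y i|) (fun i _ => abs_nonneg _) (Finset.mem_univ i)
  rw [hs] at h3
  rcases abs_cases (x i - y i) with h | h <;> omega

theorem lift_treeSys {L H : ℕ → ℕ} {s : ℕ → ℕ → ℕ} {R3 : ℕ → ℕ → ℕ → (Fin 3 → ℤ) → Prop}
    {p3 : (Fin 3 → ℤ) → (Fin 3 → ℤ)} (h : TreeSys adj3 L H s R3 p3) (r : Fin d → ℤ) :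
    TreeSys (latticeGraph d).Adj L H s
      (fun j m n x => R3 j m n (prj hd x) ∧ EvenRest r x)
      (fun x => rep x (p3 (prj hd x))) := by
  have hrep : ∀ (x : Fin d → ℤ) (u : Fin 3 → ℤ), EvenRest r x → EvenRest r (rep x u) := by
    intro x u hx i hi
    rw [rep_of_ge x u hi]; exact hx i hi
  have hadj : ∀ (x : Fin d → ℤ) (u : Fin 3 → ℤ),
      (latticeGraph d).Adj x (rep x u) ↔ adj3 (prj hd x) u := by
    intro x u
    rw [adj_split hd (fun i hi => (rep_of_ge x u hi).symm), prj_rep]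
  constructor
  · intro j m n j' m' n' x hx hy
    exact h.uniq _ _ _ _ _ _ _ hx.1 hy.1
  · intro j m n x hx
    exact h.lt _ _ _ _ hx.1
  · intro j m n x hx
    obtain ⟨h1, h2⟩ := h.par_adj _ _ _ _ hx.1
    refine ⟨(hadj _ _).2 h1, fun hc => h2 ?_⟩
    have := congrArg (prj hd) hc
    rwa [prj_rep] at this
  · intro j m n x hx
    refine ⟨?_, hrep _ _ hx.2⟩
    rw [prj_rep]
    exact h.par_succ _ _ _ _ hx.1
  · intro j m x hx
    obtain ⟨m', n', h1, h2⟩ := h.par_zero _ _ _ hx.1
    refine ⟨m', n', ⟨?_, hrep _ _ hx.2⟩, h2⟩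
    rw [prj_rep]; exact h1
  · intro j m n j' m' n' x y hx hy hxy
    have hr := rest_eq hx.2 hy.2 hxy
    have h3 := (adj_split hd hr).1 hxy
    rcases h.classify _ _ _ _ _ _ _ _ hx.1 hy.1 h3 with h4 | h4 | h4
    · left
      apply eq_of_prj hd
      · rw [prj_rep]; exact h4
      · intro i hi; rw [rep_of_ge _ _ hi]; exact (hr i hi).symm
    · right; left
      apply eq_of_prj hd
      · rw [prj_rep]; exact h4
      · intro i hi; rw [rep_of_ge _ _ hi]; exact hr i hi
    · right; right; exact h4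
  · intro j m n x hx hn
    obtain ⟨y, hy, hyp⟩ := h.child_exists _ _ _ _ hx.1 hn
    refine ⟨rep x y, ⟨?_, hrep _ _ hx.2⟩, ?_⟩
    · rw [prj_rep]; exact hy
    · apply eq_of_prj hd
      · rw [prj_rep, prj_rep]; exact hyp
      · intro i hi; rw [rep_of_ge _ _ hi, rep_of_ge _ _ hi]
  · intro j m n x y z hx hy hz hyp hzp
    apply eq_of_prj hd
    · apply h.child_unique j m n (prj hd x) _ _ hx.1 hy.1 hz.1
      · have := congrArg (prj hd) hyp
        rwa [prj_rep] at this
      · have := congrArg (prj hd) hzp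
        rwa [prj_rep] at this
    · intro i hi
      have h1 := congrFun hyp i
      have h2 := congrFun hzp i

      rw [rep_of_ge _ _ hi] at h1 h2
      rw [h1, h2]
  · intro j m n x hx hs
    obtain ⟨m', y, hy, hyp⟩ := h.side_exists _ _ _ _ hx.1 hs
    refine ⟨m', rep x y, ⟨?_, hrep _ _ hx.2⟩, ?_⟩
    · rw [prj_rep]; exact hy
    · apply eq_of_prj hd
      · rw [prj_rep, prj_rep]; exact hyp
      · intro i hi; rw [rep_of_ge _ _ hi, rep_of_ge _ _ hi]
  · intro j m m' x y z hy hz hyp hzp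
    apply eq_of_prj hd
    · apply h.side_unique j m m' (prj hd x) _ _ hy.1 hz.1
      · have := congrArg (prj hd) hyp
        rwa [prj_rep] at this
      · have := congrArg (prj hd) hzp
        rwa [prj_rep] at this
    · intro i hi
      have h1 := congrFun hyp i
      have h2 := congrFun hzp i

      rw [rep_of_ge _ _ hi] at h1 h2
      rw [h1, h2]
  · exact h.s_pos
  · intro j m n x hx
    exact h.s_bound _ _ _ _ hx.1
  · exact h.s_zero

end PTC
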