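import Pool.Agent.R958.PTC.Stmts

/-!
Piece D of the project PTC (MP_81329c_pr): the odometer (helper608).
-/

open MeasureTheory
open scoped ENNReal

set_option autoImplicit false

namespace PTC

namespace PieceD

noncomputable section

/-- the ambient group -/
abbrev Amb (d : ℕ) : Type := (n : ℕ) → Fin d → ZMod (n + 1)

/-- the profinite integers to the power `d` -/
def Zh (d : ℕ) : AddSubgroup (Amb d) where
  carrier := {f | ∀ (m n : ℕ) (h : (m + 1) ∣ (n + 1)) (c : Fin d),
    ZMod.castHom h (ZMod (m + 1)) (f n c) = f m c}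
  add_mem' := by
    intro a b ha hb m n h c
    rw [Pi.add_apply, Pi.add_apply, map_add, ha m n h c, hb m n h c]
    rfl
  zero_mem' := by
    intro m n h c
    rw [Pi.zero_apply, Pi.zero_apply, map_zero]
    rfl
  neg_mem' := by
    intro a ha m n h c
    rw [Pi.neg_apply, Pi.neg_apply, map_neg, ha m n h c]
    rfl

lemma isClosed_Zh (d : ℕ) : IsClosed (Zh d : Set (Amb d)) := by
  have : (Zh d : Set (Amb d)) = ⋂ (m : ℕ) (n : ℕ) (h : (m + 1) ∣ (n + 1)) (c : Fin d),
      {f : Amb d | ZMod.castHom h (ZMod (m + 1)) (f n c) = f m c} := by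
    ext f
    simp only [Set.mem_iInter]
    rfl
  rw [this]
  refine isClosed_iInter fun m => isClosed_iInter fun n => isClosed_iInter fun h =>
    isClosed_iInter fun c => ?_
  refine isClosed_eq ?_ ?_
  · exact (continuous_of_discreteTopology (f := ZMod.castHom h (ZMod (m + 1)))).comp
      ((continuous_apply c).comp (continuous_apply n))
  · exact (continuous_apply c).comp (continuous_apply m)

instance (d : ℕ) : CompactSpace (Zh d) := isCompact_iff_compactSpace.1 (isClosed_Zh d).isCompact

instance (d : ℕ) : MeasurableSpace (Zh d) := borel _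
instance (d : ℕ) : BorelSpace (Zh d) := ⟨rfl⟩

/-- the Haar probability -/
def mu (d : ℕ) : Measure (Zh d) := Measure.addHaarMeasure ⊤

instance (d : ℕ) : IsProbabilityMeasure (mu d) := by
  constructor
  have := Measure.addHaarMeasure_self (G := Zh d) (K₀ := ⊤)
  simpa [mu] using this

/-- the image of `ℤ^d` -/
def emb (d : ℕ) (x : Fin d → ℤ) : Zh d :=
  ⟨fun _ c => (x c : ZMod _), fun m n h c => by simp⟩

lemma emb_add (d : ℕ) (x y : Fin d → ℤ) : emb d (x + y) = emb d x + emb d y := by
  apply Subtype.ext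
  funext n c
  change ((x + y) c : ZMod (n + 1)) = (x c : ZMod (n + 1)) + (y c : ZMod (n + 1))
  simp

lemma emb_zero (d : ℕ) : emb d 0 = 0 := by
  apply Subtype.ext
  funext n c
  change ((0 : ℤ) : ZMod (n + 1)) = 0
  simp

/-- residues -/
def res (d : ℕ) (m : ℕ) (c : Fin d) (ω : Zh d) : ℤ := ((ω.1 (m - 1) c).val : ℤ)

lemma measurable_res (d m : ℕ) (c : Fin d) : Measurable (res d m c) := by
  have h : Continuous (res d m c) := by
    have h1 : Continuous fun a : ZMod (m - 1 + 1) => (a.val : ℤ) := continuous_of_discreteTopology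
    exact h1.comp ((continuous_apply c).comp ((continuous_apply (m - 1)).comp
      continuous_subtype_val))
  exact h.measurable

lemma val_add_int {k : ℕ} [NeZero k] (a : ZMod k) (z : ℤ) :
    ((a + (z : ZMod k)).val : ℤ) = ((a.val : ℤ) + z) % k := by
  have h : a + (z : ZMod k) = (((a.val : ℤ) + z : ℤ) : ZMod k) := by
    push_cast
    rw [ZMod.natCast_zmod_val]
  rw [h, ZMod.val_intCast]

lemma res_T (d m : ℕ) (c : Fin d) (x : Fin d → ℤ) (ω : Zh d) (hm : 0 < m) :
    res d m c (emb d x + ω) = (res d m c ω + x c) % (m : ℤ) := by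
  have h1 : (emb d x + ω).1 (m - 1) c = ω.1 (m - 1) c + (x c : ZMod (m - 1 + 1)) := by
    rw [add_comm (emb d x)]
    rfl
  unfold res
  rw [h1, val_add_int]
  congr 1
  push_cast
  omega

lemma res_bound (d m : ℕ) (c : Fin d) (ω : Zh d) (hm : 0 < m) :
    0 ≤ res d m c ω ∧ res d m c ω < (m : ℤ) := by
  have h := ZMod.val_lt (ω.1 (m - 1) c)
  unfold res
  constructor
  · positivity
  · omega

lemma res_mod (d m m' : ℕ) (c : Fin d) (ω : Zh d) (hm : 0 < m) (hm' : 0 < m') (h : m ∣ m') :
    res d m' c ω % (m : ℤ) = res d m c ω := by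
  obtain ⟨k, rfl⟩ : ∃ k, m = k + 1 := ⟨m - 1, by omega⟩
  obtain ⟨k', rfl⟩ : ∃ k, m' = k + 1 := ⟨m' - 1, by omega⟩
  have h1 : ZMod.castHom h (ZMod (k + 1)) (ω.1 k' c) = ω.1 k c := ω.2 k k' h c
  change ((ω.1 k' c).val : ℤ) % ((k + 1 : ℕ) : ℤ) = ((ω.1 k c).val : ℤ)
  rw [← h1]
  have h2 : ω.1 k' c = (((ω.1 k' c).val : ℤ) : ZMod (k' + 1)) := by
    push_cast
    rw [ZMod.natCast_zmod_val]
  conv_rhs => rw [h2, map_intCast, ZMod.val_intCast]

lemma mp (d : ℕ) (x : Fin d → ℤ) :
    MeasurePreserving (fun ω : Zh d => emb d x + ω) (mu d) (mu d) := by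
  unfold mu
  exact measurePreserving_add_left _ _

lemma meas_eq (d m : ℕ) (c : Fin d) (hm : 0 < m) (a : ℤ) (h0 : 0 ≤ a) (h1 : a < m) :
    mu d {ω | res d m c ω = a} = mu d {ω | res d m c ω = 0} := by
  have h := (mp d (Pi.single c (-a))).measure_preimage
    (s := {ω | res d m c ω = 0}) ((measurable_res d m c (measurableSet_singleton 0)).nullMeasurableSet)
  rw [← h]
  congr 1
  ext ω
  simp only [Set.mem_ofPred_eq, Set.mem_preimage]
  rw [res_T d m c _ ω hm, Pi.single_eq_same]
  obtain ⟨h2, h3⟩ := res_bound d m c ω hm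
  constructor
  · intro h
    rw [h]
    simp
  · intro h
    have h4 := Int.emod_emod_of_dvd
    have h5 : (m : ℤ) ∣ (res d m c ω + -a) := Int.dvd_of_emod_eq_zero h
    obtain ⟨k, hk⟩ := h5
    have h6 : k = 0 := by
      have h7 : (m : ℤ) * k < m := by omega
      have h8 : -(m : ℤ) < (m : ℤ) * k := by omega
      have hm' : (0 : ℤ) < m := by exact_mod_cast hm
      have h9 : k < 1 := by
        by_contra hc
        push Not at hc
        nlinarith
      have h10 : -1 < k := by
        by_contra hc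
        push Not at hc
        nlinarith
      omega
    subst h6
    omega

lemma meas_val (d m : ℕ) (c : Fin d) (hm : 0 < m) (a : ℤ) (h0 : 0 ≤ a) (h1 : a < m) :
    mu d {ω | res d m c ω = a} = (m : ℝ≥0∞)⁻¹ := by
  have hu : (Set.univ : Set (Zh d)) = ⋃ a ∈ Finset.range m, {ω | res d m c ω = (a : ℤ)} := by
    ext ω
    simp only [Set.mem_univ, Set.mem_iUnion, Finset.mem_range, Set.mem_ofPred_eq, exists_prop,
      true_iff]
    obtain ⟨h2, h3⟩ := res_bound d m c ω hm
    exact ⟨(res d m c ω).toNat, by omega, by omega⟩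
  have h2 : mu d Set.univ = ∑ a ∈ Finset.range m, mu d {ω | res d m c ω = (a : ℤ)} := by
    conv_lhs => rw [hu]
    refine measure_biUnion_finset ?_ ?_
    · intro x _ y _ hxy
      rw [Function.onFun, Set.disjoint_left]
      intro ω hx hy
      apply hxy
      have : (x : ℤ) = y := by rw [← hx, ← hy]
      exact_mod_cast this
    · intro x _
      exact measurable_res d m c (measurableSet_singleton _)
  have h3 : ∑ a ∈ Finset.range m, mu d {ω | res d m c ω = (a : ℤ)} =
      (m : ℝ≥0∞) * mu d {ω | res d m c ω = 0} := by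
    have h4 : ∀ a ∈ Finset.range m, mu d {ω | res d m c ω = ((a : ℕ) : ℤ)} =
        mu d {ω | res d m c ω = 0} := fun a ha =>
      meas_eq d m c hm (a : ℤ) (by positivity) (by exact_mod_cast Finset.mem_range.1 ha)
    rw [Finset.sum_congr rfl h4, Finset.sum_const, Finset.card_range, nsmul_eq_mul]
  rw [h3, measure_univ] at h2
  rw [meas_eq d m c hm a h0 h1]
  exact ENNReal.eq_inv_of_mul_eq_one_left (by rw [mul_comm]; exact h2.symm)

end

end PieceD

open PieceD in
theorem proofD : StmtD := by
  intro d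
  refine ⟨Zh d, inferInstance, mu d, inferInstance, fun x ω => emb d x + ω, res d,
    fun x => mp d x, ?_, ?_, fun m c => measurable_res d m c, fun m c ω hm => res_bound d m c ω hm,
    fun m c x ω hm => res_T d m c x ω hm, fun m m' c ω hm hm' h => res_mod d m m' c ω hm hm' h,
    fun m c a hm h0 h1 => meas_val d m c hm a h0 h1⟩
  · intro x y ω
    change emb d (x + y) + ω = emb d x + (emb d y + ω)
    rw [emb_add, add_assoc]
  · intro ω
    change emb d 0 + ω = ω
    rw [emb_zero, zero_add]

end PTC
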