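import Pool.Agent.R958.PTC.Stmts

/-!
Piece E of the project PTC (MP_81329c_pr): existence of rapidly growing parameters (helper608).
-/

set_option autoImplicit false

namespace PTC

namespace PieceE

/-- the approximations of the sequence -/
def appr (Φ : (ℕ → ℕ) → ℕ → ℕ) (a : ℕ) : ℕ → ℕ → ℕ
  | 0 => fun _ => a
  | j + 1 => Function.update (appr Φ a j) (j + 1)
      (appr Φ a j (j - 1) * (Φ (appr Φ a j) j + 1))

lemma appr_stable (Φ : (ℕ → ℕ) → ℕ → ℕ) (a : ℕ) (i k : ℕ) :
    appr Φ a (i + k) i = appr Φ a i i := by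
  induction k with
  | zero => rfl
  | succ k ih =>
    rw [← add_assoc, appr, Function.update_of_ne (by omega), ih]

lemma exists_seq (Φ : (ℕ → ℕ) → ℕ → ℕ)
    (hΦ : ∀ A B j, (∀ i, i ≤ j → A i = B i) → Φ A j = Φ B j) (a : ℕ) :
    ∃ A : ℕ → ℕ, A 0 = a ∧ ∀ j, A (j + 1) = A (j - 1) * (Φ A j + 1) := by
  refine ⟨fun j => appr Φ a j j, rfl, fun j => ?_⟩
  have h1 : ∀ i, i ≤ j → appr Φ a j i = appr Φ a i i := by
    intro i hi
    obtain ⟨k, rfl⟩ := Nat.exists_eq_add_of_le hi
    exact appr_stable Φ a i k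
  change appr Φ a (j + 1) (j + 1) = appr Φ a (j - 1) (j - 1) * (Φ (fun j => appr Φ a j j) j + 1)
  rw [appr, Function.update_self, h1 (j - 1) (by omega), hΦ _ _ j h1]

lemma bb_congr {A B : ℕ → ℕ} (j : ℕ) (h : ∀ i, i ≤ j → A i = B i) : bb A j = bb B j := by
  induction j with
  | zero => rfl
  | succ j ih =>
    rw [bb, bb, ih fun i hi => h i (by omega), h j (by omega)]

lemma HH_congr {A B : ℕ → ℕ} (j : ℕ) (h : ∀ i, i ≤ j → A i = B i) : HH A j = HH B j := by
  induction j with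
  | zero => rfl
  | succ j ih =>
    rw [HH, HH, ih fun i hi => h i (by omega), LL, LL, h (j + 1) le_rfl]

lemma QQ_congr {A B : ℕ → ℕ} (j : ℕ) (h : ∀ i, i ≤ j → A i = B i) : QQ A j = QQ B j := by
  induction j with
  | zero => rfl
  | succ j ih =>
    rw [QQ, QQ, ih fun i hi => h i (by omega), HH_congr j fun i hi => h i (by omega), LL, LL,
      h (j + 1) le_rfl]

/-- the required growth -/
noncomputable def Phi (A : ℕ → ℕ) (j : ℕ) : ℕ :=
  5 + 2 ^ (j + 5) + (A (j - 1) + A j * bb A j + A j + HH A j + 2) +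
  2 ^ (j + 3) * (A j * bb A j + A j + 2 * A (j - 1) + 2) +
  ⌈(2 : ℝ) ^ (j + 1) * (QQ A j 0 + 2 + GG (QQ A j) (HH A j) + 2)⌉₊ +
  ⌈(2 : ℝ) ^ j * ((QQ A j 0 + 2 + GG (QQ A j) (HH A j)) * (4 + A (j - 1) + HH A j))⌉₊

lemma Phi_g1 (A : ℕ → ℕ) (j : ℕ) : 5 + 2 ^ (j + 5) ≤ Phi A j := by
  unfold Phi
  refine le_trans ?_ (Nat.le_add_right _ _)
  refine le_trans ?_ (Nat.le_add_right _ _)
  refine le_trans ?_ (Nat.le_add_right _ _)
  exact Nat.le_add_right _ _

lemma Phi_g2 (A : ℕ → ℕ) (j : ℕ) :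
    A (j - 1) + A j * bb A j + A j + HH A j + 2 ≤ Phi A j := by
  unfold Phi
  refine le_trans ?_ (Nat.le_add_right _ _)
  refine le_trans ?_ (Nat.le_add_right _ _)
  refine le_trans ?_ (Nat.le_add_right _ _)
  exact Nat.le_add_left _ _

lemma Phi_g3 (A : ℕ → ℕ) (j : ℕ) :
    2 ^ (j + 3) * (A j * bb A j + A j + 2 * A (j - 1) + 2) ≤ Phi A j := by
  unfold Phi
  refine le_trans ?_ (Nat.le_add_right _ _)
  refine le_trans ?_ (Nat.le_add_right _ _)
  exact Nat.le_add_left _ _

lemma Phi_congr (A B : ℕ → ℕ) (j : ℕ) (h : ∀ i, i ≤ j → A i = B i) : Phi A j = Phi B j := by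
  unfold Phi
  rw [bb_congr j h, HH_congr j h, QQ_congr j h, h (j - 1) (by omega), h j le_rfl]

end PieceE

open PieceE in
theorem proofE : StmtE := by
  obtain ⟨A, h0, hA⟩ := exists_seq Phi Phi_congr 16
  have hpos : ∀ j, 0 < A j := by
    intro j
    induction j using Nat.strong_induction_on with
    | _ j ih =>
      cases j with
      | zero => rw [h0]; norm_num
      | succ j =>
        rw [hA]
        have := ih (j - 1) (by omega)
        positivity
  have hge : ∀ j, Phi A j ≤ A (j + 1) := by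
    intro j
    rw [hA]
    have := hpos (j - 1)
    nlinarith
  have hgeR : ∀ j, (Phi A j : ℝ) ≤ A (j + 1) := fun j => by exact_mod_cast hge j
  have hc1 : ∀ j, (2 : ℝ) ^ (j + 1) * (QQ A j 0 + 2 + GG (QQ A j) (HH A j) + 2) ≤ A (j + 1) := by
    intro j
    refine (Nat.le_ceil _).trans (le_trans ?_ (hgeR j))
    have : ⌈(2 : ℝ) ^ (j + 1) * (QQ A j 0 + 2 + GG (QQ A j) (HH A j) + 2)⌉₊ ≤ Phi A j := by
      unfold Phi
      exact (Nat.le_add_left _ _).trans (Nat.le_add_right _ _)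
    exact_mod_cast this
  have hc2 : ∀ j, (2 : ℝ) ^ j * ((QQ A j 0 + 2 + GG (QQ A j) (HH A j)) *
      (4 + A (j - 1) + HH A j)) ≤ A (j + 1) := by
    intro j
    refine (Nat.le_ceil _).trans (le_trans ?_ (hgeR j))
    have : ⌈(2 : ℝ) ^ j * ((QQ A j 0 + 2 + GG (QQ A j) (HH A j)) *
      (4 + A (j - 1) + HH A j))⌉₊ ≤ Phi A j := by
      unfold Phi
      exact Nat.le_add_left _ _
    exact_mod_cast this
  have hbig : ∀ j, 5 + 2 ^ (j + 5) ≤ A (j + 1) := by
    exact fun j => (Phi_g1 A j).trans (hge j)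
  refine ⟨A, ?_, ?_, ?_, ?_, ?_, ?_, ?_⟩
  · intro j
    cases j with
    | zero => rw [h0]; norm_num
    | succ j =>
      have := hbig j
      have h2 := Nat.zero_le (2 ^ (j + 5))
      generalize 2 ^ (j + 5) = z at *
      omega
  · intro j
    rw [hA (j + 1)]
    exact Dvd.intro _ rfl
  · intro j
    exact (Phi_g2 A (j + 1)).trans (hge (j + 1))
  · intro j
    cases j with
    | zero => rw [h0]; norm_num
    | succ j =>
      have := hbig j
      have h2 : 2 ^ (j + 1 + 4) = 2 ^ (j + 5) := by ring_nf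
      rw [h2]
      generalize 2 ^ (j + 5) = z at *
      omega
  · intro j
    exact (Phi_g3 A (j + 1)).trans (hge (j + 1))
  · intro j
    cases j with
    | zero =>
      rw [h0]
      simp only [QQ]
      norm_num
    | succ j =>
      have h1 := hc1 j
      have hL : 0 < LL A j := by
        unfold LL
        have := hbig j
        generalize 2 ^ (j + 5) = z at *
        omega
      have h2 : QQ A (j + 1) 0 = QQ A j 0 + 2 + GG (QQ A j) (HH A j) := by
        rw [QQ, nextP, if_pos hL]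
        simp [GG]
      rw [h2]
      exact h1
  · exact hc2

end PTC
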