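import Pool.Agent.R958.PTC.Prob
import Pool.Agent.R958.PTC.PieceD
import Pool.Agent.R958.PTC.PieceE

open MeasureTheory
open scoped ENNReal unitInterval

namespace PTC

variable {d : ℕ} (hd : 3 ≤ d) {Ω : Type} [MeasurableSpace Ω] {μ : Measure Ω}
  {T : (Fin d → ℤ) → Ω → Ω} {res : ℕ → Fin d → Ω → ℤ} {A : ℕ → ℕ}

lemma dir_zero' : dir 0 = 0 := rfl
lemma dir_one' : dir 1 = 1 := rfl

/-- if all levels are admissible at `ω`, then some site carries a vertex -/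
lemma exists_vertex (ho : Odo d Ω μ T res) (hA : GoodPar A) (ω : Ω)
    (hup : ∀ l, upOK (fun j => (A j : ℤ)) (fun j => (bb A j : ℤ))
      (GG3 hd res A ω 0) (WW3 hd res A ω 0) l) :
    ∃ x : Fin d → ℤ, 0 < gfun hd res A 0 (T x ω) := by
  have had := addr hd ho hA ω
  set G := GG3 hd res A ω with hG
  set W := WW3 hd res A ω with hW
  let z : Fin 3 → ℤ := ![- G 0 0, 1 - G 0 1, 1 - W 0 1]
  have z0 : z (dir 0) = - G 0 0 := rfl
  have z1 : z (dir (0 + 1)) = 1 - G 0 1 := rfl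
  have z2 : z 2 = 1 - W 0 1 := rfl
  have a0 := had.G_nonneg 0 0
  have a1 := had.G_lt 0 0
  have a2 := had.G_nonneg 0 1
  have a3 := had.G_lt 0 1
  have a4 := had.W_nonneg 0 1
  have a5 := had.W_lt 0 1
  have e0 := had.hA 0
  have e1 := had.hA 1
  have eb := had.b_two 0
  have eb1 := had.b_two 1
  have hsim := had.sim_of_step (x := 0) (z := z) (j := 0) (by rw [z0]; omega) (by rw [z0]; omega)
    (by rw [z1]; show 0 ≤ G 0 1 + _; omega) (by rw [z1]; show G 0 1 + _ < (A 1 : ℤ); omega)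
    (by rw [z2]; show 0 ≤ W 0 1 + _; omega) (by rw [z2]; show W 0 1 + _ < (bb A 1 : ℤ); omega)
  have g0 : G (0 + z) 0 = 0 := by
    rw [had.G_step (by rw [z0]; omega) (by rw [z0]; omega), z0]; omega
  have g1 : G (0 + z) 1 = 1 := by
    rw [had.G_step (j := 1) (by show 0 ≤ G 0 1 + z (dir (0 + 1)); rw [z1]; omega)
      (by show G 0 1 + z (dir (0 + 1)) < _; rw [z1]; omega)]
    show G 0 1 + z (dir (0 + 1)) = 1
    rw [z1]; omega
  have w1 : W (0 + z) 1 = 1 := by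
    rw [had.W_step (j := 1) (by rw [z2]; omega) (by rw [z2]; omega), z2]; omega
  have hu0 := hup 0
  obtain ⟨u1, u2, u3⟩ := hu0
  have hV : IsV (fun j => (A j : ℤ)) (fun j => (bb A j : ℤ)) (G (0 + z)) (W (0 + z)) 0 0 0 := by
    refine ⟨?_, Or.inl ⟨g1, ?_, ?_, ?_, ?_⟩, ?_, ?_, ?_⟩
    · rw [hsim.1 0 le_rfl]; exact u2
    · show 1 ≤ W (0 + z) 1; omega
    · show W (0 + z) 1 ≤ _
      rw [w1]
      show (1 : ℤ) ≤ (((0 : ℕ) : ℤ) + 1) * (bb A 0 : ℤ)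
      push_cast; omega
    · show ((0 : ℕ) : ℤ) = G (0 + z) 0
      rw [g0]; rfl
    · show ((0 : ℕ) : ℤ) = W (0 + z) 1 - 1
      rw [w1]; rfl
    · show ((0 : ℕ) : ℤ) ≤ (A 1 : ℤ) - 2
      push_cast; omega
    · rw [hsim.1 0 le_rfl, hsim.2 1 le_rfl]
      have u3' : (A 0 : ℤ) * (G 0 (0 + 2) / (A 0 : ℤ)) + (W 0 (0 + 1) / (bb A 0 : ℤ) - 1) +
        sg (fun j => (bb A j : ℤ)) (0 + 1) (W 0 (0 + 2) / (bb A (0 + 1) : ℤ) - 1)
          ≤ (A (0 + 2) : ℤ) - 2 := u3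
      have u1' : 1 ≤ W 0 (0 + 1) / (bb A 0 : ℤ) := u1
      show (A 0 : ℤ) * (G 0 (0 + 2) / (A 0 : ℤ)) + ((0 : ℕ) : ℤ) +
        sg (fun j => (bb A j : ℤ)) (0 + 1) (W 0 (0 + 2) / (bb A (0 + 1) : ℤ) - 1)
          ≤ (A (0 + 2) : ℤ) - 2
      push_cast
      linarith
    · intro l hl
      exact upOK_congr (hsim.2 l hl) (hsim.1 l (by omega)) (hsim.2 (l + 1) (by omega)) (hup l)
  let x : Fin d → ℤ := rep (fun i => - res 2 i ω) (0 + z)
  refine ⟨x, (pos_iff_main hd ω ho hA x).2 ⟨0, 0, 0, ?_, ?_⟩⟩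
  · show IsV _ _ (G (prj hd x)) (W (prj hd x)) 0 0 0
    have : prj hd x = 0 + z := prj_rep hd _ _
    rw [this]; exact hV
  · intro i hi
    show (res 2 i ω + x i) % 2 = 0
    have : x i = - res 2 i ω := rep_of_ge _ _ hi
    rw [this]; simp

lemma GG3_zero (ho : Odo d Ω μ T res) (hA : GoodPar A) (ω : Ω) (l : ℕ) :
    GG3 hd res A ω 0 l = gd hd res A ω l := by
  have hA0 : 0 < A l := by have := hA.e1 l; omega
  have := ho.res_range (A l) (Fin.castLE hd (dir l)) ω hA0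
  unfold GG3 gd
  rw [Pi.zero_apply, add_zero, Int.emod_eq_of_lt this.1 this.2]

lemma WW3_zero (ho : Odo d Ω μ T res) (ω : Ω) (l : ℕ) :
    WW3 hd res A ω 0 l = wd hd res A ω l := by
  have hA0 : 0 < bb A l := by have := bb_two A l; omega
  have := ho.res_range (bb A l) (Fin.castLE hd 2) ω hA0
  unfold WW3 wd
  rw [Pi.zero_apply, add_zero, Int.emod_eq_of_lt this.1 this.2]

lemma not_upOK_cases (ho : Odo d Ω μ T res) (hA : GoodPar A) (ω : Ω) (l : ℕ)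
    (hn : ¬ upOK (fun j => (A j : ℤ)) (fun j => (bb A j : ℤ))
      (GG3 hd res A ω 0) (WW3 hd res A ω 0) l) :
    (0 ≤ wd hd res A ω (l + 1) ∧ wd hd res A ω (l + 1) < 0 + (bb A l : ℕ)) ∨
    (0 ≤ gd hd res A ω (l + 2) ∧ gd hd res A ω (l + 2) < 0 + (A l : ℕ)) ∨
    ((A (l + 2) : ℤ) - (A (l + 1) * bb A (l + 1) + A (l + 1) + A l : ℕ) ≤ gd hd res A ω (l + 2) ∧
      gd hd res A ω (l + 2) < (A (l + 2) : ℤ) - (A (l + 1) * bb A (l + 1) + A (l + 1) + A l : ℕ) +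
        (A (l + 1) * bb A (l + 1) + A (l + 1) + A l : ℕ)) := by
  have had := addr hd ho hA ω
  by_contra hcon
  push Not at hcon
  obtain ⟨c1, c2, c3⟩ := hcon
  apply hn
  rw [← WW3_zero hd ho ω (l + 1)] at c1
  rw [← GG3_zero hd ho hA ω (l + 2)] at c2 c3
  set G := GG3 hd res A ω with hG
  set W := WW3 hd res A ω with hW
  have d1 := c1 (had.W_nonneg 0 (l + 1))
  have d2 := c2 (had.G_nonneg 0 (l + 2))
  have a1 := had.G_lt 0 (l + 2)
  have hAl := had.hA l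
  have hAl1 := had.hA (l + 1)
  have hb := had.b_two l
  have hb1 := had.b_two (l + 1)
  have hi := had.i_le 0 l
  have hi1 := had.i_le 0 (l + 1)
  have hi1' := had.i_nonneg 0 (l + 1)
  have hdec := had.G_dec 0 l
  have g0 := had.G_nonneg 0 l
  have hAl' : (5 : ℤ) ≤ (A l : ℤ) := hAl
  have hAl1' : (5 : ℤ) ≤ (A (l + 1) : ℤ) := hAl1
  have hb' : (2 : ℤ) ≤ (bb A l : ℤ) := hb
  have hb1' : (2 : ℤ) ≤ (bb A (l + 1) : ℤ) := hb1
  refine ⟨?_, ?_, ?_⟩
  · show 1 ≤ W 0 (l + 1) / (bb A l : ℤ)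
    rw [Int.le_ediv_iff_mul_le (by omega)]
    omega
  · show 1 ≤ G 0 (l + 2) / (A l : ℤ)
    rw [Int.le_ediv_iff_mul_le (by omega)]
    omega
  · show (A l : ℤ) * (G 0 (l + 2) / (A l : ℤ)) + (W 0 (l + 1) / (bb A l : ℤ) - 1)
      + sg (fun j => (bb A j : ℤ)) (l + 1) (W 0 (l + 2) / (bb A (l + 1) : ℤ) - 1) ≤ (A (l + 2) : ℤ) - 2
    have hi' : W 0 (l + 1) / (bb A l : ℤ) ≤ (A l : ℤ) := hi
    have hi1a : W 0 (l + 2) / (bb A (l + 1) : ℤ) ≤ (A (l + 1) : ℤ) := hi1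
    have hi1b : 0 ≤ W 0 (l + 2) / (bb A (l + 1) : ℤ) := hi1'
    have hdec' : G 0 (l + 2) = (A l : ℤ) * (G 0 (l + 2) / (A l : ℤ)) + G 0 l := hdec
    have a1' : G 0 (l + 2) < (A (l + 2) : ℤ) := a1
    unfold sg
    set i' := W 0 (l + 2) / (bb A (l + 1) : ℤ)
    have hmul : i' * (bb A (l + 1) : ℤ) ≤ (A (l + 1) : ℤ) * (bb A (l + 1) : ℤ) :=
      mul_le_mul_of_nonneg_right hi1a (by omega)
    have e : (i' - 1 + 1) * (bb A (l + 1) : ℤ) = i' * (bb A (l + 1) : ℤ) := by ring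
    have hlt : G 0 (l + 2) < (A (l + 2) : ℤ) - (A (l + 1) * bb A (l + 1) + A (l + 1) + A l : ℕ) := by
      by_contra hcc
      push Not at hcc
      have := c3 hcc
      omega
    push_cast at hlt
    simp only
    rw [e]
    omega

lemma pow_two_half (l : ℕ) : (2 : ℝ≥0∞)⁻¹ ^ (l + 4) * 2 = (2 : ℝ≥0∞)⁻¹ ^ (l + 3) := by
  rw [pow_succ, mul_assoc, ENNReal.inv_mul_cancel (by norm_num) (by norm_num), mul_one]

lemma measure_not_upOK (ho : Odo d Ω μ T res) (hA : GoodPar A) (l : ℕ) :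
    μ {ω | ¬ upOK (fun j => (A j : ℤ)) (fun j => (bb A j : ℤ))
      (GG3 hd res A ω 0) (WW3 hd res A ω 0) l} ≤ (2 : ℝ≥0∞)⁻¹ ^ (l + 3) := by
  have hAl := hA.e1 l
  have hAl2 := hA.e1 (l + 2)
  have hb := bb_two A l
  have hb1 := bb_two A (l + 1)
  set N := A (l + 1) * bb A (l + 1) + A (l + 1) + A l with hN
  have hsub : {ω | ¬ upOK (fun j => (A j : ℤ)) (fun j => (bb A j : ℤ))
      (GG3 hd res A ω 0) (WW3 hd res A ω 0) l} ⊆
      {ω | 0 ≤ res (bb A (l + 1)) (Fin.castLE hd 2) ω ∧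
        res (bb A (l + 1)) (Fin.castLE hd 2) ω < 0 + (bb A l : ℕ)} ∪
      ({ω | 0 ≤ res (A (l + 2)) (Fin.castLE hd (dir (l + 2))) ω ∧
        res (A (l + 2)) (Fin.castLE hd (dir (l + 2))) ω < 0 + (A l : ℕ)} ∪
      {ω | (A (l + 2) : ℤ) - N ≤ res (A (l + 2)) (Fin.castLE hd (dir (l + 2))) ω ∧
        res (A (l + 2)) (Fin.castLE hd (dir (l + 2))) ω < (A (l + 2) : ℤ) - N + (N : ℕ)}) := by
    intro ω hω
    rcases not_upOK_cases hd ho hA ω l hω with h | h | h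
    · exact Or.inl h
    · exact Or.inr (Or.inl h)
    · exact Or.inr (Or.inr h)
  refine (measure_mono hsub).trans ?_
  refine (measure_union_le _ _).trans ?_
  rw [← pow_two_half l, mul_two]
  refine add_le_add ?_ ((measure_union_le _ _).trans ?_)
  · refine (res_window ho _ (by omega) _ _ _).trans ?_
    apply nat_mul_inv_le (by omega)
    have h4 := hA.e4 l
    show 2 ^ (l + 4) * bb A l ≤ (A l + 1) * bb A l
    exact Nat.mul_le_mul_right _ (by omega)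
  · refine (add_le_add (res_window ho _ (by omega) _ _ _) (res_window ho _ (by omega) _ _ _)).trans ?_
    rw [← add_mul, ← Nat.cast_add]
    apply nat_mul_inv_le (by omega)
    refine le_trans (Nat.mul_le_mul_left _ ?_) (hA.e5 l)
    omega

lemma meas_upOK0 (ho : Odo d Ω μ T res) (hA : GoodPar A) (l : ℕ) :
    MeasurableSet {ω | ¬ upOK (fun j => (A j : ℤ)) (fun j => (bb A j : ℤ))
      (GG3 hd res A ω 0) (WW3 hd res A ω 0) l} := by
  have hg := meas_gd (A := A) hd ho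
  have hw := meas_wd (A := A) hd ho
  have hm : Measurable (fun ω => (wd hd res A ω (l + 1), gd hd res A ω (l + 2),
      wd hd res A ω (l + 2))) := (hw (l + 1)).prodMk ((hg (l + 2)).prodMk (hw (l + 2)))
  have := hm (MeasurableSet.of_discrete (s := {z : ℤ × ℤ × ℤ |
      ¬ (1 ≤ z.1 / (bb A l : ℤ) ∧ 1 ≤ z.2.1 / (A l : ℤ) ∧
      (A l : ℤ) * (z.2.1 / (A l : ℤ)) + (z.1 / (bb A l : ℤ) - 1)
      + sg (fun j => (bb A j : ℤ)) (l + 1) (z.2.2 / (bb A (l + 1) : ℤ) - 1)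
        ≤ (A (l + 2) : ℤ) - 2)}))
  have e : {ω | ¬ upOK (fun j => (A j : ℤ)) (fun j => (bb A j : ℤ))
      (GG3 hd res A ω 0) (WW3 hd res A ω 0) l} =
      (fun ω => (wd hd res A ω (l + 1), gd hd res A ω (l + 2),
      wd hd res A ω (l + 2))) ⁻¹' {z : ℤ × ℤ × ℤ |
      ¬ (1 ≤ z.1 / (bb A l : ℤ) ∧ 1 ≤ z.2.1 / (A l : ℤ) ∧
      (A l : ℤ) * (z.2.1 / (A l : ℤ)) + (z.1 / (bb A l : ℤ) - 1)
      + sg (fun j => (bb A j : ℤ)) (l + 1) (z.2.2 / (bb A (l + 1) : ℤ) - 1)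
        ≤ (A (l + 2) : ℤ) - 2)} := by
    ext ω
    simp only [Set.mem_ofPred_eq, Set.mem_preimage]
    unfold upOK
    rw [GG3_zero hd ho hA, WW3_zero hd ho, WW3_zero hd ho]
  rw [e]; exact this

lemma tail_sum : ∑' l : ℕ, (2 : ℝ≥0∞)⁻¹ ^ (l + 3) < 1 := by
  simp_rw [pow_add]
  rw [ENNReal.tsum_mul_right, ENNReal.tsum_geometric, ENNReal.one_sub_inv_two, inv_inv]
  have : (2 : ℝ≥0∞) * 2⁻¹ ^ 3 = 2⁻¹ * 2⁻¹ := by
    rw [pow_succ, pow_two, ← mul_assoc, ← mul_assoc, ENNReal.mul_inv_cancel (by norm_num) (by norm_num), one_mul]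
  rw [this]
  have h2 : (2 : ℝ≥0∞)⁻¹ < 1 := ENNReal.inv_lt_one.mpr (by norm_num)
  calc (2 : ℝ≥0∞)⁻¹ * 2⁻¹ ≤ 2⁻¹ * 1 := mul_le_mul_right h2.le _
    _ < 1 := by rw [mul_one]; exact h2

theorem pos_main [IsProbabilityMeasure μ] (ho : Odo d Ω μ T res) (hA : GoodPar A) :
    0 < μ {ω | 0 < gfun hd res A 0 (T 0 ω)} := by
  rw [pos_iff_ne_zero]
  intro hzero
  have hms : MeasurableSet {ω | 0 < gfun hd res A 0 ω} :=
    measurableSet_lt measurable_const (meas_gfun hd ho 0)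
  have hzero' : μ {ω | 0 < gfun hd res A 0 ω} = 0 := by
    have : {ω | 0 < gfun hd res A 0 (T 0 ω)} = {ω | 0 < gfun hd res A 0 ω} := by
      ext ω; simp only [ho.T_zero]
    rwa [this] at hzero
  have hx : ∀ x : Fin d → ℤ, μ {ω | 0 < gfun hd res A 0 (T x ω)} = 0 := by
    intro x
    have := (ho.mp x).measure_preimage hms.nullMeasurableSet
    rw [hzero'] at this
    exact this
  have hU : μ (⋃ x : Fin d → ℤ, {ω | 0 < gfun hd res A 0 (T x ω)}) = 0 :=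
    measure_iUnion_null hx
  have hbad : μ (⋃ l, {ω | ¬ upOK (fun j => (A j : ℤ)) (fun j => (bb A j : ℤ))
      (GG3 hd res A ω 0) (WW3 hd res A ω 0) l}) < 1 :=
    lt_of_le_of_lt ((measure_iUnion_le _).trans (ENNReal.tsum_le_tsum fun l =>
      measure_not_upOK hd ho hA l)) tail_sum
  have huniv : (Set.univ : Set Ω) ⊆ (⋃ x : Fin d → ℤ, {ω | 0 < gfun hd res A 0 (T x ω)}) ∪
      (⋃ l, {ω | ¬ upOK (fun j => (A j : ℤ)) (fun j => (bb A j : ℤ))
      (GG3 hd res A ω 0) (WW3 hd res A ω 0) l}) := by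
    intro ω _
    by_cases h : ∀ l, upOK (fun j => (A j : ℤ)) (fun j => (bb A j : ℤ))
      (GG3 hd res A ω 0) (WW3 hd res A ω 0) l
    · left
      obtain ⟨x, hx⟩ := exists_vertex hd ho hA ω h
      exact Set.mem_iUnion.mpr ⟨x, hx⟩
    · right
      push Not at h
      obtain ⟨l, hl⟩ := h
      exact Set.mem_iUnion.mpr ⟨l, hl⟩
  have h1 : μ Set.univ ≤ 0 + μ (⋃ l, {ω | ¬ upOK (fun j => (A j : ℤ)) (fun j => (bb A j : ℤ))
      (GG3 hd res A ω 0) (WW3 hd res A ω 0) l}) := by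
    rw [← hU]
    exact (measure_mono huniv).trans (measure_union_le _ _)
  rw [measure_univ, zero_add] at h1
  exact absurd hbad (not_lt.mpr h1)

/-! ### measurability of the forest -/

lemma meas_forest_adj (ho : Odo d Ω μ T res) (x y : Fin d → ℤ) :
    MeasurableSet {ω | (forestOf (fun x => gfun hd res A 0 (T x ω))).Adj x y} := by
  have hm : ∀ x : Fin d → ℤ, Measurable (fun ω => gfun hd res A 0 (T x ω)) := fun x =>
    (meas_gfun hd ho 0).comp (ho.mp x).measurable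
  have hlt : ∀ x y : Fin d → ℤ, MeasurableSet
      {ω | gfun hd res A 0 (T x ω) < gfun hd res A 0 (T y ω)} := fun x y =>
    measurableSet_lt (hm x) (hm y)
  have hpos : ∀ x : Fin d → ℤ, MeasurableSet {ω | 0 < gfun hd res A 0 (T x ω)} := fun x =>
    measurableSet_lt measurable_const (hm x)
  have hall : ∀ x y : Fin d → ℤ, MeasurableSet
      {ω | ∀ z ∈ nbhd x, z ≠ y → gfun hd res A 0 (T z ω) < gfun hd res A 0 (T y ω)} := by
    intro x y
    have : {ω | ∀ z ∈ nbhd x, z ≠ y → gfun hd res A 0 (T z ω) < gfun hd res A 0 (T y ω)} =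
        ⋂ z, ⋂ (_ : z ∈ nbhd x), ⋂ (_ : z ≠ y),
          {ω | gfun hd res A 0 (T z ω) < gfun hd res A 0 (T y ω)} := by
      ext ω; simp
    rw [this]
    exact MeasurableSet.iInter fun z => MeasurableSet.iInter fun _ => MeasurableSet.iInter fun _ =>
      hlt z y
  have : {ω | (forestOf (fun x => gfun hd res A 0 (T x ω))).Adj x y} =
      {ω | 0 < gfun hd res A 0 (T x ω)} ∩ ({ω | 0 < gfun hd res A 0 (T y ω)} ∩
      ({ω | (latticeGraph d).Adj x y} ∩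
      ({ω | ∀ z ∈ nbhd x, z ≠ y → gfun hd res A 0 (T z ω) < gfun hd res A 0 (T y ω)} ∪
       {ω | ∀ z ∈ nbhd y, z ≠ x → gfun hd res A 0 (T z ω) < gfun hd res A 0 (T x ω)}))) := by
    ext ω; rfl
  rw [this]
  exact (hpos x).inter ((hpos y).inter ((MeasurableSet.const _).inter ((hall x y).union (hall y x))))

/-- the main theorem -/
theorem main (d : ℕ) (hd : 3 ≤ d) :
    ∃ (Ω : Type) (_ : MeasurableSpace Ω) (μ : Measure Ω) (_ : IsProbabilityMeasure μ)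
      (C0 : Ω → (Fin d → ℤ) → ℝ≥0∞),
      Measurable C0 ∧ TranslationInvariant μ C0 ∧ HypH μ C0 ∧
      ∀ x, ∫⁻ ω, C0 ω x ∂μ < ⊤ := by
  obtain ⟨A, hA⟩ := proofE
  obtain ⟨Ω, mΩ, μ, hμ, T, res, h1, h2, h3, h4, h5, h6, h7, h8⟩ := proofD d
  have ho : Odo d Ω μ T res := ⟨h1, h2, h3, h4, h5, h6, h7, h8⟩
  refine ⟨Ω, mΩ, μ, hμ, fun ω x => gfun hd res A 0 (T x ω), meas_C0 hd ho, transInv hd ho,
    ⟨pos_main hd ho hA, fun ω => forestOf (fun x => gfun hd res A 0 (T x ω)), ?_, ?_, ?_, ?_, ?_⟩,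
    ?_⟩
  · intro x
    exact measurableSet_lt measurable_const ((meas_gfun hd ho 0).comp (ho.mp x).measurable)
  · exact meas_forest_adj hd ho
  · exact Filter.Eventually.of_forall fun ω => (det_main hd ω ho hA).1
  · exact Filter.Eventually.of_forall fun ω => rfl
  · exact Filter.Eventually.of_forall fun p => (det_main hd p.1 ho hA).2 p.2
  · intro x
    have := (ho.mp x).lintegral_comp (meas_gfun (A := A) hd ho 0)
    rw [this]
    exact mean_lt_top hd ho hA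

end PTC
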