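import Pool.Agent.R958.PTC.Config

open MeasureTheory
open scoped ENNReal unitInterval

namespace PTC

variable {d : ℕ} (hd : 3 ≤ d) {Ω : Type} [MeasurableSpace Ω] {μ : Measure Ω}
  {T : (Fin d → ℤ) → Ω → Ω} {res : ℕ → Fin d → Ω → ℤ} {A : ℕ → ℕ}

/-! ### measurability -/

lemma meas_gd (ho : Odo d Ω μ T res) (j : ℕ) : Measurable (fun ω => gd hd res A ω j) :=
  ho.res_meas _ _
lemma meas_wd (ho : Odo d Ω μ T res) (j : ℕ) : Measurable (fun ω => wd hd res A ω j) :=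
  ho.res_meas _ _

lemma meas_RO (ho : Odo d Ω μ T res) (j m n : ℕ) :
    MeasurableSet {ω | RO hd res A ω j m n} := by
  have hg := meas_gd (A := A) hd ho
  have hw := meas_wd (A := A) hd ho
  have h1 : MeasurableSet {ω | 1 ≤ gd hd res A ω (j + 2) / (A j : ℤ)} :=
    hg (j + 2) (MeasurableSet.of_discrete (s := {z : ℤ | 1 ≤ z / (A j : ℤ)}))
  have h2 : MeasurableSet {ω | pat (fun j => (A j : ℤ)) (fun j => (bb A j : ℤ))
      (gd hd res A ω) (wd hd res A ω) j m n} := by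
    have hm : Measurable (fun ω => (gd hd res A ω j, gd hd res A ω (j + 1), wd hd res A ω (j + 1))) :=
      (hg j).prodMk ((hg (j + 1)).prodMk (hw (j + 1)))
    exact hm (MeasurableSet.of_discrete (s := {z : ℤ × ℤ × ℤ |
      (z.2.1 = 1 ∧ 1 ≤ z.2.2 ∧ z.2.2 ≤ ((m : ℤ) + 1) * (bb A j : ℤ) ∧ (m : ℤ) = z.1 ∧
        (n : ℤ) = z.2.2 - 1) ∨
      (z.2.1 = 2 ∧ z.2.2 = ((m : ℤ) + 1) * (bb A j : ℤ) ∧ (m : ℤ) = z.1 ∧ (n : ℤ) = z.2.2) ∨
      (z.2.1 = 3 ∧ z.2.2 = ((m : ℤ) + 1) * (bb A j : ℤ) ∧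
        ((1 ≤ z.1 ∧ z.1 ≤ (m : ℤ)) ∨ ((m : ℤ) ≤ z.1 ∧ z.1 ≤ 1)) ∧
        (n : ℤ) = z.2.2 + 1 + max ((m : ℤ) - z.1) (z.1 - m)) ∨
      (4 ≤ z.2.1 ∧ z.2.2 = ((m : ℤ) + 1) * (bb A j : ℤ) ∧ z.1 = 1 ∧
        (n : ℤ) = z.2.2 + 1 + max ((m : ℤ) - 1) (1 - m) + (z.2.1 - 3))}))
  have h3 : MeasurableSet {ω : Ω | (n : ℤ) ≤ (A (j + 1) : ℤ) - 2} := MeasurableSet.const _
  have h4 : MeasurableSet {ω | (A j : ℤ) * (gd hd res A ω (j + 2) / (A j : ℤ)) + m +
      sg (fun j => (bb A j : ℤ)) (j + 1) (wd hd res A ω (j + 2) / (bb A (j + 1) : ℤ) - 1)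
        ≤ (A (j + 2) : ℤ) - 2} := by
    have hm : Measurable (fun ω => (gd hd res A ω (j + 2), wd hd res A ω (j + 2))) :=
      (hg (j + 2)).prodMk (hw (j + 2))
    exact hm (MeasurableSet.of_discrete (s := {z : ℤ × ℤ |
      (A j : ℤ) * (z.1 / (A j : ℤ)) + m +
      sg (fun j => (bb A j : ℤ)) (j + 1) (z.2 / (bb A (j + 1) : ℤ) - 1) ≤ (A (j + 2) : ℤ) - 2}))
  have h5 : ∀ l, MeasurableSet {ω | upOK (fun j => (A j : ℤ)) (fun j => (bb A j : ℤ))
      (gd hd res A ω) (wd hd res A ω) l} := by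
    intro l
    have hm : Measurable (fun ω => (wd hd res A ω (l + 1), gd hd res A ω (l + 2),
      wd hd res A ω (l + 2))) := (hw (l + 1)).prodMk ((hg (l + 2)).prodMk (hw (l + 2)))
    exact hm (MeasurableSet.of_discrete (s := {z : ℤ × ℤ × ℤ |
      1 ≤ z.1 / (bb A l : ℤ) ∧ 1 ≤ z.2.1 / (A l : ℤ) ∧
      (A l : ℤ) * (z.2.1 / (A l : ℤ)) + (z.1 / (bb A l : ℤ) - 1)
      + sg (fun j => (bb A j : ℤ)) (l + 1) (z.2.2 / (bb A (l + 1) : ℤ) - 1)
        ≤ (A (l + 2) : ℤ) - 2}))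
  have h6 : MeasurableSet {ω | ∀ l, j + 1 ≤ l → upOK (fun j => (A j : ℤ)) (fun j => (bb A j : ℤ))
      (gd hd res A ω) (wd hd res A ω) l} := by
    have : {ω | ∀ l, j + 1 ≤ l → upOK (fun j => (A j : ℤ)) (fun j => (bb A j : ℤ))
      (gd hd res A ω) (wd hd res A ω) l} = ⋂ l, ⋂ (_ : j + 1 ≤ l), {ω | upOK (fun j => (A j : ℤ))
        (fun j => (bb A j : ℤ)) (gd hd res A ω) (wd hd res A ω) l} := by
      ext ω; simp
    rw [this]
    exact MeasurableSet.iInter fun l => MeasurableSet.iInter fun _ => h5 l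
  have h7 : MeasurableSet {ω | ∀ i : Fin d, 3 ≤ i.val → res 2 i ω = 0} := by
    have : {ω | ∀ i : Fin d, 3 ≤ i.val → res 2 i ω = 0} =
        ⋂ i : Fin d, ⋂ (_ : 3 ≤ i.val), {ω | res 2 i ω = 0} := by
      ext ω; simp
    rw [this]
    exact MeasurableSet.iInter fun i => MeasurableSet.iInter fun _ =>
      ho.res_meas 2 i (MeasurableSet.of_discrete (s := {z : ℤ | z = 0}))
  have : {ω | RO hd res A ω j m n} =
      (({ω | 1 ≤ gd hd res A ω (j + 2) / (A j : ℤ)} ∩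
      ({ω | pat (fun j => (A j : ℤ)) (fun j => (bb A j : ℤ))
        (gd hd res A ω) (wd hd res A ω) j m n} ∩
      ({ω : Ω | (n : ℤ) ≤ (A (j + 1) : ℤ) - 2} ∩
      ({ω | (A j : ℤ) * (gd hd res A ω (j + 2) / (A j : ℤ)) + m +
      sg (fun j => (bb A j : ℤ)) (j + 1) (wd hd res A ω (j + 2) / (bb A (j + 1) : ℤ) - 1)
        ≤ (A (j + 2) : ℤ) - 2} ∩
      {ω | ∀ l, j + 1 ≤ l → upOK (fun j => (A j : ℤ)) (fun j => (bb A j : ℤ))
        (gd hd res A ω) (wd hd res A ω) l})))) ∩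
      {ω | ∀ i : Fin d, 3 ≤ i.val → res 2 i ω = 0}) := by
    ext ω; rfl
  rw [this]
  exact (h1.inter (h2.inter (h3.inter (h4.inter h6)))).inter h7

lemma meas_gfun (ho : Odo d Ω μ T res) (k : ℕ) : Measurable (gfun hd res A k) := by
  classical
  unfold gfun
  apply Measurable.tsum
  intro a
  refine Measurable.ite (meas_RO hd ho _ _ _) measurable_const measurable_const

lemma meas_C0 (ho : Odo d Ω μ T res) :
    Measurable (fun ω (x : Fin d → ℤ) => gfun hd res A 0 (T x ω)) :=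
  measurable_pi_lambda _ fun x => (meas_gfun hd ho 0).comp (ho.mp x).measurable

lemma transInv (ho : Odo d Ω μ T res) :
    TranslationInvariant μ (fun ω (x : Fin d → ℤ) => gfun hd res A 0 (T x ω)) := by
  intro z
  have h1 : (fun ω (x : Fin d → ℤ) => gfun hd res A 0 (T (x + z) ω)) =
      (fun ω (x : Fin d → ℤ) => gfun hd res A 0 (T x ω)) ∘ T z := by
    funext ω x
    rw [ho.T_add]; rfl
  show μ.map (fun ω (x : Fin d → ℤ) => gfun hd res A 0 (T (x + z) ω)) = _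
  rw [h1, ← Measure.map_map (meas_C0 hd ho) (ho.mp z).measurable, (ho.mp z).map_eq]

/-! ### residue estimates -/

lemma res_eq_le (ho : Odo d Ω μ T res) (m : ℕ) (hm : 0 < m) (c : Fin d) (a : ℤ) :
    μ {ω | res m c ω = a} ≤ (m : ℝ≥0∞)⁻¹ := by
  by_cases h : 0 ≤ a ∧ a < (m : ℤ)
  · exact (ho.res_unif m c a hm h.1 h.2).le
  · have : {ω | res m c ω = a} = ∅ := by
      ext ω
      simp only [Set.mem_ofPred_eq, Set.mem_empty_iff_false, iff_false]
      intro he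
      have := ho.res_range m c ω hm
      rw [he] at this
      exact h this
    rw [this]; simp

lemma res_window (ho : Odo d Ω μ T res) (m : ℕ) (hm : 0 < m) (c : Fin d) (lo : ℤ) (k : ℕ) :
    μ {ω | lo ≤ res m c ω ∧ res m c ω < lo + k} ≤ k * (m : ℝ≥0∞)⁻¹ := by
  have : {ω | lo ≤ res m c ω ∧ res m c ω < lo + k} ⊆
      ⋃ i ∈ Finset.range k, {ω | res m c ω = lo + (i : ℕ)} := by
    intro ω hω
    simp only [Set.mem_ofPred_eq] at hω
    simp only [Set.mem_iUnion, Set.mem_ofPred_eq, Finset.mem_range, exists_prop]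
    refine ⟨(res m c ω - lo).toNat, ?_, ?_⟩ <;> omega
  calc μ {ω | lo ≤ res m c ω ∧ res m c ω < lo + k}
      ≤ μ (⋃ i ∈ Finset.range k, {ω | res m c ω = lo + (i : ℕ)}) := measure_mono this
    _ ≤ ∑ i ∈ Finset.range k, μ {ω | res m c ω = lo + (i : ℕ)} := measure_biUnion_finset_le _ _
    _ ≤ ∑ i ∈ Finset.range k, (m : ℝ≥0∞)⁻¹ := Finset.sum_le_sum fun i _ => res_eq_le ho m hm c _
    _ = k * (m : ℝ≥0∞)⁻¹ := by simp

lemma ofReal_mul_inv_le {x : ℝ} {m r : ℕ} (hm : 0 < m) (h : 2 ^ r * x ≤ (m : ℝ)) :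
    ENNReal.ofReal x * (m : ℝ≥0∞)⁻¹ ≤ (2 : ℝ≥0∞)⁻¹ ^ r := by
  have hm' : (0 : ℝ) < m := by exact_mod_cast hm
  have e1 : (2 : ℝ≥0∞)⁻¹ ^ r = ENNReal.ofReal ((1 / 2) ^ r) := by
    rw [ENNReal.ofReal_pow (by norm_num), one_div, ENNReal.ofReal_inv_of_pos (by norm_num)]
    simp
  have e2 : (m : ℝ≥0∞) = ENNReal.ofReal (m : ℝ) := (ENNReal.ofReal_natCast m).symm
  rw [e1, e2, ← div_eq_mul_inv, ← ENNReal.ofReal_div_of_pos hm']
  apply ENNReal.ofReal_le_ofReal
  rw [div_le_iff₀ hm', div_pow, one_pow, div_mul_eq_mul_div, one_mul, le_div_iff₀ (by positivity)]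
  linarith

lemma nat_mul_inv_le {a m r : ℕ} (hm : 0 < m) (h : 2 ^ r * a ≤ m) :
    (a : ℝ≥0∞) * (m : ℝ≥0∞)⁻¹ ≤ (2 : ℝ≥0∞)⁻¹ ^ r := by
  have := ofReal_mul_inv_le (x := (a : ℝ)) hm (r := r) (by exact_mod_cast h)
  rwa [ENNReal.ofReal_natCast] at this

/-! ### mean -/

lemma gfun_zero_eq (ho : Odo d Ω μ T res) (hA : GoodPar A) {ω : Ω} {j m n : ℕ}
    (hR : RO hd res A ω j m n) (k : ℕ) :
    gfun hd res A k ω = ENNReal.ofReal (vv (QQ A j) (HH A j) (LL A j) (ss A j m) n k) := by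
  have h0 : T 0 ω = ω := ho.T_zero ω
  have hR' : RS hd res A ω j m n 0 := by
    rw [← RO_iff hd ho hA, h0]; exact hR
  obtain ⟨c1, -⟩ := fromC hd ω ho hA
  have := c1 j m n k 0 hR'
  rw [← gfun_eq hd ho hA, h0] at this
  exact this

omit [MeasurableSpace Ω] in
lemma gfun_zero_of_not {ω : Ω}
    (hR : ∀ j m n, ¬ RO hd res A ω j m n) (k : ℕ) : gfun hd res A k ω = 0 := by
  unfold gfun
  rw [ENNReal.tsum_eq_zero]
  intro a
  rw [if_neg (hR _ _ _)]

/-- the threshold `c_j` -/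
def cc (A : ℕ → ℕ) (j : ℕ) : ℕ := 4 + A (j - 1) + HH A j

lemma gfun_le (ho : Odo d Ω μ T res) (hA : GoodPar A) (ω : Ω) :
    gfun hd res A 0 ω ≤ ∑' j, (ENNReal.ofReal (QQ A j 0 + 2 + GG (QQ A j) (HH A j)) *
        Set.indicator {ω | 0 ≤ gd hd res A ω (j + 1) ∧ gd hd res A ω (j + 1) < 0 + (cc A j : ℕ)}
          (fun _ => (1 : ℝ≥0∞)) ω +
      ENNReal.ofReal (QQ A j 0 + 2) *
        Set.indicator {ω | gd hd res A ω j = 1} (fun _ => (1 : ℝ≥0∞)) ω) := by
  by_cases hex : ∃ j m n, RO hd res A ω j m n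
  swap
  · push Not at hex
    rw [gfun_zero_of_not hd hex]
    simp
  obtain ⟨j, m, n, hR⟩ := hex
  rw [gfun_zero_eq hd ho hA hR]
  refine le_trans ?_ (ENNReal.le_tsum j)
  have hgood := good_all hA j
  have hS := treeSys hd ho hA ω
  have h0 : T 0 ω = ω := ho.T_zero ω
  have hR' : RS hd res A ω j m n 0 := by
    rw [← RO_iff hd ho hA, h0]; exact hR
  have hlt := hS.lt _ _ _ _ hR'
  have hcase : ss A j m + HH A j < LL A j ∨ (HH A j = 0 ∧ LL A j ≤ ss A j m) := by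
    cases j with
    | zero => right; exact ⟨rfl, hS.s_zero m⟩
    | succ j => left; exact hS.s_bound _ _ _ _ hR'
  have hA9 := proofA.2.2.2.2.2.2.2.2.1 (QQ A j) (HH A j) (LL A j) (ss A j m) n hgood hcase hlt
  have hA10 := proofA.2.2.2.2.2.2.2.2.2 (QQ A j) (HH A j) (LL A j) (ss A j m) n hgood
  have hrange := ho.res_range (A (j + 1)) (Fin.castLE hd (dir (j + 1))) ω
    (by have := hA.e1 (j + 1); omega)
  by_cases hc : gd hd res A ω (j + 1) < 0 + (cc A j : ℕ)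
  · have hmem : ω ∈ {ω | 0 ≤ gd hd res A ω (j + 1) ∧ gd hd res A ω (j + 1) < 0 + (cc A j : ℕ)} :=
      ⟨hrange.1, hc⟩
    rw [Set.indicator_of_mem hmem, mul_one]
    exact le_trans (ENNReal.ofReal_le_ofReal hA9) le_self_add
  · have hp := hR.1.2.1
    have hge : (4 : ℤ) + A (j - 1) + HH A j ≤ gd hd res A ω (j + 1) := by
      unfold cc at hc; push_cast at hc; omega
    have hone : gd hd res A ω j = 1 ∧ vv (QQ A j) (HH A j) (LL A j) (ss A j m) n 0 ≤ QQ A j 0 + 2 := by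
      rcases hp with ⟨p1, p2, p3, p4, p5⟩ | ⟨p1, p2, p3, p4⟩ | ⟨p1, p2, p3, p4⟩ | ⟨p1, p2, p3, p4⟩
      · exfalso; omega
      · exfalso; omega
      · exfalso; omega
      · refine ⟨p3, ?_⟩
        cases j with
        | zero =>
            refine le_trans hA9 ?_
            have : GG (QQ A 0) (HH A 0) = 0 := by
              show ∑ u ∈ Finset.range 0, _ = _
              simp
            rw [this]; linarith
        | succ j =>
            apply hA10 _ hlt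
            have h1 := ss_cast A j m
            have h2 : (4 : ℤ) + A j + HH A (j + 1) ≤ gd hd res A ω (j + 1 + 1) := by
              simpa using hge
            have hb2 := bb_two A (j + 1)
            have p2' : wd hd res A ω (j + 1 + 1) = ((m : ℤ) + 1) * (bb A (j + 1) : ℤ) := p2
            omega
    rw [Set.indicator_of_mem (show ω ∈ {ω | gd hd res A ω j = 1} from hone.1), mul_one]
    exact le_trans (ENNReal.ofReal_le_ofReal hone.2) le_add_self

lemma mean_lt_top (ho : Odo d Ω μ T res) (hA : GoodPar A) :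
    ∫⁻ ω, gfun hd res A 0 ω ∂μ < ⊤ := by
  have hA0 : ∀ j, 0 < A j := fun j => by have := hA.e1 j; omega
  have hm1 : ∀ j, MeasurableSet {ω | 0 ≤ gd hd res A ω (j + 1) ∧
      gd hd res A ω (j + 1) < 0 + (cc A j : ℕ)} := fun j =>
    (meas_gd hd ho (j + 1)) (MeasurableSet.of_discrete (s := {z : ℤ | 0 ≤ z ∧ z < 0 + (cc A j : ℕ)}))
  have hm2 : ∀ j, MeasurableSet {ω | gd hd res A ω j = 1} := fun j =>
    (meas_gd hd ho j) (MeasurableSet.of_discrete (s := {z : ℤ | z = 1}))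
  have hK : ∀ j, 0 ≤ QQ A j 0 := by
    intro j
    have hg := good_all hA j
    by_cases h : 0 < HH A j
    · exact (hg.pos 0 h).le
    · exact (hg.zero 0 (by omega)).ge
  calc ∫⁻ ω, gfun hd res A 0 ω ∂μ
      ≤ ∫⁻ ω, ∑' j, (ENNReal.ofReal (QQ A j 0 + 2 + GG (QQ A j) (HH A j)) *
        Set.indicator {ω | 0 ≤ gd hd res A ω (j + 1) ∧ gd hd res A ω (j + 1) < 0 + (cc A j : ℕ)}
          (fun _ => (1 : ℝ≥0∞)) ω +
      ENNReal.ofReal (QQ A j 0 + 2) *
        Set.indicator {ω | gd hd res A ω j = 1} (fun _ => (1 : ℝ≥0∞)) ω) ∂μ :=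
        lintegral_mono fun ω => gfun_le hd ho hA ω
    _ = ∑' j, ∫⁻ ω, (ENNReal.ofReal (QQ A j 0 + 2 + GG (QQ A j) (HH A j)) *
        Set.indicator {ω | 0 ≤ gd hd res A ω (j + 1) ∧ gd hd res A ω (j + 1) < 0 + (cc A j : ℕ)}
          (fun _ => (1 : ℝ≥0∞)) ω +
      ENNReal.ofReal (QQ A j 0 + 2) *
        Set.indicator {ω | gd hd res A ω j = 1} (fun _ => (1 : ℝ≥0∞)) ω) ∂μ := by
        rw [lintegral_tsum]
        intro j
        refine (Measurable.add ?_ ?_).aemeasurable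
        · exact (measurable_const.indicator (hm1 j)).const_mul _
        · exact (measurable_const.indicator (hm2 j)).const_mul _
    _ ≤ ∑' j, ((2 : ℝ≥0∞)⁻¹ ^ j + (2 : ℝ≥0∞)⁻¹ ^ j) := by
        refine ENNReal.tsum_le_tsum fun j => ?_
        rw [lintegral_add_left ((measurable_const.indicator (hm1 j)).const_mul _),
          lintegral_const_mul _ (measurable_const.indicator (hm1 j)),
          lintegral_const_mul _ (measurable_const.indicator (hm2 j)),
          lintegral_indicator_const (hm1 j), lintegral_indicator_const (hm2 j), one_mul, one_mul]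
        refine add_le_add ?_ ?_
        · have h1 := res_window ho (A (j + 1)) (hA0 (j + 1)) (Fin.castLE hd (dir (j + 1))) 0 (cc A j)
          refine le_trans (mul_le_mul_right h1 _) ?_
          have h2 := hA.e7 j
          have h3 := ofReal_mul_inv_le (r := j) (hA0 (j + 1)) h2
          refine le_trans (le_of_eq ?_) h3
          rw [← mul_assoc]
          congr 1
          have h4 : ((cc A j : ℕ) : ℝ≥0∞) = ENNReal.ofReal ((4 : ℝ) + A (j - 1) + HH A j) := by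
            rw [← ENNReal.ofReal_natCast]
            congr 1
            unfold cc; push_cast; ring
          rw [h4, ← ENNReal.ofReal_mul]
          have hG : 0 ≤ GG (QQ A j) (HH A j) := Finset.sum_nonneg fun u hu =>
            ((good_all hA j).pos u (Finset.mem_range.mp hu)).le
          have := hK j
          linarith
        · have h1 := res_eq_le ho (A j) (hA0 j) (Fin.castLE hd (dir j)) 1
          exact le_trans (mul_le_mul_right h1 _) (ofReal_mul_inv_le (hA0 j) (hA.e6 j))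
    _ < ⊤ := by
        rw [ENNReal.tsum_add, ENNReal.tsum_geometric, ENNReal.one_sub_inv_two, inv_inv]
        norm_num

end PTC
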