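import Pool.Agent.R958.PTC.Defs

open MeasureTheory
open scoped ENNReal

namespace PTC

/-! ## Piece A: profiles -/

def StmtA : Prop :=
  (∀ (Q : ℕ → ℝ) (H L : ℕ), Good Q H → 0 < L → Good (nextP Q H L) (L + H)) ∧
  (∀ (Q : ℕ → ℝ) (H L s n k : ℕ), Good Q H → s + H < L → n < L → s ≤ n →
    vv Q H L s n (k + 1) = (if n + 1 < L then vv Q H L s (n + 1) k else 0) + Q k) ∧
  (∀ (Q : ℕ → ℝ) (H L s n k : ℕ), Good Q H → (s + H < L ∨ (H = 0 ∧ L ≤ s)) → n < L → n < s →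
    vv Q H L s n (k + 1) = (if n + 1 < L then vv Q H L s (n + 1) k else 0)) ∧
  (∀ (Q : ℕ → ℝ) (H L s n k : ℕ), Good Q H → (s + H < L ∨ (H = 0 ∧ L ≤ s)) → n < L →
    0 ≤ vv Q H L s n k) ∧
  (∀ (Q : ℕ → ℝ) (H L s n k : ℕ), Good Q H → (s + H < L ∨ (H = 0 ∧ L ≤ s)) → n + 1 < L →
    0 < vv Q H L s (n + 1) k → vv Q H L s (n + 1) k < vv Q H L s n k) ∧
  (∀ (Q : ℕ → ℝ) (H L s n k : ℕ), Good Q H → s + H < L → s ≤ n → n < L →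
    0 < Q k → Q k < vv Q H L s n k) ∧
  (∀ (Q : ℕ → ℝ) (H L s k : ℕ), 0 < s → vv Q H L s 0 k = nextP Q H L k) ∧
  (∀ (Q : ℕ → ℝ) (H L s n : ℕ), Good Q H → (s + H < L ∨ (H = 0 ∧ L ≤ s)) → n < L →
    0 < vv Q H L s n 0) ∧
  (∀ (Q : ℕ → ℝ) (H L s n : ℕ), Good Q H → (s + H < L ∨ (H = 0 ∧ L ≤ s)) → n < L →
    vv Q H L s n 0 ≤ Q 0 + 2 + GG Q H) ∧
  (∀ (Q : ℕ → ℝ) (H L s n : ℕ), Good Q H → s + H ≤ n → n < L →
    vv Q H L s n 0 ≤ Q 0 + 2)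

/-! ## Piece C: the values and the dynamics on an abstract tree system -/

def StmtC : Prop :=
  StmtA → ∀ (V : Type) (adj : V → V → Prop) (L H : ℕ → ℕ) (s : ℕ → ℕ → ℕ) (Q : ℕ → ℕ → ℝ)
    (R : ℕ → ℕ → ℕ → V → Prop) (p : V → V),
    TreeSys adj L H s R p → (∀ j, Good (Q j) (H j)) → (H 0 = 0) →
    (∀ j, Q (j + 1) = nextP (Q j) (H j) (L j)) → (∀ j, H (j + 1) = L j + H j) →
    (∀ j m n k x, R j m n x →
      cval L H s Q R k x = ENNReal.ofReal (vv (Q j) (H j) (L j) (s j m) n k)) ∧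
    (∀ k x, (∀ j m n, ¬ R j m n x) → cval L H s Q R k x = 0) ∧
    (∀ x, 0 < cval L H s Q R 0 x ↔ ∃ j m n, R j m n x) ∧
    (∀ k x y, 0 < cval L H s Q R k x → (y = x ∨ adj x y) → y ≠ p x →
      cval L H s Q R k y < cval L H s Q R k (p x)) ∧
    (∀ k x, cval L H s Q R (k + 1) x =
      open scoped Classical in
      ∑' y, if cval L H s Q R k y ≠ 0 ∧ p y = x then cval L H s Q R k y else 0)

/-! ## Piece F: forests from rank functions -/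

def StmtF : Prop :=
  ∀ (V : Type) (S : Set V) (p : V → V) (r : V → ℕ ×ₗ ℕ),
    (∀ x ∈ S, p x ∈ S ∧ r x < r (p x)) →
    ∀ F : SimpleGraph V, (∀ x y, F.Adj x y ↔ x ∈ S ∧ y ∈ S ∧ (y = p x ∨ x = p y)) →
      F.IsAcyclic ∧
      ∀ x ∈ S, ∃ γ : ℕ → V, (γ 0 = x ∧ Function.Injective γ ∧ ∀ n, F.Adj (γ n) (γ (n + 1))) ∧
        γ 1 = p x ∧
        ∀ γ' : ℕ → V, γ' 0 = x → Function.Injective γ' → (∀ n, F.Adj (γ' n) (γ' (n + 1))) → γ' = γ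

/-! ## Piece D: the odometer -/

def StmtD : Prop :=
  ∀ d : ℕ, ∃ (Ω : Type) (_ : MeasurableSpace Ω) (μ : Measure Ω) (_ : IsProbabilityMeasure μ)
    (T : (Fin d → ℤ) → Ω → Ω) (res : ℕ → Fin d → Ω → ℤ),
    (∀ x, MeasurePreserving (T x) μ μ) ∧
    (∀ x y ω, T (x + y) ω = T x (T y ω)) ∧ (∀ ω, T 0 ω = ω) ∧
    (∀ m c, Measurable (res m c)) ∧
    (∀ m c ω, 0 < m → 0 ≤ res m c ω ∧ res m c ω < (m : ℤ)) ∧
    (∀ m c x ω, 0 < m → res m c (T x ω) = (res m c ω + x c) % (m : ℤ)) ∧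
    (∀ m m' c ω, 0 < m → 0 < m' → m ∣ m' → res m' c ω % (m : ℤ) = res m c ω) ∧
    (∀ (m : ℕ) (c : Fin d) (a : ℤ), 0 < m → 0 ≤ a → a < (m : ℤ) →
      μ {ω | res m c ω = a} = (m : ℝ≥0∞)⁻¹)

/-! ## Piece E: parameters -/

structure GoodPar (A : ℕ → ℕ) : Prop where
  e1 : ∀ j, 5 ≤ A j
  e2 : ∀ j, A j ∣ A (j + 2)
  e3 : ∀ j, A j + A (j + 1) * bb A (j + 1) + A (j + 1) + HH A (j + 1) + 2 ≤ A (j + 2)
  e4 : ∀ j, 2 ^ (j + 4) ≤ A j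
  e5 : ∀ j, 2 ^ (j + 4) * (A (j + 1) * bb A (j + 1) + A (j + 1) + 2 * A j + 2) ≤ A (j + 2)
  e6 : ∀ j, 2 ^ j * (QQ A j 0 + 2) ≤ (A j : ℝ)
  e7 : ∀ j, 2 ^ j * ((QQ A j 0 + 2 + GG (QQ A j) (HH A j)) * (4 + A (j - 1) + HH A j))
    ≤ (A (j + 1) : ℝ)

def StmtE : Prop := ∃ A : ℕ → ℕ, GoodPar A

/-! ## Piece B: geometry -/

def StmtB : Prop :=
  ∀ (A : ℕ → ℕ) (G W : (Fin 3 → ℤ) → ℕ → ℤ),
    Addr (fun j => (A j : ℤ)) (fun j => (bb A j : ℤ)) G W →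
    (∀ j, A j + A (j + 1) * bb A (j + 1) + A (j + 1) + HH A (j + 1) + 2 ≤ A (j + 2)) →
    TreeSys adj3 (LL A) (HH A) (ss A)
      (fun j m n x => IsV (fun j => (A j : ℤ)) (fun j => (bb A j : ℤ)) (G x) (W x) j m n)
      (pmap (fun j => (A j : ℤ)) (fun j => (bb A j : ℤ)) G W)

end PTC
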